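import Pool.Agent.X96.AT.Dec

/-!
Axisymmetric flows (helper96): comparison in a cylinder, the differential inequality is only used
at the points at which the circulation touches the barrier.
-/

set_option autoImplicit false

open MeasureTheory Set Metric Filter Topology
open scoped ContDiff ENNReal

namespace Pool.Agent.X96.AT

open H459R3.NS W221.NS Pool.Agent.TH305.AX Pool.Agent.X96.AX
open Pool.Agent.X96.AR hiding sm_sg
open Pool.Agent.TH305.DR hiding gg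
open Pool.Agent.W583.MD (sm_pd)

variable {ν T : ℝ} {u : ℝ → V → V} {p : ℝ → V → ℝ}

/-- The circulation is stationary along the axis, its absolute value increases with the
distance to the axis and is maximal in the cylinder. -/
def Tch (v : V → V) (x : V) : Prop :=
  pd 2 (circ v) x = 0 ∧ 0 < circ v x * (x 0 * pd 0 (circ v) x + x 1 * pd 1 (circ v) x) ∧
    ∀ y, sg y ≤ sg x → |circ v y| ≤ |circ v x|

/-- **Comparison in a cylinder.** -/
theorem cmpT (hν : 0 < ν) (h : TS ν T u p) {S : ℝ}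
    {Φ : ℝ → ℝ → ℝ} (hΦ0 : ∀ t ∈ Ico 0 T, ∀ σ ∈ Icc 0 S, 0 ≤ Φ t σ)
    (hΦc : ContinuousOn (fun z : ℝ × ℝ => Φ z.1 z.2) (Ico 0 T ×ˢ Icc 0 S))
    (hΦm : ∀ t ∈ Ioo 0 T, MonotoneOn (Φ t) (Icc 0 S))
    (hlat : ∀ t ∈ Ico 0 T, ∀ x, sg x = S → |circ (u t) x| ≤ Φ t S)
    (hin : ∀ x, sg x ≤ S → |circ (u 0) x| ≤ Φ 0 (sg x))
    (hmaj : ∀ t ∈ Ioo 0 T, ∀ x, 0 < sg x → sg x < S → Φ t (sg x) < |circ (u t) x| →
      ∃ χ χ₁ c₂ d ζ, Maj Φ t (sg x) χ χ₁ c₂ d ζ ∧ 0 < χ₁ (sg x) ∧ (Tch (u t) x →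
        4 * ν * sg x * c₂ - 2 * (x 0 * u t x 0 + x 1 * u t x 1) * χ₁ (sg x) ≤ d)) :
    ∀ t ∈ Ico 0 T, ∀ x, sg x ≤ S → |circ (u t) x| ≤ Φ t (sg x) := by
  intro t₀ ht₀ x₀ hx₀S
  by_contra hcon
  push Not at hcon
  have ht00 : 0 < t₀ := by
    rcases eq_or_lt_of_le ht₀.1 with h1 | h1
    · rw [← h1] at hcon
      exact absurd (hin x₀ hx₀S) (not_le.2 hcon)
    · exact h1
  obtain ⟨ε, hε, hε2⟩ : ∃ ε : ℝ, 0 < ε ∧
      0 < |circ (u t₀) x₀| - Φ t₀ (sg x₀) - ε * (1 + t₀) := by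
    obtain ⟨m, hm⟩ : ∃ m : ℝ, m = |circ (u t₀) x₀| - Φ t₀ (sg x₀) := ⟨_, rfl⟩
    have hm0 : 0 < m := by rw [hm]; linarith
    have hZ : 0 < 1 + t₀ := by linarith
    rw [← hm]
    refine ⟨m / (2 * (1 + t₀)), by positivity, ?_⟩
    have : m / (2 * (1 + t₀)) * (1 + t₀) = m / 2 := by field_simp
    rw [this]
    linarith
  obtain ⟨A, hA⟩ : ∃ A : ℝ × V → ℝ, A = fun z => |circ (u z.1) z.2|
      - Φ z.1 (sg z.2) - ε * (1 + z.1) := ⟨_, rfl⟩
  have hI : ∀ t ∈ Icc 0 t₀, t ∈ Ico 0 T := fun t ht => ⟨ht.1, ht.2.trans_lt ht₀.2⟩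
  have hlo : ∀ t ∈ Icc 0 t₀, ∀ x, sg x ≤ S → 0 ≤ Φ t (sg x) := fun t ht x hx =>
    hΦ0 t (hI t ht) _ ⟨sg_nonneg x, hx⟩
  -- outside a ball F is negative
  obtain ⟨Z, hZ⟩ := h.dec t₀ ht₀.2 S (ε / 2) (by positivity)
  obtain ⟨R, hR⟩ : ∃ R : ℝ, R = |Z| + ‖x₀‖ := ⟨_, rfl⟩
  have hout : ∀ t ∈ Icc 0 t₀, ∀ x, sg x ≤ S → R < ‖x‖ → A (t, x) < 0 := by
    intro t ht x hxS hx
    rw [hA]
    show |circ (u t) x| - Φ t (sg x) - ε * (1 + t) < 0
    have h2 := hZ t ht x hxS (by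
      have := le_abs_self Z
      have := norm_nonneg x₀
      linarith)
    have h3 := hlo t ht x hxS
    have h4 : ε * 1 ≤ ε * (1 + t) := mul_le_mul_of_nonneg_left (by linarith [ht.1]) hε.le
    linarith
  obtain ⟨Kset, hKs⟩ : ∃ Kset : Set V, Kset = closedBall (0 : V) R ∩ {x | sg x ≤ S} := ⟨_, rfl⟩
  have hKc : IsCompact Kset := by
    rw [hKs]
    exact (isCompact_closedBall (0 : V) R).inter_right
      (isClosed_le sm_sg.continuous continuous_const)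
  have hKm : ∀ {y : V}, y ∈ Kset ↔ ‖y‖ ≤ R ∧ sg y ≤ S := by
    intro y
    rw [hKs]
    constructor
    · rintro ⟨h1, h2⟩
      exact ⟨by rwa [mem_closedBall, dist_zero_right] at h1, h2⟩
    · rintro ⟨h1, h2⟩
      exact ⟨by rwa [mem_closedBall, dist_zero_right], h2⟩
  have hFc : ContinuousOn A (Icc 0 t₀ ×ˢ Kset) := by
    have h1 : ContinuousOn (fun z : ℝ × V => circ (u z.1) z.2)
        (Icc 0 t₀ ×ˢ Kset) :=
      (h.b.circ_cont).mono fun z hz => ⟨⟨hz.1.1, hz.1.2.trans_lt ht₀.2⟩, trivial⟩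
    have h2 : Continuous fun z : ℝ × V => ε * (1 + z.1) := by fun_prop
    have h5 : ContinuousOn (fun z : ℝ × V => Φ z.1 (sg z.2))
        (Icc 0 t₀ ×ˢ Kset) :=
      hΦc.comp (f := fun z : ℝ × V => (z.1, sg z.2)) (continuous_fst.prodMk
        (sm_sg.continuous.comp continuous_snd)).continuousOn
        fun z hz => ⟨hI _ hz.1, sg_nonneg z.2, (hKm.1 hz.2).2⟩
    rw [hA]
    exact (h1.abs.sub h5).sub h2.continuousOn
  have hx₀K : x₀ ∈ Kset := hKm.2 ⟨by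
    rw [hR]
    have := abs_nonneg Z
    linarith, hx₀S⟩
  obtain ⟨⟨t, x⟩, ⟨ht, hx⟩, hmx⟩ := (isCompact_Icc.prod hKc).exists_isMaxOn
    (s := Icc 0 t₀ ×ˢ Kset) ⟨(t₀, x₀), ⟨ht00.le, le_rfl⟩, hx₀K⟩ hFc
  simp only at ht hx
  have hxS : sg x ≤ S := (hKm.1 hx).2
  have hA0 : 0 < A (t, x) := by
    refine lt_of_lt_of_le ?_ (hmx (show (t₀, x₀) ∈ Icc 0 t₀ ×ˢ Kset from
      ⟨⟨ht00.le, le_rfl⟩, hx₀K⟩))
    rw [hA]
    exact hε2
  have hglobA : ∀ t' ∈ Icc 0 t₀, ∀ y, sg y ≤ S → A (t', y) ≤ A (t, x) := by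
    intro t' ht' y hyS
    rcases le_or_gt ‖y‖ R with hy | hy
    · exact hmx (show (t', y) ∈ Icc 0 t₀ ×ˢ Kset from ⟨ht', hKm.2 ⟨hy, hyS⟩⟩)
    · exact (hout t' ht' y hyS hy).le.trans hA0.le
  -- the sign
  obtain ⟨s, hs1, hs4⟩ : ∃ s : ℝ, |s| = 1 ∧ s * circ (u t) x = |circ (u t) x| := by
    rcases le_total 0 (circ (u t) x) with h1 | h1
    · exact ⟨1, by simp, by rw [abs_of_nonneg h1, one_mul]⟩
    · exact ⟨-1, by simp, by rw [abs_of_nonpos h1]; ring⟩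
  have hs3 : s * s = 1 := by rw [← abs_mul_abs_self, hs1, one_mul]
  have hsc : ∀ v : V → V, ∀ x, s * circ v x ≤ |circ v x| := by
    intro v x
    calc s * circ v x ≤ |s * circ v x| := le_abs_self _
      _ = |circ v x| := by rw [abs_mul, hs1, one_mul]
  obtain ⟨F, hF⟩ : ∃ F : ℝ × V → ℝ, F = fun z => s * circ (u z.1) z.2
      - Φ z.1 (sg z.2) - ε * (1 + z.1) := ⟨_, rfl⟩
  have hFA : F (t, x) = A (t, x) := by
    rw [hF, hA]
    show s * circ (u t) x - Φ t (sg x) - ε * (1 + t)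
      = |circ (u t) x| - Φ t (sg x) - ε * (1 + t)
    rw [hs4]
  have hglob : ∀ t' ∈ Icc 0 t₀, ∀ y, sg y ≤ S → F (t', y) ≤ F (t, x) := by
    intro t' ht' y hyS
    rw [hFA]
    refine le_trans ?_ (hglobA t' ht' y hyS)
    rw [hF, hA]
    show s * circ (u t') y - Φ t' (sg y) - ε * (1 + t')
      ≤ |circ (u t') y| - Φ t' (sg y) - ε * (1 + t')
    linarith [hsc (u t') y]
  have hF0' : 0 < s * circ (u t) x - Φ t (sg x) - ε * (1 + t) := by
    rw [← hFA, hF] at hA0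
    exact hA0
  have hεp : 0 < ε * (1 + t) := mul_pos hε (by linarith [ht.1])
  have ht0 : 0 < t := by
    rcases eq_or_lt_of_le ht.1 with h1 | h1
    · exfalso
      rw [← h1] at hF0' hεp
      have h3 := (hsc (u 0) x).trans (hin x hxS)
      linarith
    · exact h1
  have htT : t ∈ Ioo 0 T := ⟨ht0, ht.2.trans_lt ht₀.2⟩
  have hlox := hlo t ht x hxS
  have hbig : Φ t (sg x) < s * circ (u t) x := by linarith
  have hσ : 0 < sg x := by
    rcases eq_or_lt_of_le (sg_nonneg x) with h1 | h1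
    · exfalso
      have h2 := (hsc (u t) x).trans (circ_le (u t) x)
      rw [← h1, Real.sqrt_zero] at h2
      linarith
    · exact h1
  have hσS : sg x < S := by
    rcases eq_or_lt_of_le hxS with h1 | h1
    · exfalso
      have h2 := hlat t (hI t ht) x h1
      have h3 := hsc (u t) x
      rw [h1] at hbig
      linarith
    · exact h1
  have hrec : ∀ y, sg y ≤ sg x → |circ (u t) y| ≤ |circ (u t) x| := by
    intro y hy
    have h1 := hglobA t ht y (hy.trans hxS)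
    rw [hA] at h1
    have h2 : |circ (u t) y| - Φ t (sg y) - ε * (1 + t)
      ≤ |circ (u t) x| - Φ t (sg x) - ε * (1 + t) := h1
    have h3 := hΦm t htT ⟨sg_nonneg y, hy.trans hxS⟩ ⟨sg_nonneg x, hxS⟩ hy
    linarith
  -- the touching function
  have hFt : ∀ y, F (t, y) = s * circ (u t) y - Φ t (sg y) - ε * (1 + t) := by
    intro y
    rw [hF]
  have hax := h.b.axi t (Ioo_subset_Ico_self htT)
  have hFrot : ∀ θ, F (t, rot θ x) = F (t, x) := by
    intro θ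
    rw [hFt, hFt, circ_rot hax, sg_rot]
  obtain ⟨θ, hθq⟩ := rolle (h.b.slicep htT) x
  obtain ⟨x', hx'⟩ : ∃ x', x' = rot θ x := ⟨_, rfl⟩
  rw [← hx'] at hθq
  have hsx : sg x' = sg x := by rw [hx', sg_rot]
  have hσ' : 0 < sg x' := by rw [hsx]; exact hσ
  have hσS' : sg x' < S := by rw [hsx]; exact hσS
  have hcx : circ (u t) x' = circ (u t) x := by rw [hx', circ_rot hax]
  have hcx' : Φ t (sg x') < |circ (u t) x'| := by
    rw [hcx, hsx]
    exact hbig.trans_le (hsc (u t) x)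
  obtain ⟨χ, χ₁, c₂, d', ζ, hMj, hχ₁, hkey⟩ := hmaj t htT x' hσ' hσS' hcx'
  have hsmW : ContDiffAt ℝ 2 (fun y => (1 : ℝ) * χ (sg y)) x' :=
    contDiffAt_const.mul (hMj.smooth.comp _ (sm_sg.contDiffAt.of_le (by norm_cast)))
  obtain ⟨W, hW⟩ : ∃ W : V → ℝ, W = fun y => (1 : ℝ) * χ (sg y) := ⟨_, rfl⟩
  rw [← hW] at hsmW
  have hnS : ∀ᶠ y in 𝓝 x', sg y ≤ S := by
    filter_upwards [sm_sg.continuous.continuousAt.eventually (gt_mem_nhds hσS')] with y hy
    exact hy.le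
  have hlm : IsLocalMax (fun y => s * circ (u t) y - W y) x' := by
    have h3 : ∀ᶠ y in 𝓝 x', Φ t (sg y) ≤ χ (sg y) :=
      ev_sg (P := fun r => Φ t r ≤ χ r) hMj.le
    filter_upwards [h3, hnS] with y hy hyS
    have h1 := hglob t ht y hyS
    have h2 := hFrot θ
    rw [← hx'] at h2
    rw [← h2, hFt, hFt] at h1
    have h5 := hMj.eq
    rw [hW]
    show s * circ (u t) y - (1 : ℝ) * χ (sg y) ≤ s * circ (u t) x' - (1 : ℝ) * χ (sg x')
    rw [h5]
    linarith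
  have hv := h.b.slice0 (Ioo_subset_Ico_self htT)
  have hθ := touch hν hv hax
    (d := fun i => deriv (fun τ => u τ x' i) t) (fun i => h.b.momentum t htT x' i) hθq
    hσ' hsmW hlm
  have hd1 := hMj.hd1
  have hd2 := hMj.hd2
  have hpdW : ∀ j, pd j W x' = (1 : ℝ) * (χ₁ (sg x') * (2 * cj j * x' j)) := by
    intro j
    rw [hW, pd_maj (1 : ℝ) hd1.self_of_nhds j]
  -- the first derivatives
  have hsc2 : ContDiff ℝ ∞ (fun y => s * circ (u t) y) := contDiff_const.mul (sm_circ hv)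
  have hpd : ∀ j, s * pd j (circ (u t)) x' = pd j W x' := by
    intro j
    have h1 := (max_pd ((hsc2.contDiffAt.of_le (by norm_cast)).sub hsmW) hlm j).1
    rw [(pd2_sub_at hsc2 hsmW j).1, pd_cmul] at h1
    linarith
  have hT : Tch (u t) x' := by
    constructor
    · have h1 := hpd 2
      rw [hpdW 2, cj2] at h1
      have h2 : s * pd 2 (circ (u t)) x' = 0 := by rw [h1]; ring
      rcases mul_eq_zero.1 h2 with h3 | h3
      · rw [h3] at hs3
        norm_num at hs3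
      · exact h3
    · have h0 := hpd 0
      have h1 := hpd 1
      rw [hpdW 0, cj0] at h0
      rw [hpdW 1, cj1] at h1
      have h2 : 0 < s * circ (u t) x' := by rw [hcx]; linarith
      have h3 : s * (x' 0 * pd 0 (circ (u t)) x' + x' 1 * pd 1 (circ (u t)) x')
          = 2 * χ₁ (sg x') * sg x' := by
        have e : sg x' = x' 0 ^ 2 + x' 1 ^ 2 := rfl
        linear_combination x' 0 * h0 + x' 1 * h1 - (2 * χ₁ (sg x')) * e
      have h4 : 0 < (s * circ (u t) x')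
          * (s * (x' 0 * pd 0 (circ (u t)) x' + x' 1 * pd 1 (circ (u t)) x')) := by
        rw [h3]
        positivity
      have h5 : (s * circ (u t) x')
          * (s * (x' 0 * pd 0 (circ (u t)) x' + x' 1 * pd 1 (circ (u t)) x'))
          = circ (u t) x' * (x' 0 * pd 0 (circ (u t)) x' + x' 1 * pd 1 (circ (u t)) x') := by
        linear_combination (circ (u t) x' * (x' 0 * pd 0 (circ (u t)) x'
          + x' 1 * pd 1 (circ (u t)) x')) * hs3
      refine ⟨by rw [← h5]; exact h4, ?_⟩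
      intro y hy
      rw [hcx]
      rw [hsx] at hy
      exact hrec y hy
  have hkey := hkey hT
  have hlapW : lap W x' = (1 : ℝ) * (4 * sg x' * c₂ + 4 * χ₁ (sg x')) := by
    rw [hW]
    exact lap_maj (1 : ℝ) hd1 hd2
  rw [hlapW, hpdW 0, hpdW 1] at hθ
  simp only [hpdW] at hθ
  obtain ⟨L1, hL1⟩ : ∃ L1 : ℝ, L1 = χ₁ (sg x') := ⟨_, rfl⟩
  rw [← hL1] at hθ hkey
  have hom : 2 * (x' 0 * ((1 : ℝ) * (L1 * (2 * cj 0 * x' 0)))
      + x' 1 * ((1 : ℝ) * (L1 * (2 * cj 1 * x' 1)))) / sg x'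
      = 4 * L1 := by
    rw [div_eq_iff hσ'.ne', cj0, cj1]
    unfold sg
    ring
  rw [hom] at hθ
  have hsum : ∑ j, u t x' j * ((1 : ℝ) * (L1 * (2 * cj j * x' j)))
      = 2 * L1 * (x' 0 * u t x' 0 + x' 1 * u t x' 1) := by
    simp only [Fin.sum_univ_three, cj0, cj1, cj2]
    ring
  rw [hsum] at hθ
  -- the time derivative
  have hlin : HasDerivAt (fun τ => ε * (1 + τ)) (ε * 1) t :=
    ((hasDerivAt_id t).const_add 1).const_mul ε
  have hder := (((h.b.circ_hd htT x').const_mul s).sub hMj.td).sub hlin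
  have hnn := deriv_nonneg_ev hder (by
    filter_upwards [hMj.tle, Ioo_mem_nhdsLT ht0] with τ h3 hτ
    have h1 := hglob τ ⟨hτ.1.le, hτ.2.le.trans ht.2⟩ x' hσS'.le
    have h2 := hFrot θ
    rw [← hx'] at h2
    rw [← h2, hF] at h1
    have h4 : s * circ (u τ) x' - Φ τ (sg x') - ε * (1 + τ)
      ≤ s * circ (u t) x' - Φ t (sg x') - ε * (1 + t) := h1
    have h6 := hMj.teq
    show s * circ (u τ) x' - ζ τ - ε * (1 + τ) ≤ s * circ (u t) x' - ζ t - ε * (1 + t)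
    rw [h6]
    linarith)
  linarith

end Pool.Agent.X96.AT
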