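import Pool.Agent.X96.AR.Fin
import Pool.Agent.X96.AX.Mor5

/-!
Axisymmetric flows (helper96): uniform decay of the circulation along the axis.
-/

set_option autoImplicit false

open MeasureTheory Set Metric Filter Topology
open scoped ContDiff ENNReal

namespace Pool.Agent.X96.AT

open H459R3.NS W221.NS Pool.Agent.TH305.AX Pool.Agent.X96.AR
open Pool.Agent.TH305.DR hiding gg
open Pool.Agent.W583.MD (sm_pd)

variable {ν T : ℝ} {u : ℝ → V → V} {p : ℝ → V → ℝ}

/-- a Lipschitz function with integrable square tends to zero -/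
lemma dec_fn {f : V → ℝ} (hf : ContDiff ℝ ∞ f) {D : ℝ} (hD : 0 ≤ D)
    (hg : ∀ j x, |pd j f x| ≤ D) (hi : Integrable fun x => f x ^ 2) {η : ℝ} (hη : 0 < η) :
    ∃ Z : ℝ, ∀ x, Z ≤ ‖x‖ → |f x| ≤ η := by
  obtain ⟨ρ, hρ⟩ : ∃ ρ : ℝ, ρ = η / (6 * (D + 1)) := ⟨_, rfl⟩
  have hρ0 : 0 < ρ := by rw [hρ]; positivity
  have hc : 0 < (2 * ρ) ^ 3 * (η / 2) ^ 2 := by positivity
  have hlim : Tendsto (fun n : ℕ => ∫ x in closedBall (0 : V) n, f x ^ 2) atTop
      (𝓝 (∫ x, f x ^ 2)) := by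
    have h1 := tendsto_setIntegral_of_monotone (μ := (volume : Measure V))
      (f := fun x : V => f x ^ 2) (s := fun n : ℕ => closedBall (0 : V) n)
      (fun n => measurableSet_closedBall)
      (fun m n hmn => closedBall_subset_closedBall (by exact_mod_cast hmn)) hi.integrableOn
    rwa [iUnion_closedBall_nat, setIntegral_univ] at h1
  obtain ⟨n, hn⟩ := (hlim.eventually (lt_mem_nhds (sub_lt_self (∫ x, f x ^ 2) hc))).exists
  refine ⟨n + ρ + 1, fun x hx => ?_⟩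
  by_contra hcon
  push Not at hcon
  have hlip : ∀ y ∈ ball x ρ, η / 2 ≤ |f y| := by
    intro y hy
    have h1 : ‖f y - f x‖ ≤ 3 * D * ‖y - x‖ := by
      refine Convex.norm_image_sub_le_of_norm_fderiv_le (𝕜 := ℝ) (s := univ)
        (fun z _ => (hf.differentiable (by norm_cast)) z) (fun z _ => ?_) convex_univ
        (mem_univ _) (mem_univ _)
      refine (Pool.Agent.W440.MD.fderiv_norm_le z).trans ?_
      rw [Fin.sum_univ_three]
      linarith [hg 0 z, hg 1 z, hg 2 z]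
    rw [mem_ball, dist_eq_norm] at hy
    have h2 : 3 * D * ‖y - x‖ ≤ η / 2 := by
      calc 3 * D * ‖y - x‖ ≤ 3 * D * ρ := by gcongr
        _ ≤ 3 * (D + 1) * ρ := by gcongr; linarith
        _ = η / 2 := by rw [hρ]; field_simp; ring
    have h3 : |f x| ≤ |f y| + |f y - f x| := by
      have : f x = f y - (f y - f x) := by ring
      calc |f x| = |f y - (f y - f x)| := by rw [← this]
        _ ≤ _ := abs_sub _ _
    rw [Real.norm_eq_abs] at h1
    linarith
  have hsub : ball x ρ ⊆ (closedBall (0 : V) n)ᶜ := by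
    intro y hy hy2
    rw [mem_closedBall, dist_zero_right] at hy2
    rw [mem_ball, dist_eq_norm] at hy
    have : ‖x‖ ≤ ‖y‖ + ‖y - x‖ := by
      calc ‖x‖ = ‖y - (y - x)‖ := by congr 1; abel
        _ ≤ _ := norm_sub_le _ _
    linarith
  have h4 : (2 * ρ) ^ 3 * (η / 2) ^ 2 ≤ ∫ y in (closedBall (0 : V) n)ᶜ, f y ^ 2 := by
    have h5 : ∫ y in ball x ρ, (η / 2) ^ 2 ≤ ∫ y in (closedBall (0 : V) n)ᶜ, f y ^ 2 := by
      refine le_trans ?_ (setIntegral_mono_set hi.integrableOn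
        (Eventually.of_forall fun x => sq_nonneg _) (Eventually.of_forall hsub))
      refine setIntegral_mono_on (integrableOn_const measure_ball_lt_top.ne) hi.integrableOn
        measurableSet_ball fun y hy => ?_
      rw [← sq_abs (f y)]
      exact pow_le_pow_left₀ (by positivity) (hlip y hy) 2
    rw [setIntegral_const, smul_eq_mul, Measure.real, Real.volume_pi_ball x hρ0] at h5
    rw [ENNReal.toReal_ofReal (by positivity)] at h5
    simpa only [Fintype.card_fin] using h5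
  have h6 := integral_add_compl (μ := (volume : Measure V)) (s := closedBall (0 : V) n)
    measurableSet_closedBall hi
  linarith

/-- A solution whose circulation decays uniformly along the axis. -/
structure TS (ν T : ℝ) (u : ℝ → V → V) (p : ℝ → V → ℝ) : Prop where
  b : BSol ν T u p
  dec : ∀ T' < T, ∀ S η : ℝ, 0 < η → ∃ Z : ℝ, ∀ t ∈ Icc 0 T', ∀ x, sg x ≤ S → Z ≤ ‖x‖ →
    |circ (u t) x| ≤ η

lemma TS.shift (h : TS ν T u p) {t₀ : ℝ} (ht₀ : 0 ≤ t₀) :
    TS ν (T - t₀) (fun t => u (t₀ + t)) (fun t => p (t₀ + t)) where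
  b := Pool.Agent.X96.AX.BSol.shift h.b ht₀
  dec := by
    intro T' hT' S η hη
    obtain ⟨Z, hZ⟩ := h.dec (t₀ + T') (by linarith) S η hη
    exact ⟨Z, fun t ht x hx hZx => hZ (t₀ + t) ⟨by linarith [ht.1], by linarith [ht.2]⟩ x hx hZx⟩

lemma TS.restrict (h : TS ν T u p) {T' : ℝ} (hT' : T' ≤ T) : TS ν T' u p where
  b := h.b.restrict hT'
  dec := fun T'' hT'' => h.dec T'' (hT''.trans_le hT')

/-- the quotient `u_θ / ρ` decays uniformly -/
lemma gg_dec (h : RS T u p) {a b : ℝ} (ha : 0 < a) (hb : b < T) {η : ℝ} (hη : 0 < η) :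
    ∃ Z : ℝ, ∀ t ∈ Icc a b, ∀ x, Z ≤ ‖x‖ → |gg (u t) x| ≤ η := by
  have A := h.af ha hb
  have hg := A.g
  -- the time derivative is bounded
  obtain ⟨C, hC, hCb⟩ : ∃ C : ℝ, 0 ≤ C ∧ ∀ t ∈ Icc a b, ∀ x, |td (fun s => gg (u s)) t x| ≤ C := by
    obtain ⟨U0, h00, hU0⟩ := (A.hi 0).bd
    obtain ⟨U1, h10, hU1⟩ := (A.hi 1).bd
    obtain ⟨U2, h20, hU2⟩ := (A.hi 2).bd
    obtain ⟨G0, g00, hG0⟩ := (hg.pd 0).bd
    obtain ⟨G1, g10, hG1⟩ := (hg.pd 1).bd
    obtain ⟨G2, g20, hG2⟩ := (hg.pd 2).bd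
    obtain ⟨L, l0, hL⟩ := hg.lap.bd
    obtain ⟨K, k0, hK⟩ := hg.dlt.bd
    obtain ⟨P, p0, hP⟩ := A.f.bd
    obtain ⟨Q, q0, hQ⟩ := hg.bd
    refine ⟨L + 2 * K + 2 * (P * Q) + (U0 * G0 + U1 * G1 + U2 * G2), by positivity,
      fun t ht x => ?_⟩
    have htT : t ∈ Ioo 0 T := ⟨ha.trans_le ht.1, ht.2.trans_lt hb⟩
    have e := eqg h.sol htT x
    unfold av at e
    rw [Fin.sum_univ_three] at e
    have m0 : |u t x 0 * pd 0 (gg (u t)) x| ≤ U0 * G0 := by
      rw [abs_mul]; exact mul_le_mul ((hU0 t ht).2 x) ((hG0 t ht).2 x) (abs_nonneg _) h00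
    have m1 : |u t x 1 * pd 1 (gg (u t)) x| ≤ U1 * G1 := by
      rw [abs_mul]; exact mul_le_mul ((hU1 t ht).2 x) ((hG1 t ht).2 x) (abs_nonneg _) h10
    have m2 : |u t x 2 * pd 2 (gg (u t)) x| ≤ U2 * G2 := by
      rw [abs_mul]; exact mul_le_mul ((hU2 t ht).2 x) ((hG2 t ht).2 x) (abs_nonneg _) h20
    have m3 : |ff (u t) x * gg (u t) x| ≤ P * Q := by
      rw [abs_mul]; exact mul_le_mul ((hP t ht).2 x) ((hQ t ht).2 x) (abs_nonneg _) p0
    have m4 := (hL t ht).2 x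
    have m5 := (hK t ht).2 x
    rw [abs_le] at m0 m1 m2 m3 m4 m5 ⊢
    constructor <;> linarith [m0.1, m0.2, m1.1, m1.2, m2.1, m2.2, m3.1, m3.2, m4.1, m4.2, m5.1,
      m5.2]
  -- Lipschitz in time
  have hlip : ∀ s ∈ Icc a b, ∀ t ∈ Icc a b, ∀ x, |gg (u t) x - gg (u s) x| ≤ C * |t - s| := by
    intro s hs t ht x
    have hd : ∀ τ ∈ Icc a b, HasDerivWithinAt (fun s => gg (u s) x)
        (td (fun s => gg (u s)) τ x) (Icc a b) τ := by
      intro τ hτ
      have hτT : τ ∈ Ioo 0 T := ⟨ha.trans_le hτ.1, hτ.2.trans_lt hb⟩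
      exact ((jt_g h.sol).hd hτT x).hasDerivWithinAt
    have := Convex.norm_image_sub_le_of_norm_hasDerivWithin_le (C := C) hd
      (fun τ hτ => by rw [Real.norm_eq_abs]; exact hCb τ hτ x) (convex_Icc a b) hs ht
    simpa only [Real.norm_eq_abs] using this
  have hC1 : 0 < C + 1 := by linarith
  refine isCompact_Icc.induction_on
    (p := fun S : Set ℝ => ∃ Z : ℝ, ∀ t ∈ S, ∀ x, Z ≤ ‖x‖ → |gg (u t) x| ≤ η)
    ⟨0, fun t ht => absurd ht (notMem_empty t)⟩ ?_ ?_ ?_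
  · rintro s t hst ⟨Z, hZ⟩
    exact ⟨Z, fun τ hτ => hZ τ (hst hτ)⟩
  · rintro s t ⟨Z, hZ⟩ ⟨Z', hZ'⟩
    refine ⟨max Z Z', fun τ hτ x hx => ?_⟩
    rcases hτ with hτ | hτ
    · exact hZ τ hτ x ((le_max_left _ _).trans hx)
    · exact hZ' τ hτ x ((le_max_right _ _).trans hx)
  · intro s hs
    obtain ⟨G0, g00, hG0⟩ := (hg.pd 0).bd
    obtain ⟨G1, g10, hG1⟩ := (hg.pd 1).bd
    obtain ⟨G2, g20, hG2⟩ := (hg.pd 2).bd
    obtain ⟨Z, hZ⟩ := dec_fn (hg.sm s hs) (D := G0 + G1 + G2) (by positivity)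
      (fun j x => by
        fin_cases j
        · exact ((hG0 s hs).2 x).trans (by linarith)
        · exact ((hG1 s hs).2 x).trans (by linarith)
        · exact ((hG2 s hs).2 x).trans (by linarith)) (hg.m hs).sq (show 0 < η / 2 by positivity)
    refine ⟨Icc a b ∩ ball s (η / (2 * (C + 1))), inter_mem_nhdsWithin _
      (ball_mem_nhds s (by positivity)), Z, fun t ht x hx => ?_⟩
    have h1 := hlip s hs t ht.1 x
    have h2 := hZ x hx
    have h3 : |t - s| < η / (2 * (C + 1)) := by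
      have := ht.2
      rwa [mem_ball, Real.dist_eq] at this
    have h4 : C * |t - s| ≤ η / 2 := by
      calc C * |t - s| ≤ (C + 1) * (η / (2 * (C + 1))) := by
            gcongr
            linarith
        _ = η / 2 := by field_simp
    have h5 : |gg (u t) x| ≤ |gg (u s) x| + |gg (u t) x - gg (u s) x| := by
      have : gg (u t) x = gg (u s) x + (gg (u t) x - gg (u s) x) := by ring
      calc |gg (u t) x| = |gg (u s) x + (gg (u t) x - gg (u s) x)| := by rw [← this]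
        _ ≤ _ := abs_add_le _ _
    linarith

/-- the class of `RS` from a positive time on -/
theorem RS.ts (h : RS T u p) {t₀ : ℝ} (ht₀ : 0 < t₀) :
    TS 1 (T - t₀) (fun t => u (t₀ + t)) (fun t => p (t₀ + t)) where
  b := Pool.Agent.X96.AX.BSol.shift h.sol ht₀.le
  dec := by
    intro T' hT' S η hη
    obtain ⟨S', hS'⟩ : ∃ S' : ℝ, S' = max S 1 := ⟨_, rfl⟩
    have hS1 : 0 < S' := by rw [hS']; positivity
    obtain ⟨Z, hZ⟩ := gg_dec h (a := t₀) (b := t₀ + T') ht₀ (by linarith)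
      (η := η / S') (by positivity)
    refine ⟨Z, fun t ht x hx hZx => ?_⟩
    have htm : t₀ + t ∈ Icc t₀ (t₀ + T') := ⟨by linarith [ht.1], by linarith [ht.2]⟩
    have hT2 : t₀ + t ∈ Ico 0 T := ⟨by linarith [ht.1], by linarith [ht.2]⟩
    rw [circ_eq (h.sol.slice0 hT2) (h.sol.axi _ hT2), abs_mul, abs_of_nonneg (sg_nonneg x)]
    have h1 := hZ (t₀ + t) htm x hZx
    have h2 : sg x ≤ S' := hx.trans (by rw [hS']; exact le_max_left _ _)
    calc sg x * |gg (u (t₀ + t)) x| ≤ S' * (η / S') := by gcongr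
      _ = η := by field_simp

end Pool.Agent.X96.AT
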