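import Pool.Agent.X96.AT.Lg

/-!
Axisymmetric flows (helper96): the energy equality for solutions with a square integrable pressure.
-/

set_option autoImplicit false

open MeasureTheory Set Metric Filter Topology
open scoped ContDiff ENNReal

namespace Pool.Agent.X96.AT

open H459R3.NS W221.NS Pool.Agent.TH305.AX Pool.Agent.X96.AX
open Pool.Agent.X96.AR hiding sm_sg
open Pool.Agent.TH305.DR hiding gg
open Pool.Agent.W583.MD (sm_pd pd_mul')

variable {T : ℝ} {u : ℝ → V → V} {p : ℝ → V → ℝ} {s t : ℝ}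

/-- the class of solutions with a pressure in `H¹` -/
structure RP (T : ℝ) (u : ℝ → V → V) (p : ℝ → V → ℝ) : Prop where
  rs : RS T u p
  hp : ∀ a b, 0 < a → b < T → HB 1 (Icc a b) p

namespace RP

lemma smp (h : RP T u p) (ht : t ∈ Ioo 0 T) : ContDiff ℝ ∞ (p t) := by
  rw [← contDiffOn_univ]
  exact h.rs.sol.smooth_p.comp (f := fun x : V => (t, x)) (by fun_prop)
    (fun x _ => ⟨ht, mem_univ _⟩)

lemma eqm (h : RP T u p) (ht : t ∈ Ioo 0 T) (i : Fin 3) (x : V) :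
    td (fun s x => u s x i) t x + av (u t) (fun y => u t y i) x
      = lap (fun y => u t y i) x + -pd i (p t) x := by
  have := h.rs.sol.momentum t ht x i
  unfold td av lap
  rw [one_mul] at this
  linarith

lemma tu (h : RP T u p) (hs : 0 < s) (ht : t < T) (i : Fin 3) :
    B2 (Icc s t) (td fun τ x => u τ x i) := by
  have A := h.rs.af hs ht
  have hp := (((h.hp s t hs ht).2 i).base.2).cmul (-1)
  exact td_b2 (fun j => (A.hi j).bd) (h.rs.ct hs ht (jt_u h.rs.sol i))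
    (fun j => ((A.hi i).pd j).b2) (A.hi i).lap.b2 hp fun τ hτ x => by
      rw [h.eqm (h.rs.mem hs ht hτ)]
      ring

lemma iu (h : RP T u p) (hs : 0 < s) (hst : s ≤ t) (ht : t < T) (i : Fin 3) :
    IntervalIntegrable (fun τ => 2 * ∫ x, u τ x i * td (fun τ x => u τ x i) τ x) volume s t ∧
    ∫ x, u t x i ^ 2 = (∫ x, u s x i ^ 2)
      + ∫ τ in s..t, 2 * ∫ x, u τ x i * td (fun τ x => u τ x i) τ x :=
  en_id (jt_u h.rs.sol i) hs hst ht ((h.rs.af hs ht).hi i).b2 (h.tu hs ht i)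

lemma bu (h : RP T u p) (ht : t ∈ Ioo 0 T) :
    ∑ i, ∫ x, u t x i * td (fun τ x => u τ x i) t x = -∫ x, gsq (u t) x := by
  have A := h.rs.af1 ht
  have m : t ∈ Icc t t := ⟨le_rfl, le_rfl⟩
  obtain ⟨C, hC⟩ := h.rs.ub ht
  have hP := h.hp t t ht.1 ht.2
  obtain ⟨Cp, -, hCp⟩ := hP.base.1
  have mp : M2 (p t) := hP.base.2.m m
  have mpi : ∀ i, M2 (pd i (p t)) := fun i => (hP.2 i).base.2.m m
  have mui : ∀ i, M2 (fun y => u t y i) := fun i => (A.hi i).m m
  have muij : ∀ i j, M2 (pd j fun y => u t y i) := fun i j => ((A.hi i).pd j).m m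
  have h1 : ∀ i, ∫ x, u t x i * td (fun τ x => u τ x i) t x
      = -(∫ x, gq (fun y => u t y i) x) + ∫ x, u t x i * -pd i (p t) x := fun i =>
    bal (A.sm t m) (h.rs.ud ht) hC ((A.hi i).m2g m) ((A.hi i).lap.m m)
      (by
        have := (mpi i).cmul (-1)
        have e : (fun x => -pd i (p t) x) = fun x => -1 * pd i (p t) x := by funext x; ring
        rw [e]
        exact this) (fun x => h.eqm ht i x)
  have h2 : ∀ i, ∫ x, u t x i * -pd i (p t) x = ∫ x, pd i (fun y => u t y i) x * p t x := by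
    intro i
    have sm : ContDiff ℝ ∞ (fun y => u t y i) := (A.hi i).sm t m
    have e : pd i (fun y => u t y i * p t y)
        = fun x => u t x i * pd i (p t) x + pd i (fun y => u t y i) x * p t x := by
      funext x
      rw [pd_mul' sm (h.smp ht)]
    have i1 := (mui i).mul (mpi i)
    have i2 := (muij i i).mul mp
    have hz := int_pd (sm.mul (h.smp ht)) ((mui i).mul mp) i (by rw [e]; exact i1.add i2)
    rw [e, integral_add i1 i2] at hz
    have e3 : ∫ x, u t x i * -pd i (p t) x = -∫ x, u t x i * pd i (p t) x := by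
      rw [← integral_neg]
      congr 1
      funext x
      ring
    rw [e3]
    linarith
  have h3 : ∑ i, ∫ x, pd i (fun y => u t y i) x * p t x = 0 := by
    rw [← integral_finsetSum _ fun i _ => (muij i i).mul mp]
    have : (fun x => ∑ i, pd i (fun y => u t y i) x * p t x) = fun _ => 0 := by
      funext x
      rw [← Finset.sum_mul, h.rs.ud ht x, zero_mul]
    rw [this, integral_zero]
  have h4 : ∫ x, gsq (u t) x = ∑ i, ∫ x, gq (fun y => u t y i) x := by
    rw [← integral_finsetSum _ fun i _ => ((A.hi i).m2g m).int]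
    rfl
  simp only [h1, h2]
  rw [Finset.sum_add_distrib, h3, h4, Finset.sum_neg_distrib, add_zero]

/-- **The energy equality.** -/
theorem energy (h : RP T u p) (hs : 0 < s) (hst : s ≤ t) (ht : t < T) :
    ∫ x, nsq (u t) x = (∫ x, nsq (u s) x) - 2 * ∫ τ in s..t, ∫ x, gsq (u τ) x := by
  have A := h.rs.af hs ht
  have e1 : ∀ τ ∈ Icc s t, ∫ x, nsq (u τ) x = ∑ i, ∫ x, u τ x i ^ 2 := fun τ hτ => by
    unfold nsq
    rw [integral_finsetSum _ fun i _ => ((A.hi i).m hτ).sq]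
  rw [e1 t ⟨hst, le_rfl⟩, e1 s ⟨le_rfl, hst⟩]
  have h1 : ∀ i, ∫ x, u t x i ^ 2 = (∫ x, u s x i ^ 2)
      + ∫ τ in s..t, 2 * ∫ x, u τ x i * td (fun τ x => u τ x i) τ x := fun i =>
    (h.iu hs hst ht i).2
  simp only [h1]
  rw [Finset.sum_add_distrib, ← intervalIntegral.integral_finsetSum fun i _ =>
    (h.iu hs hst ht i).1, sub_eq_add_neg]
  congr 1
  rw [← intervalIntegral.integral_const_mul, ← intervalIntegral.integral_neg]
  refine intervalIntegral.integral_congr fun τ hτ => ?_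
  rw [uIcc_of_le hst] at hτ
  show ∑ i, 2 * ∫ x, u τ x i * td (fun τ x => u τ x i) τ x = -(2 * ∫ x, gsq (u τ) x)
  rw [← Finset.mul_sum, h.bu (h.rs.mem hs ht hτ)]
  ring

end RP

/-! ### translation in time -/

lemma hb_shift (t₀ : ℝ) {S : Set ℝ} : ∀ {n : ℕ} {F : ℝ → V → ℝ}, HB n ((t₀ + ·) '' S) F →
    HB n S fun t => F (t₀ + t)
  | 0, F, h => by
    obtain ⟨⟨C, hC, h1⟩, ⟨C', hC', h2⟩⟩ := h
    exact ⟨⟨C, hC, fun t ht => h1 _ ⟨t, ht, rfl⟩⟩, ⟨C', hC', fun t ht => h2 _ ⟨t, ht, rfl⟩⟩⟩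
  | n + 1, F, h => by
    obtain ⟨⟨⟨C, hC, h1⟩, ⟨C', hC', h2⟩⟩, h3⟩ := h
    exact ⟨⟨⟨C, hC, fun t ht => h1 _ ⟨t, ht, rfl⟩⟩, ⟨C', hC', fun t ht => h2 _ ⟨t, ht, rfl⟩⟩⟩,
      fun j => hb_shift t₀ (h3 j)⟩

lemma image_add_Icc (t₀ a b : ℝ) : (t₀ + ·) '' Icc a b = Icc (t₀ + a) (t₀ + b) :=
  Set.image_const_add_Icc t₀ a b

lemma RS.shift (h : RS T u p) {t₀ : ℝ} (ht₀ : 0 ≤ t₀) :
    RS (T - t₀) (fun t => u (t₀ + t)) (fun t => p (t₀ + t)) where
  sol := Pool.Agent.X96.AX.BSol.shift h.sol ht₀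
  hb := by
    intro a b ha hb i n
    refine hb_shift t₀ (F := fun t x => u t x i) ?_
    rw [image_add_Icc]
    exact h.hb (t₀ + a) (t₀ + b) (by linarith) (by linarith) i n

end Pool.Agent.X96.AT
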