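import Pool.Agent.X96.AT.Reg

/-!
Axisymmetric flows (helper96): inflow up to the critical value with a logarithmic correction.
-/

set_option autoImplicit false

open MeasureTheory Set Metric Filter Topology
open scoped ContDiff ENNReal

namespace Pool.Agent.X96.AT

open H459R3.NS W221.NS Pool.Agent.TH305.AX Pool.Agent.X96.AX
open Pool.Agent.X96.AR hiding sm_sg
open Pool.Agent.TH305.DR hiding gg

variable {ν T : ℝ} {u : ℝ → V → V} {p : ℝ → V → ℝ}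

/-- from the class with a pressure in `H¹` to finite energy -/
lemma frame (h : RP T u p) {a : ℝ} (ha0 : 0 < a) (haT : a < T) : ∃ E : ℝ, 0 ≤ E ∧
    RS (T - a) (fun t => u (a + t)) (fun t => p (a + t)) ∧
    (∀ t ∈ Ioo 0 (T - a), ∫ x, nsq (u (a + t)) x ≤ E ^ 2) ∧
    (∀ s t, 0 < s → s ≤ t → t < T - a → ∫ τ in s..t, ∫ x, gsq (u (a + τ)) x ≤ E ^ 2) ∧
    ((∃ U : ℝ, ∀ t ∈ Ico 0 (T - a), ∀ x, ‖u (a + t) x‖ ≤ U) →
      ∃ U : ℝ, ∀ t ∈ Ico 0 T, ∀ x, ‖u t x‖ ≤ U) := by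
  obtain ⟨E, hE⟩ : ∃ E : ℝ, E = √(∫ x, nsq (u a) x) := ⟨_, rfl⟩
  have hE0 : 0 ≤ E := by rw [hE]; exact Real.sqrt_nonneg _
  have hn0 : ∀ t, 0 ≤ ∫ x, nsq (u t) x := fun t =>
    integral_nonneg fun x => by show (0 : ℝ) ≤ nsq (u t) x; unfold nsq; positivity
  have hE2 : E ^ 2 = ∫ x, nsq (u a) x := by rw [hE, Real.sq_sqrt (hn0 a)]
  have hg0 : ∀ τ, 0 ≤ ∫ x, gsq (u τ) x := fun τ =>
    integral_nonneg fun x => by show (0 : ℝ) ≤ gsq (u τ) x; unfold gsq; positivity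
  have h1 : ∀ s t, a ≤ s → s ≤ t → t < T → ∫ x, nsq (u t) x = (∫ x, nsq (u s) x)
      - 2 * ∫ τ in s..t, ∫ x, gsq (u τ) x := fun s t hs hst ht =>
    h.energy (ha0.trans_le hs) hst ht
  have hen : ∀ t, a ≤ t → t < T → ∫ x, nsq (u t) x ≤ E ^ 2 := by
    intro t hat htT
    have := h1 a t le_rfl hat htT
    have h3 : 0 ≤ ∫ τ in a..t, ∫ x, gsq (u τ) x :=
      intervalIntegral.integral_nonneg hat fun τ _ => hg0 τ
    rw [hE2]
    linarith
  refine ⟨E, hE0, RS.shift h.rs ha0.le,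
    fun t ht => hen (a + t) (by linarith [ht.1]) (by linarith [ht.2]),
    fun s t hs hst ht => ?_, fun ⟨U, hU⟩ => ?_⟩
  · rw [intervalIntegral.integral_comp_add_left (fun τ => ∫ x, gsq (u τ) x) a]
    have h2 := h1 (a + s) (a + t) (by linarith) (by linarith) (by linarith)
    have h3 := hen (a + s) (by linarith) (by linarith)
    have h4 := hn0 (a + t)
    have h5 : 0 ≤ ∫ τ in (a + s)..(a + t), ∫ x, gsq (u τ) x :=
      intervalIntegral.integral_nonneg (by linarith) fun τ _ => hg0 τ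
    linarith
  · obtain ⟨U', hU'⟩ := h.rs.sol.bdd a haT
    refine ⟨max U U', fun t ht x => ?_⟩
    rcases le_total t a with hta | hta
    · exact (hU' t ⟨ht.1, hta⟩ x).trans (le_max_right _ _)
    · have h2 := hU (t - a) ⟨by linarith, by linarith [ht.2]⟩ x
      have e : a + (t - a) = t := by ring
      rw [e] at h2
      exact h2.trans (le_max_left _ _)

/-! ### the barrier -/

/-- `(log (L / ρ)) ^ (-α)` as a function of `σ = ρ²` -/
noncomputable def lb (L α σ : ℝ) : ℝ := (Real.log L - Real.log σ / 2) ^ (-α)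

section
variable {L α σ : ℝ}

lemma lb_hd (hσ : 0 < σ) (hl : 0 < Real.log L - Real.log σ / 2) :
    HasDerivAt (lb L α) (α * (Real.log L - Real.log σ / 2) ^ (-α - 1) / (2 * σ)) σ := by
  have h1 : HasDerivAt (fun s : ℝ => Real.log L - Real.log s / 2) (-(σ⁻¹ / 2)) σ :=
    ((Real.hasDerivAt_log hσ.ne').div_const 2).const_sub _
  refine (h1.rpow_const (p := -α) (Or.inl hl.ne')).congr_deriv ?_
  field_simp

lemma lb_hd2 (hσ : 0 < σ) (hl : 0 < Real.log L - Real.log σ / 2) :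
    HasDerivAt (fun s : ℝ => α * (Real.log L - Real.log s / 2) ^ (-α - 1) / (2 * s))
      (α * (α + 1) * (Real.log L - Real.log σ / 2) ^ (-α - 2) / (4 * σ ^ 2)
        - α * (Real.log L - Real.log σ / 2) ^ (-α - 1) / (2 * σ ^ 2)) σ := by
  have h1 : HasDerivAt (fun s : ℝ => Real.log L - Real.log s / 2) (-(σ⁻¹ / 2)) σ :=
    ((Real.hasDerivAt_log hσ.ne').div_const 2).const_sub _
  have h2 := ((h1.rpow_const (p := -α - 1) (Or.inl hl.ne')).const_mul α).fun_div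
    ((hasDerivAt_id' σ).const_mul 2) (by positivity)
  refine h2.congr_deriv ?_
  have e : -α - 1 - 1 = -α - 2 := by ring
  rw [e]
  field_simp
  ring

/-- the differential inequality -/
lemma lb_ineq {a β w C : ℝ} (hσ : 0 < σ) (hl : 0 < Real.log L - Real.log σ / 2) (hα : 0 < α)
    (hαa : α < a - 1) (hβ : 0 ≤ β) (hC : α ≤ 4 * (a - 1 - α) * C)
    (hw : -2 + a / (Real.log L - Real.log σ / 2) - β * √σ ≤ w) :
    4 * σ * (α * (α + 1) * (Real.log L - Real.log σ / 2) ^ (-α - 2) / (4 * σ ^ 2)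
        - α * (Real.log L - Real.log σ / 2) ^ (-α - 1) / (2 * σ ^ 2))
      - 2 * w * (α * (Real.log L - Real.log σ / 2) ^ (-α - 1) / (2 * σ))
      ≤ C * β ^ 2 * lb L α σ := by
  obtain ⟨ℓ, hℓ⟩ : ∃ ℓ : ℝ, ℓ = Real.log L - Real.log σ / 2 := ⟨_, rfl⟩
  unfold lb
  rw [← hℓ] at hl hw ⊢
  obtain ⟨Z, hZ⟩ : ∃ Z : ℝ, Z = ℓ ^ (-α - 2) := ⟨_, rfl⟩
  have hZ0 : 0 < Z := by rw [hZ]; exact Real.rpow_pos_of_pos hl _
  have e1 : ℓ ^ (-α - 1) = Z * ℓ := by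
    rw [hZ, ← Real.rpow_add_one hl.ne']
    congr 1
    ring
  have e2 : ℓ ^ (-α) = Z * ℓ ^ 2 := by
    rw [hZ, ← Real.rpow_two, ← Real.rpow_add hl]
    congr 1
    ring
  rw [← hZ, e1, e2]
  obtain ⟨ρ, hρ⟩ : ∃ ρ : ℝ, ρ = √σ := ⟨_, rfl⟩
  have hρ0 : 0 < ρ := by rw [hρ]; exact Real.sqrt_pos.2 hσ
  have hσρ : σ = ρ ^ 2 := by rw [hρ, Real.sq_sqrt hσ.le]
  rw [← hρ] at hw
  have h1 : 4 * σ * (α * (α + 1) * Z / (4 * σ ^ 2) - α * (Z * ℓ) / (2 * σ ^ 2))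
      - 2 * w * (α * (Z * ℓ) / (2 * σ))
      = α * Z / σ * ((α + 1) - 2 * ℓ - w * ℓ) := by
    field_simp
    ring
  rw [h1]
  have h2 : (α + 1) - 2 * ℓ - w * ℓ ≤ -(a - 1 - α) + β * ρ * ℓ := by
    have h3 := mul_le_mul_of_nonneg_right hw hl.le
    have h4 : (-2 + a / ℓ - β * ρ) * ℓ = -2 * ℓ + a - β * ρ * ℓ := by
      field_simp
    rw [h4] at h3
    linarith
  have h5 : 0 < α * Z / σ := by positivity
  have h6 : α * Z / σ * (-(a - 1 - α) + β * ρ * ℓ) ≤ C * β ^ 2 * (Z * ℓ ^ 2) := by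
    rw [div_mul_eq_mul_div, div_le_iff₀ hσ, hσρ]
    have hg : 0 < a - 1 - α := by linarith
    have h7 : α * (β * ρ * ℓ) ≤ α * (a - 1 - α) + C * (β * ρ * ℓ) ^ 2 := by
      obtain ⟨y, hy⟩ : ∃ y : ℝ, y = β * ρ * ℓ := ⟨_, rfl⟩
      rw [← hy]
      have h8 : 0 ≤ (α * y - 2 * α * (a - 1 - α)) ^ 2 := sq_nonneg _
      have h9 := mul_le_mul_of_nonneg_right hC (show 0 ≤ α * y ^ 2 by positivity)
      have h10 : 0 < 4 * α * (a - 1 - α) := by positivity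
      have h11 : 4 * α * (a - 1 - α) * (α * y)
          ≤ 4 * α * (a - 1 - α) * (α * (a - 1 - α) + C * y ^ 2) := by nlinarith
      exact le_of_mul_le_mul_left h11 h10
    have h12 := mul_le_mul_of_nonneg_left h7 hZ0.le
    have e3 : C * β ^ 2 * (Z * ℓ ^ 2) * ρ ^ 2 = Z * (C * (β * ρ * ℓ) ^ 2) := by ring
    rw [e3]
    linarith
  calc α * Z / σ * ((α + 1) - 2 * ℓ - w * ℓ)
      ≤ α * Z / σ * (-(a - 1 - α) + β * ρ * ℓ) := mul_le_mul_of_nonneg_left h2 h5.le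
    _ ≤ _ := h6

end

end Pool.Agent.X96.AT
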