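import Pool.Agent.X96.AT.Fel

/-!
Axisymmetric flows (helper96): inflow up to the critical value with a logarithmic correction.
-/

set_option autoImplicit false

open MeasureTheory Set Metric Filter Topology
open scoped ContDiff ENNReal

namespace Pool.Agent.X96.AT

open H459R3.NS W221.NS Pool.Agent.TH305.AX Pool.Agent.X96.AX
open Pool.Agent.X96.AR hiding sm_sg
open Pool.Agent.TH305.DR hiding gg

variable {ν T : ℝ} {u : ℝ → V → V} {p : ℝ → V → ℝ}

/-- the barrier with the value `0` at the axis -/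
noncomputable def lb0 (L α σ : ℝ) : ℝ := if σ ≤ 0 then 0 else lb L α σ

lemma lb0_pos {L α σ : ℝ} (h : 0 < σ) : lb0 L α σ = lb L α σ := if_neg (not_le.2 h)

lemma ell_pos {L r σ : ℝ} (hr : 0 < r) (hrL : r < L) (h : 0 < σ) (hσ : σ ≤ r ^ 2) :
    0 < Real.log L - Real.log σ / 2 := by
  have h1 : Real.log σ ≤ Real.log (r ^ 2) := Real.log_le_log h hσ
  rw [Real.log_pow] at h1
  have h2 := Real.log_lt_log hr hrL
  push_cast at h1
  linarith

lemma lb_cd {L α σ : ℝ} (h : 0 < σ) (hl : 0 < Real.log L - Real.log σ / 2) :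
    ContDiffAt ℝ 2 (lb L α) σ := by
  unfold lb
  refine ContDiffAt.rpow_const_of_ne ?_ hl.ne'
  exact contDiffAt_const.sub ((Real.contDiffAt_log.2 h.ne').div_const 2)

lemma lb0_cont {L α r : ℝ} (hα : 0 < α) (hr : 0 < r) (hrL : r < L) :
    ContinuousOn (lb0 L α) (Icc 0 (r ^ 2)) := by
  intro σ hσ
  rcases eq_or_lt_of_le hσ.1 with h | h
  · rw [← h]
    have h0 : lb0 L α 0 = 0 := if_pos le_rfl
    show Tendsto (lb0 L α) (𝓝[Icc 0 (r ^ 2)] 0) (𝓝 (lb0 L α 0))
    rw [h0]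
    have h1 : Tendsto (fun s : ℝ => Real.log L - Real.log s / 2) (𝓝[>] 0) atTop := by
      have h2 := Real.tendsto_log_nhdsGT_zero
      have h3 : Tendsto (fun s : ℝ => -(Real.log s) / 2 + Real.log L) (𝓝[>] 0) atTop :=
        tendsto_atTop_add_const_right _ _ ((tendsto_neg_atBot_atTop.comp h2).atTop_div_const
          (by norm_num))
      refine h3.congr fun s => ?_
      ring
    have h4 : Tendsto (lb L α) (𝓝[>] 0) (𝓝 0) := (tendsto_rpow_neg_atTop hα).comp h1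
    have h5 : Tendsto (lb0 L α) (𝓝[>] 0) (𝓝 0) := by
      refine h4.congr' ?_
      filter_upwards [self_mem_nhdsWithin] with s hs
      exact (lb0_pos hs).symm
    have h6 : Tendsto (lb0 L α) (𝓝[≥] 0) (𝓝 0) := by
      rw [← Ioi_insert, nhdsWithin_insert, tendsto_sup]
      refine ⟨?_, h5⟩
      rw [tendsto_pure_left]
      intro s hs
      rw [h0]
      exact mem_of_mem_nhds hs
    exact h6.mono_left (nhdsWithin_mono _ Icc_subset_Ici_self)
  · have hl := ell_pos hr hrL h hσ.2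
    have h1 : ContinuousAt (lb L α) σ := (lb_cd h hl).continuousAt
    have h2 : lb L α =ᶠ[𝓝 σ] lb0 L α := by
      filter_upwards [lt_mem_nhds h] with s hs
      exact (lb0_pos hs).symm
    exact (h1.congr h2).continuousWithinAt

lemma sqrt_le_lb {L α r σ : ℝ} (hα : 0 < α) (hr : 0 < r) (hrL : r < L) (h : 0 < σ)
    (hσ : σ ≤ r ^ 2) : √σ ≤ L * α ^ α * lb L α σ := by
  have hl := ell_pos hr hrL h hσ
  have hL : 0 < L := hr.trans hrL
  have hs : 0 < √σ := Real.sqrt_pos.2 h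
  have e : Real.log L - Real.log σ / 2 = Real.log (L / √σ) := by
    rw [Real.log_div hL.ne' hs.ne', Real.log_sqrt h.le]
  unfold lb
  rw [e] at hl ⊢
  have h1 : Real.log (L / √σ) ≤ α * (L / √σ) ^ (1 / α) := by
    have := Real.log_le_rpow_div (x := L / √σ) (by positivity) (show 0 < 1 / α by positivity)
    refine this.trans_eq ?_
    field_simp
  have h2 : Real.log (L / √σ) ^ α ≤ α ^ α * (L / √σ) := by
    calc Real.log (L / √σ) ^ α ≤ (α * (L / √σ) ^ (1 / α)) ^ α :=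
          Real.rpow_le_rpow hl.le h1 hα.le
      _ = _ := by
        rw [Real.mul_rpow hα.le (by positivity), ← Real.rpow_mul (by positivity),
          one_div_mul_cancel hα.ne', Real.rpow_one]
  rw [Real.rpow_neg hl.le, ← div_eq_mul_inv, le_div_iff₀ (Real.rpow_pos_of_pos hl _)]
  calc √σ * Real.log (L / √σ) ^ α ≤ √σ * (α ^ α * (L / √σ)) := by gcongr
    _ = L * α ^ α := by field_simp

lemma lb0_mono {L α r : ℝ} (hα : 0 < α) (hr : 0 < r) (hrL : r < L) :
    MonotoneOn (lb0 L α) (Icc 0 (r ^ 2)) := by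
  intro σ hσ σ' hσ' hle
  rcases eq_or_lt_of_le hσ.1 with h | h
  · rw [← h]
    unfold lb0
    rw [if_pos le_rfl]
    split_ifs with h1
    · exact le_rfl
    · exact (Real.rpow_pos_of_pos (ell_pos hr hrL (not_le.1 h1) hσ'.2) _).le
  · have h' : 0 < σ' := h.trans_le hle
    rw [lb0_pos h, lb0_pos h']
    unfold lb
    have h1 := ell_pos hr hrL h' hσ'.2
    have h2 : Real.log σ ≤ Real.log σ' := Real.log_le_log h hle
    exact Real.rpow_le_rpow_of_nonpos h1 (by linarith) (by linarith)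

/-- the time factor -/
lemma prim2 {T : ℝ} {b : ℝ → ℝ} (hb : ContinuousOn b (Ico 0 T)) {t : ℝ} (ht : t ∈ Ioo 0 T) :
    HasDerivAt (fun τ => ∫ r in (0 : ℝ)..τ, b r) (b t) t := prim_hd hb ht

/-- **Regularity for inflow up to the critical value, finite energy.** -/
theorem regFE (h : RS T u p) {E : ℝ} (hE : 0 ≤ E) (en : ∀ t ∈ Ioo 0 T, ∫ x, nsq (u t) x ≤ E ^ 2)
    (dis : ∀ s t, 0 < s → s ≤ t → t < T → ∫ τ in s..t, ∫ x, gsq (u τ) x ≤ E ^ 2)
    {T₁ a α N L R B : ℝ} {β : ℝ → ℝ} (hT₁ : 0 ≤ T₁) (hT₁T : T₁ < T) (ha : 3 < a) (hα : 2 < α)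
    (hN : 0 ≤ N) (hR : 0 < R) (hRL : R < L) (hβ : ContinuousOn β (Ico T₁ T))
    (hβ0 : ∀ t ∈ Ico T₁ T, 0 ≤ β t) (hβB : ∀ s t, T₁ ≤ s → s ≤ t → t < T → ∫ r in s..t, β r ^ 2 ≤ B)
    (hcond : ∀ t ∈ Ioo T₁ T, ∀ x, 0 < sg x → sg x < R ^ 2 →
      N * Real.log (L / √(sg x)) ^ (-α) < |circ (u t) x| → Tch (u t) x →
      -2 + a / Real.log (L / √(sg x)) - β t * √(sg x) ≤ x 0 * u t x 0 + x 1 * u t x 1) :
    ∃ U : ℝ, ∀ t ∈ Ico 0 T, ∀ x, ‖u t x‖ ≤ U := by
  have hL : 0 < L := hR.trans hRL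
  obtain ⟨t₀, ht₀⟩ : ∃ t₀ : ℝ, t₀ = (T₁ + T) / 2 := ⟨_, rfl⟩
  have ht₀1 : T₁ < t₀ := by linarith
  have ht₀T : t₀ < T := by linarith
  have ht₀0 : 0 < t₀ := by linarith
  obtain ⟨M, hM0, hMb⟩ := circ_cyl h hE ht₀0 ht₀T hR en dis
  -- the exponent
  obtain ⟨α', hα'2, hα'α, hα'a⟩ : ∃ α' : ℝ, 2 < α' ∧ α' < α ∧ α' < a - 1 := by
    refine ⟨(2 + min α (a - 1)) / 2, ?_, ?_, ?_⟩
    · have : 2 < min α (a - 1) := lt_min hα (by linarith)
      linarith
    · have := min_le_left α (a - 1)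
      linarith
    · have := min_le_right α (a - 1)
      linarith
  have hα'0 : 0 < α' := by linarith
  obtain ⟨C, hC⟩ : ∃ C : ℝ, C = α' / (4 * (a - 1 - α')) := ⟨_, rfl⟩
  have hg : 0 < a - 1 - α' := by linarith
  have hC0 : 0 < C := by rw [hC]; positivity
  have hC1 : α' ≤ 4 * (a - 1 - α') * C := by rw [hC]; apply le_of_eq; field_simp
  obtain ⟨r, hr⟩ : ∃ r : ℝ, r = min R (L * Real.exp (-1)) := ⟨_, rfl⟩
  have hr0 : 0 < r := by rw [hr]; exact lt_min hR (by positivity)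
  have hrR : r ≤ R := by rw [hr]; exact min_le_left _ _
  have hrL' : r ≤ L * Real.exp (-1) := by rw [hr]; exact min_le_right _ _
  have hrL : r < L := hrR.trans_lt hRL
  have hrR2 : r ^ 2 ≤ R ^ 2 := by gcongr
  have hlr : ∀ σ : ℝ, 0 < σ → σ ≤ r ^ 2 → 1 ≤ Real.log L - Real.log σ / 2 := by
    intro σ hσ hσr
    have h1 : Real.log σ ≤ Real.log (r ^ 2) := Real.log_le_log hσ hσr
    rw [Real.log_pow] at h1
    have h2 := Real.log_le_log hr0 hrL'
    rw [Real.log_mul hL.ne' (Real.exp_pos _).ne', Real.log_exp] at h2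
    push_cast at h1
    linarith
  have hlog : ∀ σ : ℝ, 0 < σ → Real.log (L / √σ) = Real.log L - Real.log σ / 2 := fun σ hσ => by
    rw [Real.log_div hL.ne' (Real.sqrt_pos.2 hσ).ne', Real.log_sqrt hσ.le]
  have hlbp : ∀ σ : ℝ, 0 < σ → σ ≤ r ^ 2 → 0 < lb L α' σ := fun σ hσ hσr =>
    Real.rpow_pos_of_pos (by linarith [hlr σ hσ hσr]) _
  obtain ⟨U₁, hU₁0, hU₁⟩ := h.sol.u_bdd ht₀T
  have hr2 : 0 < r ^ 2 := by positivity
  have hlbr := hlbp (r ^ 2) hr2 le_rfl
  obtain ⟨K, hK⟩ : ∃ K : ℝ, K = 2 * U₁ * (L * α' ^ α') + M / lb L α' (r ^ 2) + N := ⟨_, rfl⟩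
  have hq1 : 0 ≤ 2 * U₁ * (L * α' ^ α') := by positivity
  have hq2 : 0 ≤ M / lb L α' (r ^ 2) := by positivity
  have hK1 : 2 * U₁ * (L * α' ^ α') ≤ K := by rw [hK]; linarith
  have hK2 : M / lb L α' (r ^ 2) ≤ K := by rw [hK]; linarith
  have hK3 : N ≤ K := by rw [hK]; linarith
  have hK0 : 0 ≤ K := hq1.trans hK1
  -- the time factor
  obtain ⟨b, hb⟩ : ∃ b : ℝ → ℝ, b = fun τ => β (t₀ + τ) ^ 2 := ⟨_, rfl⟩
  have hbc : ContinuousOn b (Ico 0 (T - t₀)) := by
    rw [hb]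
    exact (hβ.comp (f := fun r => t₀ + r) (by fun_prop)
      fun r hr => ⟨by linarith [hr.1], by linarith [hr.2]⟩).pow 2
  have hb0 : ∀ τ, 0 ≤ b τ := fun τ => by rw [hb]; exact sq_nonneg _
  obtain ⟨I, hI⟩ : ∃ I : ℝ → ℝ, I = fun τ => ∫ r in (0 : ℝ)..τ, b r := ⟨_, rfl⟩
  have hId : ∀ τ ∈ Ioo 0 (T - t₀), HasDerivAt I (b τ) τ := fun τ hτ => by
    rw [hI]; exact prim2 hbc hτ
  have hI0 : ∀ τ ∈ Ico 0 (T - t₀), 0 ≤ I τ := fun τ hτ => by
    rw [hI]
    exact intervalIntegral.integral_nonneg hτ.1 fun r _ => hb0 r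
  have hIB : ∀ τ ∈ Ico 0 (T - t₀), I τ ≤ B := by
    intro τ hτ
    rw [hI, hb]
    show ∫ r in (0 : ℝ)..τ, β (t₀ + r) ^ 2 ≤ B
    rw [intervalIntegral.integral_comp_add_left (fun r => β r ^ 2) t₀, add_zero]
    exact hβB t₀ (t₀ + τ) ht₀1.le (by linarith [hτ.1]) (by linarith [hτ.2])
  have hIc : ContinuousOn I (Ico 0 (T - t₀)) := by
    intro τ hτ
    obtain ⟨τ', hτ'1, hτ'2⟩ := exists_between hτ.2
    have h1 := prim_cont hbc (t := τ') ⟨hτ.1.trans hτ'1.le, hτ'2⟩
    rw [hI]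
    refine (h1 τ ⟨hτ.1, hτ'1.le⟩).mono_of_mem_nhdsWithin ?_
    rw [mem_nhdsWithin]
    exact ⟨Iio τ', isOpen_Iio, hτ'1, fun y hy => ⟨hy.2.1, hy.1.le⟩⟩
  have hexp1 : ∀ τ ∈ Ico 0 (T - t₀), 1 ≤ Real.exp (C * I τ) := fun τ hτ =>
    Real.one_le_exp (mul_nonneg hC0.le (hI0 τ hτ))
  have hts := RS.ts h ht₀0
  have key := cmpT one_pos hts (S := r ^ 2)
    (Φ := fun t σ => K * Real.exp (C * I t) * lb0 L α' σ)
    (fun t ht σ hσ => by
      have h1 := hexp1 t ht
      rcases eq_or_lt_of_le hσ.1 with h0 | h0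
      · rw [← h0]
        unfold lb0
        simp
      · rw [lb0_pos h0]
        have := hlbp σ h0 hσ.2
        positivity)
    (by
      have c1 : ContinuousOn (fun z : ℝ × ℝ => K * Real.exp (C * I z.1))
          (Ico 0 (T - t₀) ×ˢ Icc 0 (r ^ 2)) :=
        continuousOn_const.mul ((continuousOn_const.mul
          (hIc.comp continuous_fst.continuousOn fun z hz => hz.1)).rexp)
      exact c1.mul ((lb0_cont hα'0 hr0 hrL).comp continuous_snd.continuousOn fun z hz => hz.2))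
    (fun t ht => by
      intro σ hσ σ' hσ' hle
      have h1 := lb0_mono hα'0 hr0 hrL hσ hσ' hle
      exact mul_le_mul_of_nonneg_left h1 (by positivity))
    (fun t ht x hx => by
      have h1 := hMb (t₀ + t) ⟨by linarith [ht.1], by linarith [ht.2]⟩ x (by rw [hx]; exact hrR2)
      have h2 := hexp1 t ht
      beta_reduce
      rw [lb0_pos hr2]
      rw [div_le_iff₀ hlbr] at hK2
      calc |circ (u (t₀ + t)) x| ≤ M := h1
        _ ≤ K * 1 * lb L α' (r ^ 2) := by rw [mul_one]; exact hK2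
        _ ≤ _ := by gcongr)
    (fun x hx => by
      rcases eq_or_lt_of_le (sg_nonneg x) with h0 | h0
      · rw [circ_axis _ h0.symm, abs_zero, ← h0]
        unfold lb0
        simp
      · beta_reduce
        rw [lb0_pos h0]
        have h1 := hU₁ (t₀ + 0) ⟨by linarith, by linarith⟩ x
        have h2 := hexp1 0 ⟨le_rfl, by linarith⟩
        have h3 := sqrt_le_lb hα'0 hr0 hrL h0 hx
        have h4 := hlbp (sg x) h0 hx
        calc |circ (u (t₀ + 0)) x| ≤ 2 * √(sg x) * ‖u (t₀ + 0) x‖ := circ_le _ _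
          _ ≤ 2 * (L * α' ^ α' * lb L α' (sg x)) * U₁ := by gcongr
          _ = 2 * U₁ * (L * α' ^ α') * 1 * lb L α' (sg x) := by ring
          _ ≤ _ := by gcongr)
    (fun t ht x hx hxS hbig => by
      have htI : t ∈ Ico 0 (T - t₀) := ⟨ht.1.le, ht.2⟩
      have hl := ell_pos hr0 hrL hx hxS.le
      have hl1 := hlr (sg x) hx hxS.le
      have hev : ∀ᶠ s in 𝓝 (sg x), 0 < s ∧ s < r ^ 2 :=
        (lt_mem_nhds hx).and (gt_mem_nhds hxS)
      obtain ⟨k, hk⟩ : ∃ k : ℝ, k = K * Real.exp (C * I t) := ⟨_, rfl⟩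
      have hk0 : 0 < k ∨ k = 0 := by
        have h1 : 0 ≤ k := by rw [hk]; positivity
        rcases eq_or_lt_of_le h1 with h2 | h2
        · exact Or.inr h2.symm
        · exact Or.inl h2
      have hKp : 0 < K := by
        rcases eq_or_lt_of_le hK0 with h0 | h0
        · exfalso
          have hN0 : N ≤ 0 := by rw [h0]; exact hK3
          have hM0' : M ≤ 0 := by
            rw [div_le_iff₀ hlbr, ← h0, zero_mul] at hK2
            exact hK2
          have h5 := hMb (t₀ + t) ⟨by linarith [ht.1], by linarith [ht.2]⟩ x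
            (hxS.le.trans hrR2)
          beta_reduce at hbig
          rw [← h0, zero_mul, zero_mul] at hbig
          linarith
        · exact h0
      have hkp : 0 < k := by rw [hk]; positivity
      refine ⟨fun s => k * lb L α' s,
        fun s => k * (α' * (Real.log L - Real.log s / 2) ^ (-α' - 1) / (2 * s)),
        k * (α' * (α' + 1) * (Real.log L - Real.log (sg x) / 2) ^ (-α' - 2) / (4 * sg x ^ 2)
          - α' * (Real.log L - Real.log (sg x) / 2) ^ (-α' - 1) / (2 * sg x ^ 2)),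
        K * (Real.exp (C * I t) * (C * b t)) * lb L α' (sg x),
        fun τ => K * Real.exp (C * I τ) * lb L α' (sg x), ?_, ?_, ?_⟩
      · refine ⟨contDiffAt_const.mul (lb_cd hx hl), ?_, (lb_hd2 hx hl).const_mul k, ?_, ?_, ?_, ?_,
          ?_⟩
        · filter_upwards [hev] with s hs
          exact (lb_hd hs.1 (ell_pos hr0 hrL hs.1 hs.2.le)).const_mul k
        · filter_upwards [hev] with s hs
          rw [lb0_pos hs.1, hk]
        · beta_reduce
          rw [lb0_pos hx, hk]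
        · refine Eventually.of_forall fun τ => ?_
          beta_reduce
          rw [lb0_pos hx]
        · beta_reduce
          rw [lb0_pos hx]
        · exact ((((hId t ht).const_mul C).exp).const_mul K).mul_const _
      · have h1 : 0 < (Real.log L - Real.log (sg x) / 2) ^ (-α' - 1) :=
          Real.rpow_pos_of_pos hl _
        show 0 < k * (α' * (Real.log L - Real.log (sg x) / 2) ^ (-α' - 1) / (2 * sg x))
        positivity
      · intro hT
        have hthr : N * Real.log (L / √(sg x)) ^ (-α) < |circ (u (t₀ + t)) x| := by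
          refine lt_of_le_of_lt ?_ hbig
          rw [lb0_pos hx, hlog _ hx]
          have h2 := hexp1 t htI
          have h3 : (Real.log L - Real.log (sg x) / 2) ^ (-α) ≤ lb L α' (sg x) :=
            Real.rpow_le_rpow_of_exponent_le hl1 (by linarith)
          have h4 := hlbp (sg x) hx hxS.le
          calc N * (Real.log L - Real.log (sg x) / 2) ^ (-α) ≤ K * 1 * lb L α' (sg x) := by
                rw [mul_one]
                gcongr
            _ ≤ _ := by gcongr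
        have hc := hcond (t₀ + t) ⟨by linarith [ht.1], by linarith [ht.2]⟩ x hx
          (hxS.trans_le hrR2) hthr hT
        rw [hlog _ hx] at hc
        have hin := lb_ineq hx hl hα'0 hα'a
          (hβ0 (t₀ + t) ⟨by linarith [ht.1], by linarith [ht.2]⟩) hC1 hc
        have h5 := mul_le_mul_of_nonneg_left hin hkp.le
        have e1 : K * (Real.exp (C * I t) * (C * b t)) * lb L α' (sg x)
            = k * (C * β (t₀ + t) ^ 2 * lb L α' (sg x)) := by
          rw [hk, hb]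
          ring
        rw [e1]
        refine le_trans (le_of_eq ?_) h5
        ring)
  refine reg_of_log h (t₀ := t₀) (N := K * Real.exp (C * B)) (α := α') (L := L) (R := r) hE ht₀0
    ht₀T hM0 (by positivity) hα'2 hr0 hrL en dis
    (fun t ht x hx => hMb t ht x (hx.trans hrR2)) (fun t ht x hx hxr => ?_)
  have htI : t - t₀ ∈ Ico 0 (T - t₀) := ⟨by linarith [ht.1], by linarith [ht.2]⟩
  have h1 := key (t - t₀) htI x hxr
  have e : t₀ + (t - t₀) = t := by ring
  beta_reduce at h1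
  rw [e, lb0_pos hx] at h1
  refine h1.trans ?_
  rw [hlog _ hx]
  have h2 : Real.exp (C * I (t - t₀)) ≤ Real.exp (C * B) :=
    Real.exp_le_exp.2 (mul_le_mul_of_nonneg_left (hIB _ htI) hC0.le)
  have h3 := hlbp (sg x) hx hxr
  calc K * Real.exp (C * I (t - t₀)) * lb L α' (sg x)
      ≤ K * Real.exp (C * B) * lb L α' (sg x) := by gcongr
    _ = _ := rfl

/-- **Regularity for inflow up to the critical value.** -/
theorem regF (h : RP T u p) {T₁ a α N L R B : ℝ} {β : ℝ → ℝ} (hT₁ : 0 ≤ T₁) (hT₁T : T₁ < T)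
    (ha : 3 < a) (hα : 2 < α)
    (hN : 0 ≤ N) (hR : 0 < R) (hRL : R < L) (hβ : ContinuousOn β (Ico T₁ T))
    (hβ0 : ∀ t ∈ Ico T₁ T, 0 ≤ β t) (hβB : ∀ s t, T₁ ≤ s → s ≤ t → t < T → ∫ r in s..t, β r ^ 2 ≤ B)
    (hcond : ∀ t ∈ Ioo T₁ T, ∀ x, 0 < sg x → sg x < R ^ 2 →
      N * Real.log (L / √(sg x)) ^ (-α) < |circ (u t) x| → Tch (u t) x →
      -2 + a / Real.log (L / √(sg x)) - β t * √(sg x) ≤ x 0 * u t x 0 + x 1 * u t x 1) :
    ∃ U : ℝ, ∀ t ∈ Ico 0 T, ∀ x, ‖u t x‖ ≤ U := by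
  obtain ⟨a₀, ha₀⟩ : ∃ a₀ : ℝ, a₀ = (T₁ + T) / 4 := ⟨_, rfl⟩
  have ha0 : 0 < a₀ := by linarith
  have haT : a₀ < T := by linarith
  obtain ⟨E, hE, hrs, en, dis, hfin⟩ := frame h ha0 haT
  apply hfin
  exact regFE hrs hE en dis (T₁ := a₀) (a := a) (α := α) (N := N) (L := L) (R := R) (B := B)
    (β := fun t => β (a₀ + t)) ha0.le (by linarith) ha hα hN hR hRL
    (hβ.comp (f := fun t => a₀ + t) (by fun_prop) fun t ht =>
      ⟨by linarith [ht.1], by linarith [ht.2]⟩)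
    (fun t ht => hβ0 (a₀ + t) ⟨by linarith [ht.1], by linarith [ht.2]⟩)
    (fun s t hs hst ht => by
      rw [intervalIntegral.integral_comp_add_left (fun τ => β τ ^ 2) a₀]
      exact hβB (a₀ + s) (a₀ + t) (by linarith) (by linarith) (by linarith))
    (fun t ht x hx hx2 hx3 hx4 => hcond (a₀ + t) ⟨by linarith [ht.1], by linarith [ht.2]⟩ x hx hx2
      hx3 hx4)

end Pool.Agent.X96.AT
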