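import Pool.Agent.X96.AT.Step

/-!
Axisymmetric flows (helper96): iteration with variable constants.
-/

set_option autoImplicit false

open MeasureTheory Set Metric Filter Topology
open scoped ContDiff ENNReal

namespace Pool.Agent.X96.AT

open H459R3.NS W221.NS Pool.Agent.TH305.AX Pool.Agent.X96.AX
open Pool.Agent.X96.AR hiding sm_sg
open Pool.Agent.TH305.DR hiding gg

variable {ν T : ℝ} {u : ℝ → V → V} {p : ℝ → V → ℝ}

/-- **Iteration.** -/
theorem iterT {a : ℝ} (ha : 0 < a) (ha2 : a ≤ 1 / 2) (h : TS 1 T u p) {b : ℝ → ℝ}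
    (hb : ContinuousOn b (Ico 0 T)) (hb0 : ∀ t ∈ Ico 0 T, 0 ≤ b t) {P ε C m δ θ : ℕ → ℝ}
    (hP : ∀ k, 0 < P k) (hP2 : ∀ k, P (k + 1) ≤ P k / 2) (hε : ∀ k, 0 < ε k) (hC : ∀ k, 0 ≤ C k)
    (hδ : ∀ k, 0 ≤ δ k) (hδm : ∀ k, δ k ≤ m k)
    (hbC : ∀ k s, 0 ≤ s → s + P (k + 1) < T →
      ∫ r in s..(s + P (k + 1)), b r ≤ C k * P (k + 1) ^ a)
    (hlat : ∀ k, 1 ≤ lo a (8 * a * P (k + 1)) (P k) + ε k)
    (hdec : ∀ k σ, 0 ≤ σ → σ ≤ (1 + C k) ^ (1 / a) * P (k + 1) →
      lo a (2 * a * P (k + 1)) σ + ε k ≤ θ k)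
    (hm : ∀ k, δ k + (m k - δ k) * θ k ≤ m (k + 1))
    {t₁ : ℝ} (ht₁ : t₁ ∈ Ioo 0 T) (h1 : P 1 ≤ t₁)
    (hM : ∀ t ∈ Ico 0 T, ∀ x, sg x ≤ P 0 → |circ (u t) x| ≤ m 0)
    (hcond : ∀ k, ∀ t ∈ Ioo 0 T, ∀ x, 0 < sg x → sg x < P k → δ k < |circ (u t) x| →
      Tch (u t) x →
      -(2 * (1 - a)) - b t / (2 * a) * sg x ^ (1 - a) ≤ x 0 * u t x 0 + x 1 * u t x 1)
    (k : ℕ) :
    ∀ t ∈ Ico (t₁ - P (k + 1)) t₁, ∀ x, sg x ≤ P k → |circ (u t) x| ≤ m k := by
  have hPa : ∀ k, P (k + 1) ≤ P 1 := by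
    intro k
    induction k with
    | zero => exact le_rfl
    | succ k ih => linarith [hP2 (k + 1), hP (k + 1)]
  induction k with
  | zero =>
    intro t ht x hx
    exact hM t ⟨by rw [zero_add] at ht; linarith [ht.1], ht.2.trans ht₁.2⟩ x hx
  | succ k ih =>
    obtain ⟨hk, hhk⟩ : ∃ hk : ℝ, hk = P (k + 1) := ⟨_, rfl⟩
    have hhk0 : 0 < hk := by rw [hhk]; exact hP _
    have hkt : hk ≤ t₁ := by rw [hhk]; exact (hPa k).trans h1
    have hP1 := hP2 (k + 1)
    have hP0 := hP2 k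
    have hC' := hC k
    have hεk := hε k
    have hδk := hδ k
    have hδmk := hδm k
    have hmk := hm k
    have hck := hcond k
    have hlk := hlat k
    have hdk := hdec k
    have hbk := hbC k (t₁ - hk) (by linarith)
    rw [← hhk] at ih hP1 hP0 hlk hdk hbk
    rw [← hhk]
    -- the shifted solution on the window
    have hw := (h.shift (t₀ := t₁ - hk) (by linarith)).restrict (T' := hk) (by linarith [ht₁.2])
    have st := stepT one_pos hhk0 hw (S := P k) (m := m k) (δ := δ k) (ε := ε k) (hP k) hδk hδmk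
      hεk ha ha2
      (b := fun r => b (t₁ - hk + r))
      (hb.comp (by fun_prop) fun r hr => ⟨by linarith [hr.1], by linarith [hr.2, ht₁.2]⟩)
      (fun r hr => hb0 _ ⟨by linarith [hr.1], by linarith [hr.2, ht₁.2]⟩)
      (by rw [one_mul]; exact hlk)
      (fun r hr x hx => ih (t₁ - hk + r) ⟨by linarith [hr.1], by linarith [hr.2]⟩ x hx)
      (fun r hr x hx hx2 hx3 hx4 => by
        rw [mul_one]
        exact hck (t₁ - hk + r) ⟨by linarith [hr.1], by linarith [hr.2, ht₁.2]⟩ x hx hx2 hx3 hx4)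
    intro t ht x hx
    obtain ⟨r, hr⟩ : ∃ r : ℝ, r = t - (t₁ - hk) := ⟨_, rfl⟩
    have hr1 : hk / 2 ≤ r := by rw [hr]; linarith [ht.1]
    have hr2 : r < hk := by rw [hr]; linarith [ht.2]
    have hr0 : 0 < r := by linarith
    have h1 := st r ⟨hr0, hr2⟩ x (by linarith [hP k])
    have e1 : t₁ - hk + r = t := by rw [hr]; ring
    simp only [e1, mul_one] at h1
    obtain ⟨D, hDe⟩ : ∃ D : ℝ, D = ∫ s in (0 : ℝ)..r, b (t₁ - hk + s) := ⟨_, rfl⟩
    rw [← hDe] at h1
    have hsub : ∀ s ∈ Icc (t₁ - hk) t₁, s ∈ Ico 0 T := fun s hs =>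
      ⟨by linarith [hs.1], by linarith [hs.2, ht₁.2]⟩
    have hD : D ≤ C k * hk ^ a := by
      rw [hDe, intervalIntegral.integral_comp_add_left (fun s => b s) (t₁ - hk), add_zero]
      refine le_trans ?_ (hbk (by linarith [ht₁.2]))
      have e2 : t₁ - hk + hk = t₁ := by ring
      rw [e2]
      have hi : IntervalIntegrable b volume (t₁ - hk) t₁ :=
        (hb.mono fun s hs => hsub s hs).intervalIntegrable_of_Icc (by linarith)
      refine intervalIntegral.integral_mono_interval le_rfl (by linarith) (by linarith) ?_ hi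
      refine (ae_restrict_iff' measurableSet_Ioc).2 (Eventually.of_forall fun s hs => ?_)
      exact hb0 s (hsub s ⟨hs.1.le, hs.2⟩)
    have hD0 : 0 ≤ D := by
      rw [hDe]
      exact intervalIntegral.integral_nonneg hr0.le fun s hs => hb0 _
        ⟨by linarith [hs.1], by linarith [hs.2, ht₁.2]⟩
    have hsga : 0 ≤ sg x ^ a := Real.rpow_nonneg (sg_nonneg x) _
    have h4 : lo a (4 * a * r) ((sg x ^ a + D) ^ (1 / a)) + ε k ≤ θ k := by
      have h5 : lo a (4 * a * r) ((sg x ^ a + D) ^ (1 / a))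
          ≤ lo a (2 * a * hk) ((sg x ^ a + D) ^ (1 / a)) := by
        refine lo_mono ha.le (by positivity) ?_ (by positivity) le_rfl
        have h6 : 2 * a * hk ≤ 2 * a * (2 * r) := by
          apply mul_le_mul_of_nonneg_left _ (by positivity)
          linarith
        linarith
      have h6 := hdk ((sg x ^ a + D) ^ (1 / a)) (by positivity) (by
        have h7 : sg x ^ a ≤ hk ^ a := Real.rpow_le_rpow (sg_nonneg x) hx ha.le
        have h8 : sg x ^ a + D ≤ (1 + C k) * hk ^ a := by linarith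
        calc (sg x ^ a + D) ^ (1 / a) ≤ ((1 + C k) * hk ^ a) ^ (1 / a) :=
              Real.rpow_le_rpow (by positivity) h8 (by positivity)
          _ = _ := by
            rw [Real.mul_rpow (by linarith) (by positivity), ← Real.rpow_mul hhk0.le,
              mul_one_div_cancel ha.ne', Real.rpow_one])
      linarith
    have h9 := mul_le_mul_of_nonneg_left h4 (show 0 ≤ m k - δ k by linarith)
    linarith

end Pool.Agent.X96.AT
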