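import Pool.Agent.X96.AT.Seq

/-!
Axisymmetric flows (helper96): logarithmic decay of the circulation at the axis.
-/

set_option autoImplicit false

open MeasureTheory Set Metric Filter Topology
open scoped ContDiff ENNReal

namespace Pool.Agent.X96.AT

open H459R3.NS W221.NS Pool.Agent.TH305.AX Pool.Agent.X96.AX
open Pool.Agent.X96.AR hiding sm_sg
open Pool.Agent.TH305.DR hiding gg

variable {T : ℝ} {u : ℝ → V → V} {p : ℝ → V → ℝ}

/-- the choice of the first index -/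
lemma k0_ex {a e₀ α P₀ : ℝ} (ha : 0 < a) (he : 0 < e₀) : ∃ k₀ : ℝ, 3 ≤ k₀ ∧
    |Real.log P₀| + 2 ≤ k₀ ∧ ∀ n : ℝ, k₀ ≤ n →
      Real.exp (-(n / (8 * a))) ≤ e₀ * n ^ (-(1 / 2) : ℝ) ∧
      α / (n + 1) ≤ e₀ * n ^ (-(1 / 2) : ℝ) / 2 := by
  have h1 := tendsto_rpow_mul_exp_neg_mul_atTop_nhds_zero (1 / 2) (1 / (8 * a)) (by positivity)
  obtain ⟨n₁, hn₁⟩ := eventually_atTop.1 (h1.eventually (gt_mem_nhds he))
  obtain ⟨q, hq⟩ : ∃ q : ℝ, q = 2 * |α| / e₀ := ⟨_, rfl⟩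
  have hq0 : 0 ≤ q := by rw [hq]; positivity
  refine ⟨max (max 3 (|Real.log P₀| + 2)) (max n₁ (q ^ 2)),
    (le_max_left _ _).trans (le_max_left _ _), (le_max_right _ _).trans (le_max_left _ _),
    fun n hn => ?_⟩
  have a1 : 3 ≤ n := ((le_max_left _ _).trans (le_max_left _ _)).trans hn
  have a2 : n₁ ≤ n := ((le_max_left _ _).trans (le_max_right _ _)).trans hn
  have a3 : q ^ 2 ≤ n := ((le_max_right _ _).trans (le_max_right _ _)).trans hn
  have hn0 : 0 < n := by linarith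
  have hs : 0 < n ^ (1 / 2 : ℝ) := Real.rpow_pos_of_pos hn0 _
  rw [Real.rpow_neg hn0.le]
  constructor
  · have h2 := (hn₁ n a2).le
    have e : -(1 / (8 * a)) * n = -(n / (8 * a)) := by ring
    rw [e] at h2
    rw [← div_eq_mul_inv, le_div_iff₀ hs]
    linarith
  · have h3 : q ≤ n ^ (1 / 2 : ℝ) := by
      rw [← Real.sqrt_eq_rpow]
      exact Real.le_sqrt_of_sq_le a3
    have h4 : n ^ (1 / 2 : ℝ) * n ^ (1 / 2 : ℝ) = n := by
      rw [← Real.rpow_add hn0]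
      norm_num
    have h5 : e₀ * (n ^ (1 / 2 : ℝ))⁻¹ / 2 = e₀ / 2 / n ^ (1 / 2 : ℝ) := by field_simp
    rw [h5, div_le_div_iff₀ (by linarith) hs]
    have h6 : |α| ≤ e₀ / 2 * n ^ (1 / 2 : ℝ) := by
      have h7 : e₀ / 2 * q = |α| := by rw [hq]; field_simp
      calc |α| = e₀ / 2 * q := h7.symm
        _ ≤ _ := by gcongr
    have h8 : α ≤ |α| := le_abs_self α
    calc α * n ^ (1 / 2 : ℝ) ≤ e₀ / 2 * n ^ (1 / 2 : ℝ) * n ^ (1 / 2 : ℝ) := by
          gcongr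
          exact h8.trans h6
      _ = e₀ / 2 * n := by rw [mul_assoc, h4]
      _ ≤ e₀ / 2 * (n + 1) := by gcongr; linarith

/-- **Logarithmic decay.** -/
theorem logT {a : ℝ} (ha : 0 < a) (ha2 : a ≤ 1 / 2) (h : TS 1 T u p) {A N M α α' L R τ : ℝ}
    (hA : 0 ≤ A) (hN : 0 ≤ N) (hM0 : 0 ≤ M) (hα' : 1 ≤ α') (hα : α' < α) (hR : 0 < R)
    (hRL : R < L) (hτ : 0 < τ) {b : ℝ → ℝ} (hb : ContinuousOn b (Ico 0 T))
    (hb0 : ∀ t ∈ Ico 0 T, 0 ≤ b t)
    (hbC : ∀ s t, 0 ≤ s → s < t → t < T → ∫ r in s..t, b r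
      ≤ (A + cc a * Real.log (2 + |Real.log (t - s)|) ^ a) * (t - s) ^ a)
    (hM : ∀ t ∈ Ico 0 T, ∀ x, sg x ≤ R ^ 2 → |circ (u t) x| ≤ M)
    (hcond : ∀ t ∈ Ioo 0 T, ∀ x, 0 < sg x → sg x < R ^ 2 →
      N * Real.log (L / √(sg x)) ^ (-α) < |circ (u t) x| → Tch (u t) x →
      -(2 * (1 - a)) - b t / (2 * a) * sg x ^ (1 - a) ≤ x 0 * u t x 0 + x 1 * u t x 1) :
    ∃ Λ : ℝ, 0 ≤ Λ ∧ ∀ t ∈ Ico τ T, ∀ x, 0 < sg x → sg x ≤ R ^ 2 →
      |circ (u t) x| ≤ Λ * Real.log (L / √(sg x)) ^ (-α') := by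
  have hα1 : 1 ≤ α := by linarith
  have hα0 : 0 < α := by linarith
  have hα'0 : 0 < α' := by linarith
  have hL : 0 < L := by linarith
  obtain ⟨P₀, hP₀⟩ : ∃ P₀ : ℝ, P₀ = min (R ^ 2) τ := ⟨_, rfl⟩
  have hPR : P₀ ≤ R ^ 2 := by rw [hP₀]; exact min_le_left _ _
  have hPτ : P₀ ≤ τ := by rw [hP₀]; exact min_le_right _ _
  have hP : 0 < P₀ := by rw [hP₀]; exact lt_min (by positivity) hτ
  -- logarithms of quotients
  have hlogq : ∀ y : ℝ, 0 < y → Real.log (L / √y) = Real.log L - Real.log y / 2 := by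
    intro y hy
    rw [Real.log_div hL.ne' (Real.sqrt_pos.2 hy).ne', Real.log_sqrt hy.le]
  obtain ⟨l₀, hl₀⟩ : ∃ l₀ : ℝ, l₀ = Real.log L - Real.log P₀ / 2 := ⟨_, rfl⟩
  have hl₀0 : 0 < l₀ := by
    rw [hl₀, ← hlogq P₀ hP]
    apply Real.log_pos
    rw [one_lt_div (Real.sqrt_pos.2 hP)]
    exact ((Real.sqrt_le_sqrt hPR).trans_eq (Real.sqrt_sq hR.le)).trans_lt hRL
  obtain ⟨XA, hXA⟩ : ∃ XA : ℝ, XA = 2 ^ (1 / a) * (1 + A) ^ (1 / a) / (2 * a) := ⟨_, rfl⟩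
  obtain ⟨e₀, he₀⟩ : ∃ e₀ : ℝ, e₀ = a / 2 * Real.exp (-XA) := ⟨_, rfl⟩
  have he : 0 < e₀ := by rw [he₀]; positivity
  obtain ⟨k₀, hk3, hkP, hkn⟩ := k0_ex (a := a) (e₀ := e₀) (α := α) (P₀ := P₀) ha he
  have hk0 : 0 < k₀ := by linarith
  obtain ⟨n, hn⟩ : ∃ n : ℕ → ℝ, n = fun k : ℕ => (k : ℝ) + k₀ := ⟨_, rfl⟩
  have hnk : ∀ k : ℕ, n k = (k : ℝ) + k₀ := fun k => by rw [hn]
  have hnk0 : ∀ k, k₀ ≤ n k := fun k => by rw [hnk]; linarith [Nat.cast_nonneg (α := ℝ) k]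
  have hnp : ∀ k, 0 < n k := fun k => hk0.trans_le (hnk0 k)
  have hn1 : ∀ k, 1 ≤ n k := fun k => by linarith [hnk0 k]
  have hns : ∀ k, n (k + 1) = n k + 1 := fun k => by rw [hnk, hnk]; push_cast; ring
  obtain ⟨P, hPe⟩ : ∃ P : ℕ → ℝ, P = PP0 P₀ k₀ := ⟨_, rfl⟩
  have hPp : ∀ k, 0 < P k := fun k => by rw [hPe]; exact PP0_pos hP hk3 k
  have hP0 : P 0 = P₀ := by rw [hPe]; rfl
  have hPs : ∀ k, P k = n k * P (k + 1) := by
    intro k
    have : P (k + 1) = P k / n k := by rw [hPe, hnk]; rfl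
    rw [this]
    have := (hnp k).ne'
    field_simp
  have hPh : ∀ k, P (k + 1) ≤ P k / 2 := fun k => by rw [hPe]; exact PP0_half hP hk3 k
  have hPle : ∀ k, P k ≤ P₀ := by
    intro k
    induction k with
    | zero => rw [hP0]
    | succ k ih => linarith [hPh k, hPp k]
  have hlu : ∀ k, Real.log P₀ - Real.log (P (k + 1)) ≤ n k * Real.log (n k) := fun k => by
    rw [hPe, hnk]; exact log_PP0_le hP hk3 k
  have hll : ∀ k : ℕ, (k : ℝ) ≤ Real.log P₀ - Real.log (P k) := fun k => by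
    rw [hPe]; exact log_PP0_ge hP hk3 k
  -- the iterated logarithm
  have hℓ0 : ∀ y : ℝ, 0 ≤ Real.log (2 + |y|) := fun y =>
    Real.log_nonneg (by linarith [abs_nonneg y])
  have hℓ : ∀ k, Real.log (2 + |Real.log (P (k + 1))|) ≤ 2 * Real.log (n k) := by
    intro k
    have h1 : |Real.log (P (k + 1))| ≤ |Real.log P₀| + n k * Real.log (n k) := by
      have a1 := hlu k
      have a2 : Real.log (P (k + 1)) ≤ Real.log P₀ := Real.log_le_log (hPp _) (hPle _)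
      have a3 := le_abs_self (Real.log P₀)
      have a4 := neg_abs_le (Real.log P₀)
      rw [abs_le]
      constructor <;> linarith
    have h2 : Real.log (n k) ≤ n k - 1 := Real.log_le_sub_one_of_pos (hnp k)
    have h3 : n k * Real.log (n k) ≤ n k * (n k - 1) := mul_le_mul_of_nonneg_left h2 (hnp k).le
    have h4 : 2 + |Real.log (P (k + 1))| ≤ n k ^ 2 := by nlinarith [hnk0 k]
    calc Real.log (2 + |Real.log (P (k + 1))|) ≤ Real.log (n k ^ 2) :=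
          Real.log_le_log (by linarith [abs_nonneg (Real.log (P (k + 1)))]) h4
      _ = _ := by rw [Real.log_pow]; norm_num
  -- thresholds
  obtain ⟨c₁, hc₁⟩ : ∃ c₁ : ℝ, c₁ = min (l₀ / k₀) (1 / 2) := ⟨_, rfl⟩
  have hc₁0 : 0 < c₁ := by rw [hc₁]; exact lt_min (by positivity) (by norm_num)
  have hc₁n : ∀ k, c₁ * n k ≤ Real.log L - Real.log (P k) / 2 := by
    intro k
    have h1 : c₁ * k₀ ≤ l₀ := by
      have : c₁ ≤ l₀ / k₀ := by rw [hc₁]; exact min_le_left _ _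
      rwa [le_div_iff₀ hk0] at this
    have h2 : c₁ * (k : ℝ) ≤ 1 / 2 * (k : ℝ) := by
      have : c₁ ≤ 1 / 2 := by rw [hc₁]; exact min_le_right _ _
      gcongr
    have h3 := hll k
    rw [hnk, mul_add]
    linarith
  obtain ⟨Λ₀, hΛ₀⟩ : ∃ Λ₀ : ℝ, Λ₀ = max (M * k₀ ^ α) (2 * (N * c₁ ^ (-α))) := ⟨_, rfl⟩
  have hΛM : M * k₀ ^ α ≤ Λ₀ := by rw [hΛ₀]; exact le_max_left _ _
  have hΛN : 2 * (N * c₁ ^ (-α)) ≤ Λ₀ := by rw [hΛ₀]; exact le_max_right _ _
  have hΛ0 : 0 ≤ Λ₀ := le_trans (by positivity) hΛM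
  have hδe : ∀ k, N * (c₁ * n k) ^ (-α) = N * c₁ ^ (-α) * n k ^ (-α) := fun k => by
    rw [Real.mul_rpow hc₁0.le (hnp k).le]; ring
  have hδ2 : ∀ k, 2 * (N * (c₁ * n k) ^ (-α)) ≤ Λ₀ * n k ^ (-α) := fun k => by
    rw [hδe, ← mul_assoc]
    have : 0 ≤ n k ^ (-α) := by have := hnp k; positivity
    exact mul_le_mul_of_nonneg_right hΛN this
  have hδ0 : ∀ k, 0 ≤ N * (c₁ * n k) ^ (-α) := fun k => by have := hnp k; positivity
  -- the iteration
  have key : ∀ t₁ ∈ Ico τ T, ∀ k : ℕ, ∀ t ∈ Ico (t₁ - P (k + 1)) t₁, ∀ x, sg x ≤ P k →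
      |circ (u t) x| ≤ Λ₀ * n k ^ (-α) := by
    intro t₁ ht₁ k
    refine iterT ha ha2 h hb hb0 (P := P) (ε := fun k => e₀ * n k ^ (-(1 / 2) : ℝ))
      (C := fun k => A + cc a * Real.log (2 + |Real.log (P (k + 1))|) ^ a)
      (m := fun k => Λ₀ * n k ^ (-α)) (δ := fun k => N * (c₁ * n k) ^ (-α))
      (θ := fun k => 1 - e₀ * n k ^ (-(1 / 2) : ℝ)) hPp hPh ?_ ?_ hδ0 ?_ ?_ ?_ ?_ ?_
      ⟨hτ.trans_le ht₁.1, ht₁.2⟩ ?_ ?_ ?_ k
    · intro k
      have := hnp k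
      positivity
    · intro k
      have h1 := cc_pos ha
      have h2 := hℓ0 (Real.log (P (k + 1)))
      positivity
    · intro k
      linarith [hδ2 k, hδ0 k]
    · intro k s hs hsT
      have h1 := hbC s (s + P (k + 1)) hs (by linarith [hPp (k + 1)]) hsT
      have e : s + P (k + 1) - s = P (k + 1) := by ring
      rw [e] at h1
      exact h1
    · intro k
      have h1 := lo_low ha (by linarith) (hPp (k + 1)) (hnp k).le
      rw [← hPs] at h1
      have h2 := (hkn (n k) (hnk0 k)).1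
      show 1 ≤ lo a (8 * a * P (k + 1)) (P k) + e₀ * n k ^ (-(1 / 2) : ℝ)
      linarith
    · intro k σ hσ hσ2
      show lo a (2 * a * P (k + 1)) σ + e₀ * n k ^ (-(1 / 2) : ℝ) ≤ 1 - e₀ * n k ^ (-(1 / 2) : ℝ)
      have h1 := lo_up ha (by linarith) (hPp (k + 1)) hσ hσ2
      have h2 := X_le ha hA (hℓ0 (Real.log (P (k + 1)))) (hℓ k)
      rw [← hXA] at h2
      have h3 : Real.exp (-(XA + Real.log (n k) / 2)) ≤ Real.exp
          (-((1 + (A + cc a * Real.log (2 + |Real.log (P (k + 1))|) ^ a)) ^ (1 / a) / (2 * a))) :=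
        Real.exp_le_exp.2 (by linarith)
      have h4 : Real.exp (-(XA + Real.log (n k) / 2))
          = Real.exp (-XA) * n k ^ (-(1 / 2) : ℝ) := by
        rw [neg_add, Real.exp_add, Real.rpow_def_of_pos (hnp k)]
        congr 2
        ring
      rw [h4] at h3
      have h5 := mul_le_mul_of_nonneg_left h3 ha.le
      have h6 : a * (Real.exp (-XA) * n k ^ (-(1 / 2) : ℝ)) = 2 * (e₀ * n k ^ (-(1 / 2) : ℝ)) := by
        rw [he₀]; ring
      rw [h6] at h5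
      linarith
    · intro k
      show N * (c₁ * n k) ^ (-α) + (Λ₀ * n k ^ (-α) - N * (c₁ * n k) ^ (-α))
        * (1 - e₀ * n k ^ (-(1 / 2) : ℝ)) ≤ Λ₀ * n (k + 1) ^ (-α)
      obtain ⟨d, hd⟩ : ∃ d : ℝ, d = N * (c₁ * n k) ^ (-α) := ⟨_, rfl⟩
      obtain ⟨m, hm⟩ : ∃ m : ℝ, m = Λ₀ * n k ^ (-α) := ⟨_, rfl⟩
      obtain ⟨e, hee⟩ : ∃ e : ℝ, e = e₀ * n k ^ (-(1 / 2) : ℝ) := ⟨_, rfl⟩
      have h2 := hδ2 k
      have h3 := (hkn (n k) (hnk0 k)).2
      have he0 : 0 ≤ e := by have := hnp k; rw [hee]; positivity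
      rw [← hd, ← hm] at h2
      rw [← hee] at h3
      rw [← hd, ← hm, ← hee]
      have hm0 : 0 ≤ m := by have := hnp k; rw [hm]; positivity
      have h4 : d + (m - d) * (1 - e) ≤ m * (1 - e / 2) := by nlinarith
      refine h4.trans ?_
      have hp1 : 0 < n k + 1 := by linarith [hnp k]
      have h5 : n (k + 1) ^ (-α) = n k ^ (-α) * (n k / (n k + 1)) ^ α := by
        rw [hns, Real.div_rpow (hnp k).le hp1.le, Real.rpow_neg (hnp k).le,
          Real.rpow_neg hp1.le]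
        have : n k ^ α ≠ 0 := (Real.rpow_pos_of_pos (hnp k) _).ne'
        field_simp
      have h6 : 1 - α / (n k + 1) ≤ (n k / (n k + 1)) ^ α := by
        have h7 := one_add_mul_self_le_rpow_one_add (s := -(1 / (n k + 1))) (by
          have : 1 / (n k + 1) ≤ 1 := by
            rw [div_le_one hp1]
            linarith [hnp k]
          linarith) hα1
        have e1 : 1 + -(1 / (n k + 1)) = n k / (n k + 1) := by field_simp; ring
        have e2 : 1 + α * -(1 / (n k + 1)) = 1 - α / (n k + 1) := by ring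
        rwa [e1, e2] at h7
      rw [h5, ← mul_assoc, ← hm]
      exact mul_le_mul_of_nonneg_left (by linarith) hm0
    · show P 1 ≤ t₁
      exact (hPle 1).trans (hPτ.trans ht₁.1)
    · intro t ht x hx
      rw [hP0] at hx
      refine (hM t ht x (hx.trans hPR)).trans ?_
      show M ≤ Λ₀ * n 0 ^ (-α)
      have e : n 0 = k₀ := by rw [hnk]; simp
      rw [e]
      calc M = M * k₀ ^ α * k₀ ^ (-α) := by
            rw [mul_assoc, ← Real.rpow_add hk0]; simp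
        _ ≤ _ := by gcongr
    · intro k t ht x hx hxP hd hT
      refine hcond t ht x hx (hxP.trans_le ((hPle k).trans hPR)) (lt_of_le_of_lt ?_ hd) hT
      apply mul_le_mul_of_nonneg_left _ hN
      apply Real.rpow_le_rpow_of_nonpos (mul_pos hc₁0 (hnp k)) _ (by linarith)
      rw [hlogq _ hx]
      have := Real.log_le_log hx hxP.le
      linarith [hc₁n k]
  -- conclusion
  obtain ⟨η, hη⟩ : ∃ η : ℝ, η = α / α' - 1 := ⟨_, rfl⟩
  have hη0 : 0 < η := by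
    have : 1 < α / α' := by rw [one_lt_div hα'0]; exact hα
    rw [hη]; linarith
  obtain ⟨C₂, hC₂⟩ : ∃ C₂ : ℝ, C₂ = l₀ + 1 / η := ⟨_, rfl⟩
  have hC₂0 : 0 < C₂ := by rw [hC₂]; positivity
  refine ⟨max (Λ₀ * C₂ ^ α') (M * l₀ ^ α'), le_max_of_le_left (by positivity),
    fun t ht x hx hxR => ?_⟩
  have hlx : 0 < Real.log (L / √(sg x)) := by
    apply Real.log_pos
    rw [one_lt_div (Real.sqrt_pos.2 hx)]
    exact ((Real.sqrt_le_sqrt hxR).trans_eq (Real.sqrt_sq hR.le)).trans_lt hRL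
  have hlxp : 0 < Real.log (L / √(sg x)) ^ (-α') := Real.rpow_pos_of_pos hlx _
  rcases le_or_gt (sg x) P₀ with hxP | hxP
  · obtain ⟨k, hk1, hk2⟩ : ∃ k : ℕ, P (k + 1) < sg x ∧ sg x ≤ P k := by
      rw [hPe]; exact PP0_small hP hk3 hx hxP
    have htT : t ∈ Ioo 0 T := ⟨hτ.trans_le ht.1, ht.2⟩
    have h1 := circ_left h.b htT x (B := Λ₀ * n k ^ (-α)) (τ := t - P (k + 1))
      (by linarith [hPp (k + 1)]) (fun s hs => key t ht k s ⟨hs.1.le, hs.2⟩ x hk2)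
    refine h1.trans ?_
    have h2 : Real.log (L / √(sg x)) ≤ C₂ * n k ^ (α / α') := by
      rw [hlogq _ hx]
      have a1 : Real.log (P (k + 1)) ≤ Real.log (sg x) := Real.log_le_log (hPp _) hk1.le
      have a2 := hlu k
      have a3 : Real.log (n k) ≤ n k ^ η / η := Real.log_le_rpow_div (hnp k).le hη0
      have a4 : n k ^ (α / α') = n k * n k ^ η := by
        have : α / α' = 1 + η := by rw [hη]; ring
        rw [this, Real.rpow_add (hnp k), Real.rpow_one]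
      have a5 : 1 ≤ n k * n k ^ η := by
        have := Real.one_le_rpow (hn1 k) hη0.le
        nlinarith [hn1 k]
      have a6 : n k * Real.log (n k) ≤ 1 / η * (n k * n k ^ η) := by
        have := mul_le_mul_of_nonneg_left a3 (hnp k).le
        calc n k * Real.log (n k) ≤ n k * (n k ^ η / η) := this
          _ = _ := by ring
      have a7 : 0 ≤ n k * Real.log (n k) :=
        mul_nonneg (hnp k).le (Real.log_nonneg (hn1 k))
      rw [a4, hC₂]
      have a8 : l₀ ≤ l₀ * (n k * n k ^ η) := le_mul_of_one_le_right hl₀0.le a5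
      rw [add_mul]
      linarith
    have h3 : n k ^ (-α) = (n k ^ (α / α')) ^ (-α') := by
      rw [← Real.rpow_mul (hnp k).le]
      congr 1
      field_simp
    have h4 : n k ^ (-α) ≤ C₂ ^ α' * Real.log (L / √(sg x)) ^ (-α') := by
      rw [h3]
      have h5 : Real.log (L / √(sg x)) / C₂ ≤ n k ^ (α / α') := by
        rw [div_le_iff₀ hC₂0]
        linarith
      refine (Real.rpow_le_rpow_of_nonpos (by positivity) h5 (by linarith)).trans_eq ?_
      rw [Real.div_rpow hlx.le hC₂0.le, Real.rpow_neg hC₂0.le, div_inv_eq_mul, mul_comm]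
    calc Λ₀ * n k ^ (-α) ≤ Λ₀ * (C₂ ^ α' * Real.log (L / √(sg x)) ^ (-α')) := by gcongr
      _ = Λ₀ * C₂ ^ α' * Real.log (L / √(sg x)) ^ (-α') := by ring
      _ ≤ _ := by
        gcongr
        exact le_max_left _ _
  · have h1 := hM t ⟨hτ.le.trans ht.1, ht.2⟩ x hxR
    refine h1.trans ?_
    have h2 : Real.log (L / √(sg x)) ≤ l₀ := by
      rw [hlogq _ hx, hl₀]
      have := Real.log_le_log hP hxP.le
      linarith
    calc M = M * l₀ ^ α' * l₀ ^ (-α') := by rw [mul_assoc, ← Real.rpow_add hl₀0]; simp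
      _ ≤ M * l₀ ^ α' * Real.log (L / √(sg x)) ^ (-α') := by
        have := Real.rpow_le_rpow_of_nonpos hlx h2 (show -α' ≤ 0 by linarith)
        gcongr
      _ ≤ _ := by
        gcongr
        exact le_max_right _ _

end Pool.Agent.X96.AT
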