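import Pool.Agent.X96.AT.Cmp

/-!
Axisymmetric flows (helper96): the moving barrier.
-/

set_option autoImplicit false

open MeasureTheory Set Metric Filter Topology
open scoped ContDiff ENNReal

namespace Pool.Agent.X96.AT

open H459R3.NS W221.NS Pool.Agent.TH305.AX Pool.Agent.X96.AX
open Pool.Agent.X96.AR hiding sm_sg
open Pool.Agent.TH305.DR hiding gg

lemma lo₁_pos {a φ σ : ℝ} (ha : 0 < a) (hφ : 0 < φ) (hσ : 0 < σ) : 0 < lo₁ a φ σ := by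
  have := lo_pos hφ hσ
  unfold lo₁
  positivity

lemma mb_majT {ν η a : ℝ} (hν : 0 < ν) (hη : 0 < η) (ha : 0 < a) (ha2 : a ≤ 1 / 2) {c₀ c₁ : ℝ}
    (hc₁ : 0 < c₁) {t σ : ℝ} (ht : 0 < t) (hσ : 0 < σ) {β : ℝ → ℝ} {b : ℝ} (hβ0 : 0 ≤ β t)
    (hβ : HasDerivAt β b t) :
    ∃ χ χ₁ c₂ d ζ, Maj (mb ν η a β c₀ c₁) t σ χ χ₁ c₂ d ζ ∧ 0 < χ₁ σ ∧
      ∀ w : ℝ, -(2 * (1 - a) * ν) - b / (2 * a) * σ ^ (1 - a) ≤ w →
        4 * ν * σ * c₂ - 2 * w * χ₁ σ ≤ d := by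
  obtain ⟨φ, hφe⟩ : ∃ φ : ℝ, φ = 4 * a * ν * (t + η) := ⟨_, rfl⟩
  have hφ : 0 < φ := by rw [hφe]; positivity
  obtain ⟨B, hB⟩ : ∃ B : ℝ, B = β t := ⟨_, rfl⟩
  have hB0 : 0 ≤ B := by rw [hB]; exact hβ0
  obtain ⟨A, hA⟩ : ∃ A : ℝ, A = σ ^ a := ⟨_, rfl⟩
  have hA0 : 0 < A := by rw [hA]; exact Real.rpow_pos_of_pos hσ _
  obtain ⟨s, hs⟩ : ∃ s : ℝ, s = A + B := ⟨_, rfl⟩
  have hs0 : 0 < s := by rw [hs]; linarith
  obtain ⟨y, hy⟩ : ∃ y : ℝ, y = s ^ (1 / a) := ⟨_, rfl⟩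
  have hy0 : 0 < y := by rw [hy]; exact Real.rpow_pos_of_pos hs0 _
  obtain ⟨Y, hYe⟩ : ∃ Y : ℝ → ℝ, Y = fun r => (r ^ a + B) ^ (1 / a) := ⟨_, rfl⟩
  have hYσ : Y σ = y := by rw [hYe, hy, hs, hA]
  have hYpos : ∀ r, 0 < r → 0 < Y r := by
    intro r hr
    rw [hYe]
    have h1 : 0 < r ^ a := Real.rpow_pos_of_pos hr _
    exact Real.rpow_pos_of_pos (by linarith) _
  have hYd : ∀ r, 0 < r → HasDerivAt Y (Y r / (r ^ a + B) * (r ^ a / r)) r := by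
    intro r hr
    have := Y_hd ha hr hB0
    rw [hYe]
    exact this
  have hYd2 : HasDerivAt (fun r => Y r / (r ^ a + B) * (r ^ a / r))
      ((1 - a) * (y / s ^ 2 * (A / σ) ^ 2 - y / s * (A / σ ^ 2))) σ := by
    have := Y_hd2 ha hσ hB0
    rw [← hA, ← hs, ← hy] at this
    rw [hYe]
    exact this
  have hL1 := lo₁_pos ha hφ hy0
  obtain ⟨l₁, hl₁⟩ : ∃ l₁ : ℝ, l₁ = lo₁ a φ y := ⟨_, rfl⟩
  obtain ⟨l₂, hl₂⟩ : ∃ l₂ : ℝ, l₂ = lo₂ a φ y := ⟨_, rfl⟩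
  rw [← hl₁] at hL1
  have hineq := lo_ineq (a := a) (φ := φ) (σ := y) ha (by linarith) hφ hy0
    (ν := ν) (B := 0) (f' := 4 * a * ν) (q := -(2 * (1 - a) * ν)) hν (by linarith) (by linarith)
  rw [← hl₁, ← hl₂] at hineq
  have hwt := Y_weight (a := a) (A := A) (B := B) (Y := y) ha ha2 hσ hA hB0 (by rw [hy, hs])
  rw [← hs] at hwt
  refine ⟨fun r => c₀ + c₁ * lo a φ (Y r),
    fun r => c₁ * (lo₁ a φ (Y r) * (Y r / (r ^ a + B) * (r ^ a / r))),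
    c₁ * (l₂ * (y / s * (A / σ)) * (y / s * (A / σ))
      + l₁ * ((1 - a) * (y / s ^ 2 * (A / σ) ^ 2 - y / s * (A / σ ^ 2)))),
    c₁ * (l₁ * (1 / a * (y / s) * b) - l₁ * (y / φ) * (4 * a * ν)),
    fun τ => mb ν η a β c₀ c₁ τ σ, ?_, ?_, ?_⟩
  · have hYs : ContDiffAt ℝ 2 Y σ := by
      rw [hYe]
      refine ContDiffAt.rpow_const_of_ne ?_ ?_
      · exact (contDiffAt_id.rpow_const_of_ne hσ.ne').add contDiffAt_const
      · show σ ^ a + B ≠ 0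
        rw [← hA, ← hs]
        exact hs0.ne'
    refine ⟨?_, ?_, ?_, ?_, ?_, ?_, ?_, ?_⟩
    · exact contDiffAt_const.add (contDiffAt_const.mul
        ((lo_contDiffAt hφ (hYpos σ hσ) _).comp σ hYs))
    · filter_upwards [lt_mem_nhds hσ] with r hr
      have h1 := (lo_hd (a := a) hφ (hYpos r hr)).comp r (hYd r hr)
      exact (h1.const_mul c₁).const_add c₀
    · have h1 := (lo_hd2 (a := a) hφ (hYpos σ hσ)).comp σ (hYd σ hσ)
      have h2 := (h1.mul hYd2).const_mul c₁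
      refine h2.congr_deriv ?_
      rw [hYσ, ← hl₂]
      show c₁ * (l₂ * (y / (σ ^ a + B) * (σ ^ a / σ)) * (y / (σ ^ a + B) * (σ ^ a / σ))
        + lo₁ a φ (Y σ) * _) = _
      rw [hYσ, ← hl₁, ← hA, ← hs]
    · refine Filter.Eventually.of_forall fun r => ?_
      unfold mb
      rw [hYe, hφe, hB]
    · unfold mb
      rw [hYe, hφe, hB]
    · exact Filter.Eventually.of_forall fun r => le_rfl
    · rfl
    · have hf : HasDerivAt (fun τ : ℝ => 4 * a * ν * (τ + η)) (4 * a * ν) t := by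
        simpa using ((hasDerivAt_id t).add_const η).const_mul (4 * a * ν)
      have hst : σ ^ a + β t = s := by rw [hs, hA, hB]
      have hYt : HasDerivAt (fun τ => (σ ^ a + β τ) ^ (1 / a)) (1 / a * (y / s) * b) t := by
        refine ((hβ.const_add (σ ^ a)).rpow_const (p := 1 / a)
          (Or.inl (by rw [hst]; exact hs0.ne'))).congr_deriv ?_
        rw [hst, Real.rpow_sub_one hs0.ne', ← hy]
        ring
      have h1 := lo_two_td (a := a) hf (by show 0 < 4 * a * ν * (t + η); positivity) hYt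
        (by show 0 < (σ ^ a + β t) ^ (1 / a); rw [hst, ← hy]; exact hy0)
      have h2 := (h1.const_mul c₁).const_add c₀
      refine h2.congr_deriv ?_
      show c₁ * (lo₁ a (4 * a * ν * (t + η)) ((σ ^ a + β t) ^ (1 / a)) * (1 / a * (y / s) * b)
        - lo₁ a (4 * a * ν * (t + η)) ((σ ^ a + β t) ^ (1 / a))
          * ((σ ^ a + β t) ^ (1 / a) / (4 * a * ν * (t + η))) * (4 * a * ν)) = _
      rw [hst, ← hy, ← hφe, ← hl₁]
  · show 0 < c₁ * (lo₁ a φ (Y σ) * (Y σ / (σ ^ a + B) * (σ ^ a / σ)))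
    rw [hYσ, ← hl₁, ← hA, ← hs]
    positivity
  · intro w hw
    show 4 * ν * σ * (c₁ * (l₂ * (y / s * (A / σ)) * (y / s * (A / σ))
        + l₁ * ((1 - a) * (y / s ^ 2 * (A / σ) ^ 2 - y / s * (A / σ ^ 2)))))
      - 2 * w * (c₁ * (lo₁ a φ (Y σ) * (Y σ / (σ ^ a + B) * (σ ^ a / σ))))
      ≤ c₁ * (l₁ * (1 / a * (y / s) * b) - l₁ * (y / φ) * (4 * a * ν))
    rw [hYσ, ← hl₁, ← hA, ← hs]
    have hσA : σ ^ (1 - a) = σ / A := by rw [Real.rpow_sub hσ, Real.rpow_one, ← hA]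
    rw [hσA] at hw
    have h3 : 0 ≤ l₁ * (2 * (y / s * (A / σ))) := by positivity
    have h4 := mul_le_mul_of_nonneg_left hw h3
    have e3 : l₁ * (2 * (y / s * (A / σ))) * (-(2 * (1 - a) * ν) - b / (2 * a) * (σ / A))
        = -(4 * (1 - a) * ν * (l₁ * (y / s * (A / σ)))) - l₁ * (1 / a * (y / s) * b) := by
      field_simp
      ring
    rw [e3] at h4
    have e1 : 4 * ν * σ * (c₁ * (l₂ * (y / s * (A / σ)) * (y / s * (A / σ))
        + l₁ * ((1 - a) * (y / s ^ 2 * (A / σ) ^ 2 - y / s * (A / σ ^ 2)))))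
        = c₁ * (A ^ 2 / σ * (y / s ^ 2) * (4 * ν * y * l₂ + 4 * (1 - a) * ν * l₁)
          - 4 * (1 - a) * ν * (l₁ * (y / s * (A / σ)))) := by
      field_simp
      ring
    have e2 : 2 * w * (c₁ * (l₁ * (y / s * (A / σ))))
        = c₁ * (l₁ * (2 * (y / s * (A / σ))) * w) := by ring
    rw [e1, e2, ← mul_sub]
    apply mul_le_mul_of_nonneg_left _ hc₁.le
    obtain ⟨X, hX⟩ : ∃ X : ℝ, X = 4 * ν * y * l₂ + 4 * (1 - a) * ν * l₁ := ⟨_, rfl⟩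
    have hX1 : X ≤ -(l₁ * (y / φ) * (4 * a * ν)) := by rw [hX]; linarith
    have hX0 : X ≤ 0 := by
      have : 0 ≤ l₁ * (y / φ) * (4 * a * ν) := by positivity
      linarith
    rw [← hX]
    have h5 : A ^ 2 / σ * (y / s ^ 2) * X ≤ 1 * X := mul_le_mul_of_nonpos_right hwt hX0
    linarith

end Pool.Agent.X96.AT
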