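import Pool.Agent.X96.AT.Ener

/-!
Axisymmetric flows (helper96): the velocity is bounded away from the axis.
-/

set_option autoImplicit false

open MeasureTheory Set Metric Filter Topology
open scoped ContDiff ENNReal

namespace Pool.Agent.X96.AT

open H459R3.NS W221.NS Pool.Agent.TH305.AX Pool.Agent.X96.AX
open Pool.Agent.X96.AR hiding sm_sg
open Pool.Agent.TH305.DR hiding gg
open Pool.Agent.W583.MD (sm_pd pd_mul')

variable {T : ℝ} {u : ℝ → V → V} {p : ℝ → V → ℝ} {s t : ℝ}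

lemma ang {c s : ℝ} (h : c ^ 2 + s ^ 2 = 1) : ∃ θ : ℝ, Real.cos θ = c ∧ Real.sin θ = s := by
  have hn : ‖(⟨c, s⟩ : ℂ)‖ = 1 := by
    rw [Complex.norm_def, Complex.normSq_mk, ← pow_two, ← pow_two, h, Real.sqrt_one]
  have h0 : (⟨c, s⟩ : ℂ) ≠ 0 := by
    intro h1
    rw [h1, norm_zero] at hn
    norm_num at hn
  exact ⟨Complex.arg ⟨c, s⟩, by rw [Complex.cos_arg h0, hn, div_one],
    by rw [Complex.sin_arg, hn, div_one]⟩

/-- the points of a circle -/
lemma orb {x : V} (hx : 0 < sg x) {w : ℝ} (hw : w ^ 2 ≤ sg x) : ∃ θ : ℝ,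
    rot θ x = ![√(sg x - w ^ 2), w, x 2] := by
  obtain ⟨y, hy⟩ : ∃ y : ℝ, y = √(sg x - w ^ 2) := ⟨_, rfl⟩
  have hy2 : y ^ 2 = sg x - w ^ 2 := by rw [hy, Real.sq_sqrt (by linarith)]
  have hσ : sg x = x 0 ^ 2 + x 1 ^ 2 := rfl
  obtain ⟨θ, h1, h2⟩ := ang (c := (x 0 * y + x 1 * w) / sg x) (s := (x 0 * w - x 1 * y) / sg x) (by
    rw [div_pow, div_pow, ← add_div, div_eq_one_iff_eq (by positivity)]
    linear_combination (x 0 ^ 2 + x 1 ^ 2) * hy2 - sg x * hσ)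
  refine ⟨θ, ?_⟩
  rw [← hy]
  unfold rot
  rw [h1, h2]
  have e0 : (x 0 * y + x 1 * w) / sg x * x 0 - (x 0 * w - x 1 * y) / sg x * x 1 = y := by
    field_simp
    rw [hσ]
    ring
  have e1 : (x 0 * w - x 1 * y) / sg x * x 0 + (x 0 * y + x 1 * w) / sg x * x 1 = w := by
    field_simp
    rw [hσ]
    ring
  rw [e0, e1]

lemma nsq_rot {v : V → V} (hv : Axi v) (θ : ℝ) (x : V) : nsq v (rot θ x) = nsq v x := by
  unfold nsq
  rw [hv θ x]
  simp only [Fin.sum_univ_three]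
  have e0 : rot θ (v x) 0 = Real.cos θ * v x 0 - Real.sin θ * v x 1 := rfl
  have e1 : rot θ (v x) 1 = Real.sin θ * v x 0 + Real.cos θ * v x 1 := rfl
  have e2 : rot θ (v x) 2 = v x 2 := rfl
  rw [e0, e1, e2]
  have := Real.sin_sq_add_cos_sq θ
  linear_combination (v x 0 ^ 2 + v x 1 ^ 2) * this

lemma norm_le_nsq {v : V → V} {x : V} {m : ℝ} (hm : 0 ≤ m) (h : nsq v x ≤ m ^ 2) : ‖v x‖ ≤ m := by
  rw [pi_norm_le_iff_of_nonneg hm]
  intro i
  rw [Real.norm_eq_abs]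
  apply abs_le_of_sq_le_sq _ hm
  refine le_trans ?_ h
  unfold nsq
  exact Finset.single_le_sum (f := fun i => v x i ^ 2) (fun i _ => sq_nonneg _)
    (Finset.mem_univ i)

/-- a local bound from the gradient and the energy -/
lemma loc_le {f : V → ℝ} (hf : ContDiff ℝ ∞ f) {y : V} {ρ D E : ℝ} (hρ : 0 < ρ) (hD : 0 ≤ D)
    (hg : ∀ j, ∀ x ∈ ball y ρ, |pd j f x| ≤ D) (hi : Integrable fun x => f x ^ 2)
    (hE : ∫ x, f x ^ 2 ≤ E) {x : V} (hx : x ∈ ball y ρ) :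
    |f x| ≤ √((E + 1) / (2 * ρ) ^ 3) + 6 * D * ρ := by
  by_contra hcon
  push Not at hcon
  have hE0 : 0 ≤ E := (integral_nonneg fun x => sq_nonneg _).trans hE
  obtain ⟨m, hm⟩ : ∃ m : ℝ, m = √((E + 1) / (2 * ρ) ^ 3) := ⟨_, rfl⟩
  have hm0 : 0 ≤ m := by rw [hm]; positivity
  have hm2 : m ^ 2 = (E + 1) / (2 * ρ) ^ 3 := by rw [hm, Real.sq_sqrt (by positivity)]
  rw [← hm] at hcon
  have hlip : ∀ z ∈ ball y ρ, m ≤ |f z| := by
    intro z hz
    have h1 : ‖f z - f x‖ ≤ 3 * D * ‖z - x‖ := by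
      refine Convex.norm_image_sub_le_of_norm_fderiv_le (𝕜 := ℝ) (s := ball y ρ)
        (fun z _ => (hf.differentiable (by norm_cast)) z) (fun z hz => ?_) (convex_ball y ρ)
        hx hz
      refine (Pool.Agent.W440.MD.fderiv_norm_le z).trans ?_
      rw [Fin.sum_univ_three]
      linarith [hg 0 z hz, hg 1 z hz, hg 2 z hz]
    have h2 : ‖z - x‖ ≤ 2 * ρ := by
      rw [mem_ball, dist_eq_norm] at hx hz
      calc ‖z - x‖ = ‖(z - y) - (x - y)‖ := by congr 1; abel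
        _ ≤ ‖z - y‖ + ‖x - y‖ := norm_sub_le _ _
        _ ≤ 2 * ρ := by linarith
    have h3 : 3 * D * ‖z - x‖ ≤ 6 * D * ρ := by
      calc 3 * D * ‖z - x‖ ≤ 3 * D * (2 * ρ) := by gcongr
        _ = _ := by ring
    have h4 : |f x| ≤ |f z| + |f z - f x| := by
      have : f x = f z - (f z - f x) := by ring
      calc |f x| = |f z - (f z - f x)| := by rw [← this]
        _ ≤ _ := abs_sub _ _
    rw [Real.norm_eq_abs] at h1
    linarith
  have h4 : ∫ z in ball y ρ, m ^ 2 ≤ E := by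
    refine le_trans ?_ hE
    refine le_trans ?_ (setIntegral_le_integral (s := ball y ρ) hi
      (Eventually.of_forall fun x => sq_nonneg _))
    refine setIntegral_mono_on (integrableOn_const measure_ball_lt_top.ne) hi.integrableOn
      measurableSet_ball fun z hz => ?_
    rw [← sq_abs (f z)]
    exact pow_le_pow_left₀ hm0 (hlip z hz) 2
  rw [setIntegral_const, smul_eq_mul, Measure.real, Real.volume_pi_ball y hρ] at h4
  rw [ENNReal.toReal_ofReal (by positivity)] at h4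
  simp only [Fintype.card_fin] at h4
  rw [hm2, mul_div_assoc', mul_div_cancel_left₀ _ (by positivity)] at h4
  linarith

lemma lsol' (h : RS T u p) {E : ℝ} (en : ∀ t ∈ Ioo 0 T, ∫ x, nsq (u t) x ≤ E ^ 2) :
    LSol T 0 E univ u p := by
  have hdv : ∀ t ∈ Ioo 0 T, ∀ x, dv (u t) x = 0 := fun t ht x => h.ud ht x
  refine ⟨isOpen_univ, h.sol.smooth_u.mono (prod_mono Ioo_subset_Ico_self le_rfl),
    h.sol.smooth_p, fun t ht x _ => hdv t ht x, fun t ht x _ i => ?_, fun t ht => ?_, en,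
    fun t ht => ?_, fun t ht => ?_⟩
  · have := h.sol.momentum t ht x i
    rw [one_mul] at this
    exact this
  · have A := h.af1 ht
    exact integrable_finsetSum _ fun i _ => ((A.hi i).m ⟨le_rfl, le_rfl⟩).sq
  · have e : (fun x => dv (u t) x ^ 2) = fun _ => 0 := by
      funext x
      rw [hdv t ht x]
      ring
    rw [e]
    exact integrable_zero _ _ _
  · have e : (fun x => dv (u t) x ^ 2) = fun _ => 0 := by
      funext x
      rw [hdv t ht x]
      ring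
    rw [e]
    simp

/-- the dissipation in short time intervals -/
lemma small_dis (h : RS T u p) {E : ℝ}
    (dis : ∀ s t, 0 < s → s ≤ t → t < T → ∫ τ in s..t, ∫ x, gsq (u τ) x ≤ E ^ 2) {t₁ : ℝ}
    (ht₁ : 0 < t₁) (ht₁T : t₁ < T) {ε : ℝ} (hε : 0 < ε) : ∃ r : ℝ, 0 < r ∧ r ^ 2 ≤ t₁ / 2 ∧
    ∀ s ∈ Ico t₁ T, ∫⁻ τ in Ioo (s - r ^ 2) s, ∫⁻ y, ENNReal.ofReal (gsq (u τ) y)
      ≤ ENNReal.ofReal ε := by
  obtain ⟨a, ha⟩ : ∃ a : ℝ, a = t₁ / 2 := ⟨_, rfl⟩
  have ha0 : 0 < a := by linarith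
  have ha1 : a < t₁ := by linarith
  obtain ⟨g, hg⟩ : ∃ g : ℝ → ℝ, g = fun τ => ∫ x, gsq (u τ) x := ⟨_, rfl⟩
  have hg0 : ∀ τ, 0 ≤ g τ := fun τ => by
    rw [hg]
    exact integral_nonneg fun x => by show (0 : ℝ) ≤ gsq (u τ) x; unfold gsq; positivity
  have hii : ∀ s t, a ≤ s → s ≤ t → t < T → IntervalIntegrable g volume s t := by
    intro s t hs hst ht
    obtain ⟨m, χ, -, hχ⟩ := exists_cuts
    rw [hg]
    exact (cut_lim hχ (jt_gsq h.sol) (ha0.trans_le hs) hst ht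
      (h.af (ha0.trans_le hs) ht).b1_gsq).1
  have hdis : ∀ t ∈ Ico a T, ∫ τ in a..t, g τ ≤ E ^ 2 := fun t ht => by
    rw [hg]; exact dis a t ha0 ht.1 ht.2
  -- the supremum
  obtain ⟨S, hS⟩ : ∃ S : ℝ, S = sSup ((fun t => ∫ τ in a..t, g τ) '' Ico a T) := ⟨_, rfl⟩
  have hbdd : BddAbove ((fun t => ∫ τ in a..t, g τ) '' Ico a T) :=
    ⟨E ^ 2, by rintro _ ⟨t, ht, rfl⟩; exact hdis t ht⟩
  have hne : ((fun t => ∫ τ in a..t, g τ) '' Ico a T).Nonempty :=
    ⟨_, a, ⟨le_rfl, ha1.trans ht₁T⟩, rfl⟩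
  obtain ⟨_, ⟨T', hT', rfl⟩, hT'2⟩ := exists_lt_of_lt_csSup hne (sub_lt_self
    (sSup ((fun t => ∫ τ in a..t, g τ) '' Ico a T)) (half_pos hε))
  rw [← hS] at hT'2
  beta_reduce at hT'2
  have hle : ∀ t ∈ Ico a T, ∫ τ in a..t, g τ ≤ S := fun t ht => by
    rw [hS]; exact le_csSup hbdd ⟨t, ht, rfl⟩
  obtain ⟨C, hC, hCb⟩ := (h.af ha0 hT'.2).b1_gsq
  have hgC : ∀ τ ∈ Icc a T', g τ ≤ C := by
    intro τ hτ
    rw [hg]
    refine le_trans (integral_mono (hCb τ hτ).1 (hCb τ hτ).1.abs fun x => le_abs_self _)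
      (hCb τ hτ).2
  obtain ⟨r, hr⟩ : ∃ r : ℝ, r = √(min (t₁ / 2) (ε / (2 * (C + 1)))) := ⟨_, rfl⟩
  have hm0 : 0 < min (t₁ / 2) (ε / (2 * (C + 1))) := lt_min (by linarith) (by positivity)
  have hr0 : 0 < r := by rw [hr]; exact Real.sqrt_pos.2 hm0
  have hr2 : r ^ 2 = min (t₁ / 2) (ε / (2 * (C + 1))) := by rw [hr, Real.sq_sqrt hm0.le]
  have hr3 : r ^ 2 ≤ t₁ / 2 := by rw [hr2]; exact min_le_left _ _
  have hr4 : C * r ^ 2 ≤ ε / 2 := by
    have h1 : r ^ 2 ≤ ε / (2 * (C + 1)) := by rw [hr2]; exact min_le_right _ _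
    calc C * r ^ 2 ≤ (C + 1) * (ε / (2 * (C + 1))) := by
          gcongr
          linarith
      _ = ε / 2 := by field_simp
  refine ⟨r, hr0, hr3, fun s hs => ?_⟩
  have hsa : a ≤ s - r ^ 2 := by linarith [hs.1]
  have hss : s - r ^ 2 ≤ s := by linarith [sq_nonneg r]
  have hsT := hs.2
  -- the bound of the interval integral
  have hCint : ∀ s' t', a ≤ s' → s' ≤ t' → t' ≤ T' → ∫ τ in s'..t', g τ ≤ C * (t' - s') := by
    intro s' t' h1 h2 h3
    have h4 : ∫ τ in s'..t', g τ ≤ ∫ τ in s'..t', C :=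
      intervalIntegral.integral_mono_on h2 (hii s' t' h1 h2 (h3.trans_lt hT'.2))
        intervalIntegrable_const fun τ hτ => hgC τ ⟨h1.trans hτ.1, hτ.2.trans h3⟩
    rw [intervalIntegral.integral_const, smul_eq_mul] at h4
    linarith
  have htail : ∀ s' t', T' ≤ s' → s' ≤ t' → t' < T → ∫ τ in s'..t', g τ ≤ ε / 2 := by
    intro s' t' h1 h2 h3
    have e1 := intervalIntegral.integral_add_adjacent_intervals
      (hii a s' le_rfl (hT'.1.trans h1) (h2.trans_lt h3)) (hii s' t' (hT'.1.trans h1) h2 h3)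
    have e2 := intervalIntegral.integral_add_adjacent_intervals
      (hii a T' le_rfl hT'.1 hT'.2) (hii T' s' hT'.1 h1 (h2.trans_lt h3))
    have e3 := hle t' ⟨hT'.1.trans (h1.trans h2), h3⟩
    have e4 : 0 ≤ ∫ τ in T'..s', g τ := intervalIntegral.integral_nonneg h1 fun τ _ => hg0 τ
    linarith
  have key : ∫ τ in (s - r ^ 2)..s, g τ ≤ ε := by
    rcases le_total s T' with h1 | h1
    · have h2 := hCint (s - r ^ 2) s hsa hss h1
      have e : s - (s - r ^ 2) = r ^ 2 := by ring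
      rw [e] at h2
      linarith
    · rcases le_total T' (s - r ^ 2) with h2 | h2
      · have h3 := htail (s - r ^ 2) s h2 hss hsT
        linarith
      · have e1 := intervalIntegral.integral_add_adjacent_intervals
          (hii (s - r ^ 2) T' hsa h2 hT'.2) (hii T' s hT'.1 h1 hsT)
        have h3 := hCint (s - r ^ 2) T' hsa h2 le_rfl
        have h4 := htail T' s le_rfl h1 hsT
        have h5 : C * (T' - (s - r ^ 2)) ≤ C * r ^ 2 := by
          apply mul_le_mul_of_nonneg_left _ hC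
          linarith
        linarith
  -- conversion
  have hI : ∀ τ ∈ Ioo (s - r ^ 2) s, τ ∈ Ioo 0 T := fun τ hτ =>
    ⟨ha0.trans_le (hsa.trans hτ.1.le), hτ.2.trans hsT⟩
  have hgi : IntegrableOn g (Ioo (s - r ^ 2) s) :=
    ((intervalIntegrable_iff_integrableOn_Ioo_of_le hss).1 (hii (s - r ^ 2) s hsa hss hsT))
  calc ∫⁻ τ in Ioo (s - r ^ 2) s, ∫⁻ y, ENNReal.ofReal (gsq (u τ) y)
      = ∫⁻ τ in Ioo (s - r ^ 2) s, ENNReal.ofReal (g τ) := by
        refine setLIntegral_congr_fun measurableSet_Ioo fun τ hτ => ?_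
        have A := h.af1 (hI τ hτ)
        obtain ⟨C', -, hC'⟩ := A.b1_gsq
        rw [hg]
        exact (ofReal_integral_eq_lintegral_ofReal (hC' τ ⟨le_rfl, le_rfl⟩).1
          (Eventually.of_forall fun x => by
            show (0 : ℝ) ≤ gsq (u τ) x; unfold gsq; positivity)).symm
    _ = ENNReal.ofReal (∫ τ in Ioo (s - r ^ 2) s, g τ) :=
        (ofReal_integral_eq_lintegral_ofReal hgi (Eventually.of_forall fun τ => hg0 τ)).symm
    _ ≤ ENNReal.ofReal ε := by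
        apply ENNReal.ofReal_le_ofReal
        rw [← integral_Ioc_eq_integral_Ioo, ← intervalIntegral.integral_of_le hss]
        exact key

end Pool.Agent.X96.AT
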