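import Pool.Agent.X96.AT.Out

/-!
Axisymmetric flows (helper96): the velocity is bounded away from the axis.
-/

set_option autoImplicit false

open MeasureTheory Set Metric Filter Topology
open scoped ContDiff ENNReal

namespace Pool.Agent.X96.AT

open H459R3.NS W221.NS Pool.Agent.TH305.AX Pool.Agent.X96.AX
open Pool.Agent.X96.AR hiding sm_sg
open Pool.Agent.TH305.DR hiding gg
open Pool.Agent.W583.MD (sm_pd pd_mul')

variable {T : ℝ} {u : ℝ → V → V} {p : ℝ → V → ℝ} {s t : ℝ}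

/-- a set of small measure does not contain a neighbourhood of a circle -/
lemma circle_free {R r : ℝ} (hR : 0 < R) (hr : 0 < r) {x : V} (hx : R ^ 2 ≤ sg x) {B : Set V}
    (hB : volume B < ENNReal.ofReal (R * r ^ 2 / 64)) :
    ∃ (θ : ℝ) (y : V), rot θ x ∈ ball y (r / 16) ∧ y ∉ B := by
  have hσ : 0 < sg x := lt_of_lt_of_le (by positivity) hx
  obtain ⟨N, hN⟩ : ∃ N : ℕ, N = ⌊8 * R / r⌋₊ + 1 := ⟨_, rfl⟩
  have hNR : 8 * R / r ≤ N := by
    rw [hN]
    push_cast
    exact (Nat.lt_floor_add_one _).le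
  obtain ⟨w, hw⟩ : ∃ w : ℕ → ℝ, w = fun j : ℕ => (j : ℝ) * r / 8 := ⟨_, rfl⟩
  have hwj : ∀ j < N, w j ^ 2 ≤ sg x := by
    intro j hj
    refine le_trans ?_ hx
    have h1 : (j : ℝ) ≤ 8 * R / r := by
      refine le_trans ?_ (Nat.floor_le (by positivity))
      exact_mod_cast (by omega : j ≤ ⌊8 * R / r⌋₊)
    rw [le_div_iff₀ hr] at h1
    have h2 : w j ≤ R := by
      rw [hw]
      show (j : ℝ) * r / 8 ≤ R
      linarith
    have h3 : 0 ≤ w j := by
      rw [hw]
      show 0 ≤ (j : ℝ) * r / 8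
      positivity
    exact pow_le_pow_left₀ h3 h2 2
  obtain ⟨z, hz⟩ : ∃ z : ℕ → V, z = fun j => ![√(sg x - w j ^ 2), w j, x 2] := ⟨_, rfl⟩
  have hz1 : ∀ j, z j 1 = w j := fun j => by rw [hz]; rfl
  have hdist : ∀ i j : ℕ, i ≠ j → Disjoint (ball (z i) (r / 16)) (ball (z j) (r / 16)) := by
    intro i j hij
    apply ball_disjoint_ball
    have h1 : |w i - w j| ≤ dist (z i) (z j) := by
      rw [dist_eq_norm, ← hz1 i, ← hz1 j]
      exact norm_le_pi_norm (z i - z j) 1
    refine le_trans ?_ h1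
    have h2 : w i - w j = ((i : ℝ) - j) * (r / 8) := by rw [hw]; ring
    rw [h2, abs_mul, abs_of_pos (show 0 < r / 8 by positivity)]
    have h3 : (1 : ℝ) ≤ |(i : ℝ) - j| := by
      have h4 : (i : ℤ) - j ≠ 0 := by omega
      have h5 := Int.one_le_abs h4
      have h6 : ((|(i : ℤ) - j| : ℤ) : ℝ) = |(i : ℝ) - j| := by push_cast; rfl
      rw [← h6]
      exact_mod_cast h5
    have := mul_le_mul_of_nonneg_right h3 (show 0 ≤ r / 8 by positivity)
    linarith
  have hex : ∃ j < N, ¬ ball (z j) (r / 16) ⊆ B := by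
    by_contra hcon
    push Not at hcon
    have h1 : volume (⋃ j ∈ Finset.range N, ball (z j) (r / 16)) ≤ volume B :=
      measure_mono (iUnion₂_subset fun j hj => hcon j (Finset.mem_range.1 hj))
    rw [measure_biUnion_finset (fun i _ j _ hij => hdist i j hij)
      (fun j _ => measurableSet_ball)] at h1
    have h2 : ∀ j ∈ Finset.range N, volume (ball (z j) (r / 16))
        = ENNReal.ofReal ((2 * (r / 16)) ^ 3) := by
      intro j _
      rw [Real.volume_pi_ball _ (by positivity)]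
      simp only [Fintype.card_fin]
    rw [Finset.sum_congr rfl h2, Finset.sum_const, Finset.card_range, nsmul_eq_mul,
      ← ENNReal.ofReal_natCast, ← ENNReal.ofReal_mul (Nat.cast_nonneg N)] at h1
    have h3 := h1.trans_lt hB
    rw [ENNReal.ofReal_lt_ofReal_iff (by positivity)] at h3
    rw [div_le_iff₀ hr] at hNR
    have e : (N : ℝ) * (2 * (r / 16)) ^ 3 = (N * r) * (r ^ 2 / 512) := by ring
    rw [e] at h3
    have h4 := mul_le_mul_of_nonneg_right hNR (show 0 ≤ r ^ 2 / 512 by positivity)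
    linarith
  obtain ⟨j, hj, hjB⟩ := hex
  rw [not_subset] at hjB
  obtain ⟨y, hy, hyB⟩ := hjB
  obtain ⟨θ, hθ⟩ := orb hσ (hwj j hj)
  refine ⟨θ, y, ?_, hyB⟩
  have e : rot θ x = z j := by rw [hθ, hz]
  rw [e]
  rwa [mem_ball_comm] at hy

/-- **The velocity is bounded away from the axis.** -/
theorem out_bdd (h : RS T u p) {E : ℝ} (hE : 0 ≤ E) (hT : 0 < T)
    (en : ∀ t ∈ Ioo 0 T, ∫ x, nsq (u t) x ≤ E ^ 2)
    (dis : ∀ s t, 0 < s → s ≤ t → t < T → ∫ τ in s..t, ∫ x, gsq (u τ) x ≤ E ^ 2) {R : ℝ}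
    (hR : 0 < R) : ∃ U : ℝ, 0 ≤ U ∧ ∀ t ∈ Ico 0 T, ∀ x, R ^ 2 ≤ sg x → nsq (u t) x ≤ U ^ 2 := by
  obtain ⟨C0, hC0, K, hK, H⟩ := fixT
  have hL := lsol' h en
  obtain ⟨r, hr, hr2, hdis⟩ := small_dis h dis (t₁ := T / 2) (by linarith) (by linarith)
    (ε := R / (128 * C0)) (by positivity)
  obtain ⟨G, hG⟩ : ∃ G : ℝ, G = K 0 * (1 + r⁻¹ * E ^ 2) / r ^ 4 := ⟨_, rfl⟩
  have hG0 : 0 ≤ G := by rw [hG]; have := hK 0; positivity
  obtain ⟨m, hm⟩ : ∃ m : ℝ, m = √((E ^ 2 + 1) / (2 * (r / 16)) ^ 3) + 6 * √G * (r / 16) :=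
    ⟨_, rfl⟩
  have hm0 : 0 ≤ m := by rw [hm]; positivity
  have hlate : ∀ s ∈ Ico (T / 2) T, ∀ x, R ^ 2 ≤ sg x → nsq (u s) x ≤ 3 * m ^ 2 := by
    intro s hs x hx
    have hs0 : s ∈ Ioo 0 T := ⟨by linarith [hs.1], hs.2⟩
    have hrs : r ^ 2 < s := by linarith [hs.1]
    obtain ⟨B, hBm, hBv, hBb⟩ := H T 0 E univ u p le_rfl hE hL r s hr hrs hs.2 (by simp)
    have hB : volume B < ENNReal.ofReal (R * r ^ 2 / 64) := by
      rw [Measure.restrict_univ] at hBv
      refine (hBv.trans (mul_le_mul_right (hdis s hs) _)).trans_lt ?_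
      rw [← ENNReal.ofReal_mul (by positivity), ENNReal.ofReal_lt_ofReal_iff (by positivity)]
      have e : C0 * r ^ 2 * (R / (128 * C0)) = R * r ^ 2 / 128 := by field_simp
      rw [e]
      have : 0 < R * r ^ 2 := by positivity
      linarith
    obtain ⟨θ, y, hθ, hy⟩ := circle_free hR hr hx hB
    have hA2 : A2 y (5 * r) (u s) ≤ E ^ 2 :=
      (setIntegral_le_integral (hL.en_int s hs0)
        (Eventually.of_forall fun x => by show (0 : ℝ) ≤ nsq (u s) x; unfold nsq; positivity)).trans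
        (en s hs0)
    have hgr : ∀ x' ∈ ball y (r / 16), gsq (u s) x' ≤ G := by
      intro x' hx'
      have h3 := (hBb y hy (subset_univ _) x' hx' 0).2
      have h5 : SV (0 + 1) (u s) x' = gsq (u s) x' := rfl
      rw [h5] at h3
      have h6 : r ^ 4 * gsq (u s) x' ≤ K 0 * (1 + r⁻¹ * E ^ 2) := by
        refine le_trans (by simpa using h3) ?_
        have := (hK 0).le
        gcongr
      rw [hG, le_div_iff₀ (by positivity), mul_comm]
      exact h6
    have A := h.af1 hs0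
    have hi : ∀ i, |u s (rot θ x) i| ≤ m := by
      intro i
      have mi := (A.hi i).m (⟨le_rfl, le_rfl⟩ : s ∈ Icc s s)
      rw [hm]
      refine loc_le (f := fun y => u s y i) (sm_cmp (A.sm s ⟨le_rfl, le_rfl⟩) i) (by positivity)
        (Real.sqrt_nonneg _) (fun j x' hx' => ?_) mi.sq ?_ hθ
      · apply Real.abs_le_sqrt
        refine le_trans ?_ (hgr x' hx')
        unfold gsq
        exact (Finset.single_le_sum (f := fun j => pd j (fun y => u s y i) x' ^ 2)
          (fun j _ => sq_nonneg _) (Finset.mem_univ j)).trans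
          (Finset.single_le_sum (f := fun i => ∑ j, pd j (fun y => u s y i) x' ^ 2)
          (fun i _ => Finset.sum_nonneg fun j _ => sq_nonneg _) (Finset.mem_univ i))
      · refine le_trans ?_ (en s hs0)
        refine integral_mono mi.sq (hL.en_int s hs0) fun y => ?_
        show u s y i ^ 2 ≤ nsq (u s) y
        unfold nsq
        exact Finset.single_le_sum (f := fun i => u s y i ^ 2) (fun i _ => sq_nonneg _)
          (Finset.mem_univ i)
    rw [← nsq_rot (h.sol.axi s ⟨hs0.1.le, hs.2⟩) θ x]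
    unfold nsq
    rw [Fin.sum_univ_three]
    have q : ∀ i, u s (rot θ x) i ^ 2 ≤ m ^ 2 := fun i => by
      rw [← sq_abs]
      exact pow_le_pow_left₀ (abs_nonneg _) (hi i) 2
    linarith [q 0, q 1, q 2]
  obtain ⟨U₀, hU₀⟩ := h.sol.bdd (T / 2) (by linarith)
  refine ⟨2 * (|U₀| + m), by positivity, fun t ht x hx => ?_⟩
  rcases lt_or_ge t (T / 2) with h1 | h1
  · have h2 := hU₀ t ⟨ht.1, h1.le⟩ x
    have q : ∀ i, u t x i ^ 2 ≤ |U₀| ^ 2 := fun i => by
      rw [← sq_abs]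
      refine pow_le_pow_left₀ (abs_nonneg _) ?_ 2
      exact ((norm_le_pi_norm (u t x) i).trans h2).trans (le_abs_self _)
    unfold nsq
    rw [Fin.sum_univ_three]
    have := abs_nonneg U₀
    nlinarith [q 0, q 1, q 2]
  · refine (hlate t ⟨h1, ht.2⟩ x hx).trans ?_
    have := abs_nonneg U₀
    nlinarith

end Pool.Agent.X96.AT
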