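import Pool.Agent.X96.AT.Fel
import Pool.Agent.X96.AX.Rad3

/-!
Axisymmetric flows (helper96): decay of the velocity, comparison for the radial flux at touching
points.
-/

set_option autoImplicit false

open MeasureTheory Set Metric Filter Topology
open scoped ContDiff ENNReal

namespace Pool.Agent.X96.AT

open H459R3.NS W221.NS Pool.Agent.X96.AX
open Pool.Agent.TH305.AX hiding rad
open Pool.Agent.X96.AR hiding sm_sg
open Pool.Agent.TH305.DR hiding gg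
open Pool.Agent.W583.MD (sm_pd)

variable {ν T : ℝ} {u : ℝ → V → V} {p : ℝ → V → ℝ}

/-- uniform decay of the velocity -/
lemma u_dec (h : RP T u p) {a b : ℝ} (ha : 0 < a) (hb : b < T) (i : Fin 3) {η : ℝ} (hη : 0 < η) :
    ∃ Z : ℝ, ∀ t ∈ Icc a b, ∀ x, Z ≤ ‖x‖ → |u t x i| ≤ η := by
  have A := h.rs.af ha hb
  have hg := A.hi i
  -- the time derivative is bounded
  obtain ⟨C, hC, hCb⟩ : ∃ C : ℝ, 0 ≤ C ∧ ∀ t ∈ Icc a b, ∀ x,
      |td (fun s x => u s x i) t x| ≤ C := by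
    obtain ⟨U0, h00, hU0⟩ := (A.hi 0).bd
    obtain ⟨U1, h10, hU1⟩ := (A.hi 1).bd
    obtain ⟨U2, h20, hU2⟩ := (A.hi 2).bd
    obtain ⟨G0, g00, hG0⟩ := (hg.pd 0).bd
    obtain ⟨G1, g10, hG1⟩ := (hg.pd 1).bd
    obtain ⟨G2, g20, hG2⟩ := (hg.pd 2).bd
    obtain ⟨L, l0, hL⟩ := hg.lap.bd
    obtain ⟨K, k0, hK⟩ := ((h.hp a b ha hb).2 i).base.1
    refine ⟨L + K + (U0 * G0 + U1 * G1 + U2 * G2), by positivity, fun t ht x => ?_⟩
    have htT : t ∈ Ioo 0 T := ⟨ha.trans_le ht.1, ht.2.trans_lt hb⟩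
    have e := h.eqm htT i x
    unfold av at e
    rw [Fin.sum_univ_three] at e
    have m0 : |u t x 0 * pd 0 (fun y => u t y i) x| ≤ U0 * G0 := by
      rw [abs_mul]; exact mul_le_mul ((hU0 t ht).2 x) ((hG0 t ht).2 x) (abs_nonneg _) h00
    have m1 : |u t x 1 * pd 1 (fun y => u t y i) x| ≤ U1 * G1 := by
      rw [abs_mul]; exact mul_le_mul ((hU1 t ht).2 x) ((hG1 t ht).2 x) (abs_nonneg _) h10
    have m2 : |u t x 2 * pd 2 (fun y => u t y i) x| ≤ U2 * G2 := by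
      rw [abs_mul]; exact mul_le_mul ((hU2 t ht).2 x) ((hG2 t ht).2 x) (abs_nonneg _) h20
    have m4 := (hL t ht).2 x
    have m5 := (hK t ht).2 x
    rw [abs_le] at m0 m1 m2 m4 m5 ⊢
    constructor <;> linarith [m0.1, m0.2, m1.1, m1.2, m2.1, m2.2, m4.1, m4.2, m5.1, m5.2]
  -- Lipschitz in time
  have hlip : ∀ s ∈ Icc a b, ∀ t ∈ Icc a b, ∀ x, |u t x i - u s x i| ≤ C * |t - s| := by
    intro s hs t ht x
    have hd : ∀ τ ∈ Icc a b, HasDerivWithinAt (fun s => u s x i)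
        (td (fun s x => u s x i) τ x) (Icc a b) τ := by
      intro τ hτ
      have hτT : τ ∈ Ioo 0 T := ⟨ha.trans_le hτ.1, hτ.2.trans_lt hb⟩
      exact ((jt_u h.rs.sol i).hd hτT x).hasDerivWithinAt
    have := Convex.norm_image_sub_le_of_norm_hasDerivWithin_le (C := C) hd
      (fun τ hτ => by rw [Real.norm_eq_abs]; exact hCb τ hτ x) (convex_Icc a b) hs ht
    simpa only [Real.norm_eq_abs] using this
  have hC1 : 0 < C + 1 := by linarith
  refine isCompact_Icc.induction_on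
    (p := fun S : Set ℝ => ∃ Z : ℝ, ∀ t ∈ S, ∀ x, Z ≤ ‖x‖ → |u t x i| ≤ η)
    ⟨0, fun t ht => absurd ht (notMem_empty t)⟩ ?_ ?_ ?_
  · rintro s t hst ⟨Z, hZ⟩
    exact ⟨Z, fun τ hτ => hZ τ (hst hτ)⟩
  · rintro s t ⟨Z, hZ⟩ ⟨Z', hZ'⟩
    refine ⟨max Z Z', fun τ hτ x hx => ?_⟩
    rcases hτ with hτ | hτ
    · exact hZ τ hτ x ((le_max_left _ _).trans hx)
    · exact hZ' τ hτ x ((le_max_right _ _).trans hx)
  · intro s hs
    obtain ⟨G0, g00, hG0⟩ := (hg.pd 0).bd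
    obtain ⟨G1, g10, hG1⟩ := (hg.pd 1).bd
    obtain ⟨G2, g20, hG2⟩ := (hg.pd 2).bd
    obtain ⟨Z, hZ⟩ := dec_fn (hg.sm s hs) (D := G0 + G1 + G2) (by positivity)
      (fun j x => by
        fin_cases j
        · exact ((hG0 s hs).2 x).trans (by linarith)
        · exact ((hG1 s hs).2 x).trans (by linarith)
        · exact ((hG2 s hs).2 x).trans (by linarith)) (hg.m hs).sq (show 0 < η / 2 by positivity)
    refine ⟨Icc a b ∩ ball s (η / (2 * (C + 1))), inter_mem_nhdsWithin _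
      (ball_mem_nhds s (by positivity)), Z, fun t ht x hx => ?_⟩
    have h1 := hlip s hs t ht.1 x
    have h2 := hZ x hx
    have h3 : |t - s| < η / (2 * (C + 1)) := by
      have := ht.2
      rwa [mem_ball, Real.dist_eq] at this
    have h4 : C * |t - s| ≤ η / 2 := by
      calc C * |t - s| ≤ (C + 1) * (η / (2 * (C + 1))) := by
            gcongr
            linarith
        _ = η / 2 := by field_simp
    have h5 : |u t x i| ≤ |u s x i| + |u t x i - u s x i| := by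
      have : u t x i = u s x i + (u t x i - u s x i) := by ring
      calc |u t x i| = |u s x i + (u t x i - u s x i)| := by rw [← this]
        _ ≤ _ := abs_add_le _ _
    linarith

/-- A solution whose radial flux decays uniformly along the axis. -/
structure TR (ν T : ℝ) (u : ℝ → V → V) (p : ℝ → V → ℝ) : Prop where
  b : BSol ν T u p
  dec : ∀ T' < T, ∀ S η : ℝ, 0 < η → ∃ Z : ℝ, ∀ t ∈ Icc 0 T', ∀ x, sg x ≤ S → Z ≤ ‖x‖ →
    |rad (u t) x| ≤ η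

lemma RP.tr (h : RP T u p) {t₀ : ℝ} (ht₀ : 0 < t₀) :
    TR 1 (T - t₀) (fun t => u (t₀ + t)) (fun t => p (t₀ + t)) where
  b := Pool.Agent.X96.AX.BSol.shift h.rs.sol ht₀.le
  dec := by
    intro T' hT' S η hη
    obtain ⟨S', hS'⟩ : ∃ S' : ℝ, S' = √(max S 1) := ⟨_, rfl⟩
    have hS1 : 0 < S' := by rw [hS']; positivity
    obtain ⟨Z, hZ⟩ := u_dec h (a := t₀) (b := t₀ + T') ht₀ (by linarith) 0
      (η := η / (2 * S')) (by positivity)
    obtain ⟨Z', hZ'⟩ := u_dec h (a := t₀) (b := t₀ + T') ht₀ (by linarith) 1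
      (η := η / (2 * S')) (by positivity)
    refine ⟨max Z Z', fun t ht x hx hZx => ?_⟩
    have htm : t₀ + t ∈ Icc t₀ (t₀ + T') := ⟨by linarith [ht.1], by linarith [ht.2]⟩
    have h0 := hZ (t₀ + t) htm x ((le_max_left _ _).trans hZx)
    have h1 := hZ' (t₀ + t) htm x ((le_max_right _ _).trans hZx)
    obtain ⟨a0, a1⟩ := abs_le_sqrt_sg x
    have h2 : √(sg x) ≤ S' := by
      rw [hS']
      exact Real.sqrt_le_sqrt (hx.trans (le_max_left _ _))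
    unfold rad
    calc |x 0 * u (t₀ + t) x 0 + x 1 * u (t₀ + t) x 1|
        ≤ |x 0 * u (t₀ + t) x 0| + |x 1 * u (t₀ + t) x 1| := abs_add_le _ _
      _ = |x 0| * |u (t₀ + t) x 0| + |x 1| * |u (t₀ + t) x 1| := by rw [abs_mul, abs_mul]
      _ ≤ S' * (η / (2 * S')) + S' * (η / (2 * S')) := by
        gcongr
        · exact a0.trans h2
        · exact a1.trans h2
      _ = η := by field_simp; ring

/-- **Comparison of the radial flux in a cylinder, at touching points.** -/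
theorem cmpRT (hν : 0 < ν) (h : TR ν T u p) {S : ℝ}
    {Φ : ℝ → ℝ → ℝ} (hΦ0 : ∀ t ∈ Ico 0 T, ∀ σ ∈ Icc 0 S, 0 ≤ Φ t σ)
    (hΦc : ContinuousOn (fun z : ℝ × ℝ => Φ z.1 z.2) (Ico 0 T ×ˢ Icc 0 S))
    (hΦm : ∀ t ∈ Ioo 0 T, MonotoneOn (Φ t) (Icc 0 S))
    (hlat : ∀ t ∈ Ico 0 T, ∀ x, sg x = S → -Φ t S ≤ rad (u t) x)
    (hin : ∀ x, sg x ≤ S → -Φ 0 (sg x) ≤ rad (u 0) x)
    (hmaj : ∀ t ∈ Ioo 0 T, ∀ x, 0 < sg x → sg x < S → rad (u t) x < -Φ t (sg x) →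
      ∃ χ χ₁ c₂ d ζ, Maj Φ t (sg x) χ χ₁ c₂ d ζ ∧ (pd 2 (rad (u t)) x = 0 →
        x 0 * pd 0 (rad (u t)) x + x 1 * pd 1 (rad (u t)) x = -(2 * sg x * χ₁ (sg x)) →
        (∀ y, sg y ≤ sg x → rad (u t) x ≤ rad (u t) y) →
        4 * ν * sg x * c₂ - 2 * rad (u t) x * χ₁ (sg x)
          - (rad (u t) x ^ 2 + circ (u t) x ^ 2) / sg x
          + (x 0 * pd 0 (p t) x + x 1 * pd 1 (p t) x) ≤ d)) :
    ∀ t ∈ Ico 0 T, ∀ x, sg x ≤ S → -Φ t (sg x) ≤ rad (u t) x := by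
  intro t₀ ht₀ x₀ hx₀S
  by_contra hcon
  push Not at hcon
  have ht00 : 0 < t₀ := by
    rcases eq_or_lt_of_le ht₀.1 with h1 | h1
    · rw [← h1] at hcon
      exact absurd (hin x₀ hx₀S) (not_le.2 hcon)
    · exact h1
  have hs2 : Φ t₀ (sg x₀) < -1 * rad (u t₀) x₀ := by linarith
  obtain ⟨ε, hε, hε2⟩ : ∃ ε : ℝ, 0 < ε ∧
      0 < -1 * rad (u t₀) x₀ - Φ t₀ (sg x₀) - ε * (1 + t₀) := by
    obtain ⟨m, hm⟩ : ∃ m : ℝ, m = -1 * rad (u t₀) x₀ - Φ t₀ (sg x₀) := ⟨_, rfl⟩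
    have hm0 : 0 < m := by rw [hm]; linarith
    have hZ : 0 < 1 + t₀ := by linarith
    rw [← hm]
    refine ⟨m / (2 * (1 + t₀)), by positivity, ?_⟩
    have : m / (2 * (1 + t₀)) * (1 + t₀) = m / 2 := by field_simp
    rw [this]
    linarith
  obtain ⟨F, hF⟩ : ∃ F : ℝ × V → ℝ, F = fun z => -1 * rad (u z.1) z.2
      - Φ z.1 (sg z.2) - ε * (1 + z.1) := ⟨_, rfl⟩
  have hsc : ∀ v : V → V, ∀ x, -1 * rad v x ≤ |rad v x| := by
    intro v x
    have := neg_abs_le (rad v x)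
    linarith
  have hI : ∀ t ∈ Icc 0 t₀, t ∈ Ico 0 T := fun t ht => ⟨ht.1, ht.2.trans_lt ht₀.2⟩
  have hlo : ∀ t ∈ Icc 0 t₀, ∀ x, sg x ≤ S → 0 ≤ Φ t (sg x) := fun t ht x hx =>
    hΦ0 t (hI t ht) _ ⟨sg_nonneg x, hx⟩
  -- outside a ball F is negative
  obtain ⟨Z, hZ⟩ := h.dec t₀ ht₀.2 S (ε / 2) (by positivity)
  obtain ⟨R, hR⟩ : ∃ R : ℝ, R = |Z| + ‖x₀‖ := ⟨_, rfl⟩
  have hout : ∀ t ∈ Icc 0 t₀, ∀ x, sg x ≤ S → R < ‖x‖ → F (t, x) < 0 := by
    intro t ht x hxS hx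
    rw [hF]
    show -1 * rad (u t) x - Φ t (sg x) - ε * (1 + t) < 0
    have h1 := hsc (u t) x
    have h2 := hZ t ht x hxS (by
      have := le_abs_self Z
      have := norm_nonneg x₀
      linarith)
    have h3 := hlo t ht x hxS
    have h4 : ε * 1 ≤ ε * (1 + t) := mul_le_mul_of_nonneg_left (by linarith [ht.1]) hε.le
    linarith
  obtain ⟨Kset, hKs⟩ : ∃ Kset : Set V, Kset = closedBall (0 : V) R ∩ {x | sg x ≤ S} := ⟨_, rfl⟩
  have hKc : IsCompact Kset := by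
    rw [hKs]
    exact (isCompact_closedBall (0 : V) R).inter_right
      (isClosed_le sm_sg.continuous continuous_const)
  have hKm : ∀ {y : V}, y ∈ Kset ↔ ‖y‖ ≤ R ∧ sg y ≤ S := by
    intro y
    rw [hKs]
    constructor
    · rintro ⟨h1, h2⟩
      exact ⟨by rwa [mem_closedBall, dist_zero_right] at h1, h2⟩
    · rintro ⟨h1, h2⟩
      exact ⟨by rwa [mem_closedBall, dist_zero_right], h2⟩
  have hFc : ContinuousOn F (Icc 0 t₀ ×ˢ Kset) := by
    have h1 : ContinuousOn (fun z : ℝ × V => rad (u z.1) z.2)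
        (Icc 0 t₀ ×ˢ Kset) :=
      (rad_cont h.b).mono fun z hz => ⟨⟨hz.1.1, hz.1.2.trans_lt ht₀.2⟩, trivial⟩
    have h2 : Continuous fun z : ℝ × V => ε * (1 + z.1) := by fun_prop
    have h5 : ContinuousOn (fun z : ℝ × V => Φ z.1 (sg z.2))
        (Icc 0 t₀ ×ˢ Kset) :=
      hΦc.comp (f := fun z : ℝ × V => (z.1, sg z.2)) (continuous_fst.prodMk
        (sm_sg.continuous.comp continuous_snd)).continuousOn
        fun z hz => ⟨hI _ hz.1, sg_nonneg z.2, (hKm.1 hz.2).2⟩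
    rw [hF]
    exact ((continuousOn_const.mul h1).sub h5).sub h2.continuousOn
  have hx₀K : x₀ ∈ Kset := hKm.2 ⟨by
    rw [hR]
    have := abs_nonneg Z
    linarith, hx₀S⟩
  obtain ⟨⟨t, x⟩, ⟨ht, hx⟩, hmx⟩ := (isCompact_Icc.prod hKc).exists_isMaxOn
    (s := Icc 0 t₀ ×ˢ Kset) ⟨(t₀, x₀), ⟨ht00.le, le_rfl⟩, hx₀K⟩ hFc
  simp only at ht hx
  have hxS : sg x ≤ S := (hKm.1 hx).2
  have hF0 : 0 < F (t, x) := by
    refine lt_of_lt_of_le ?_ (hmx (show (t₀, x₀) ∈ Icc 0 t₀ ×ˢ Kset from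
      ⟨⟨ht00.le, le_rfl⟩, hx₀K⟩))
    rw [hF]
    exact hε2
  have hglob : ∀ t' ∈ Icc 0 t₀, ∀ y, sg y ≤ S → F (t', y) ≤ F (t, x) := by
    intro t' ht' y hyS
    rcases le_or_gt ‖y‖ R with hy | hy
    · exact hmx (show (t', y) ∈ Icc 0 t₀ ×ˢ Kset from ⟨ht', hKm.2 ⟨hy, hyS⟩⟩)
    · exact (hout t' ht' y hyS hy).le.trans hF0.le
  have hF0' : 0 < -1 * rad (u t) x - Φ t (sg x) - ε * (1 + t) := by
    rw [hF] at hF0
    exact hF0
  have hεp : 0 < ε * (1 + t) := mul_pos hε (by linarith [ht.1])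
  have ht0 : 0 < t := by
    rcases eq_or_lt_of_le ht.1 with h1 | h1
    · exfalso
      rw [← h1] at hF0' hεp
      have h3 := hin x hxS
      linarith
    · exact h1
  have htT : t ∈ Ioo 0 T := ⟨ht0, ht.2.trans_lt ht₀.2⟩
  have hlox := hlo t ht x hxS
  have hbig : Φ t (sg x) < -1 * rad (u t) x := by linarith
  have hσ : 0 < sg x := by
    rcases eq_or_lt_of_le (sg_nonneg x) with h1 | h1
    · exfalso
      have h2 := (hsc (u t) x).trans (rad_le (u t) x)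
      rw [← h1, Real.sqrt_zero] at h2
      linarith
    · exact h1
  have hσS : sg x < S := by
    rcases eq_or_lt_of_le hxS with h1 | h1
    · exfalso
      have h2 := hlat t (hI t ht) x h1
      rw [h1] at hbig
      linarith
    · exact h1
  -- the touching function
  have hFt : ∀ y, F (t, y) = -1 * rad (u t) y - Φ t (sg y) - ε * (1 + t) := by
    intro y
    rw [hF]
  obtain ⟨χ, χ₁, c₂, d', ζ, hMj, hkey⟩ := hmaj t htT x hσ hσS (by linarith)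
  have hsmW : ContDiffAt ℝ 2 (fun y => (1 : ℝ) * χ (sg y)) x :=
    contDiffAt_const.mul (hMj.smooth.comp _ (sm_sg.contDiffAt.of_le (by norm_cast)))
  obtain ⟨W, hW⟩ : ∃ W : V → ℝ, W = fun y => (1 : ℝ) * χ (sg y) := ⟨_, rfl⟩
  rw [← hW] at hsmW
  have hnS : ∀ᶠ y in 𝓝 x, sg y ≤ S := by
    filter_upwards [sm_sg.continuous.continuousAt.eventually (gt_mem_nhds hσS)] with y hy
    exact hy.le
  have hlm : IsLocalMax (fun y => (-1 : ℝ) * rad (u t) y - W y) x := by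
    have h3 : ∀ᶠ y in 𝓝 x, Φ t (sg y) ≤ χ (sg y) :=
      ev_sg (P := fun r => Φ t r ≤ χ r) hMj.le
    filter_upwards [h3, hnS] with y hy hyS
    have h1 := hglob t ht y hyS
    rw [hFt, hFt] at h1
    have h5 := hMj.eq
    rw [hW]
    show (-1 : ℝ) * rad (u t) y - (1 : ℝ) * χ (sg y) ≤ -1 * rad (u t) x - (1 : ℝ) * χ (sg x)
    rw [h5]
    linarith
  have hv := h.b.slice0 (Ioo_subset_Ico_self htT)
  have hax := h.b.axi t (Ioo_subset_Ico_self htT)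
  have hθ := touchR hν hv hax (P := p t)
    (d := fun i => deriv (fun τ => u τ x i) t) (fun i => h.b.momentum t htT x i)
    hσ hsmW hlm
  have hd1 := hMj.hd1
  have hd2 := hMj.hd2
  have hpdW : ∀ j, pd j W x = (1 : ℝ) * (χ₁ (sg x) * (2 * cj j * x j)) := by
    intro j
    rw [hW, pd_maj (1 : ℝ) hd1.self_of_nhds j]
  -- the first derivatives
  have hsc2 : ContDiff ℝ ∞ (fun y => (-1 : ℝ) * rad (u t) y) := contDiff_const.mul (sm_rad hv)
  have hpd : ∀ j, (-1 : ℝ) * pd j (rad (u t)) x = pd j W x := by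
    intro j
    have h1 := (max_pd ((hsc2.contDiffAt.of_le (by norm_cast)).sub hsmW) hlm j).1
    rw [(pd2_sub_at hsc2 hsmW j).1, pd_cmul] at h1
    linarith
  have hkey := hkey (by
      have h1 := hpd 2
      rw [hpdW 2, cj2] at h1
      linarith)
    (by
      have h0 := hpd 0
      have h1 := hpd 1
      rw [hpdW 0, cj0] at h0
      rw [hpdW 1, cj1] at h1
      have e : sg x = x 0 ^ 2 + x 1 ^ 2 := rfl
      linear_combination (-x 0) * h0 + (-x 1) * h1 + (2 * χ₁ (sg x)) * e)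
    (by
      intro y hy
      have h1 := hglob t ht y (hy.trans hxS)
      rw [hFt, hFt] at h1
      have h3 := hΦm t htT ⟨sg_nonneg y, hy.trans hxS⟩ ⟨sg_nonneg x, hxS⟩ hy
      linarith)
  have hlapW : lap W x = (1 : ℝ) * (4 * sg x * c₂ + 4 * χ₁ (sg x)) := by
    rw [hW]
    exact lap_maj (1 : ℝ) hd1 hd2
  rw [hlapW, hpdW 0, hpdW 1] at hθ
  simp only [hpdW] at hθ
  obtain ⟨L1, hL1⟩ : ∃ L1 : ℝ, L1 = χ₁ (sg x) := ⟨_, rfl⟩
  rw [← hL1] at hθ hkey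
  have hom : 2 * (x 0 * ((1 : ℝ) * (L1 * (2 * cj 0 * x 0)))
      + x 1 * ((1 : ℝ) * (L1 * (2 * cj 1 * x 1)))) / sg x
      = 4 * L1 := by
    rw [div_eq_iff hσ.ne', cj0, cj1]
    unfold sg
    ring
  rw [hom] at hθ
  have hsum : ∑ j, u t x j * ((1 : ℝ) * (L1 * (2 * cj j * x j)))
      = 2 * L1 * rad (u t) x := by
    simp only [Fin.sum_univ_three, cj0, cj1, cj2, rad]
    ring
  rw [hsum] at hθ
  -- the time derivative
  have hlin : HasDerivAt (fun τ => ε * (1 + τ)) (ε * 1) t :=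
    ((hasDerivAt_id t).const_add 1).const_mul ε
  have hder := (((rad_hd h.b htT x).const_mul (-1 : ℝ)).sub hMj.td).sub hlin
  have hnn := deriv_nonneg_ev hder (by
    filter_upwards [hMj.tle, Ioo_mem_nhdsLT ht0] with τ h3 hτ
    have h1 := hglob τ ⟨hτ.1.le, hτ.2.le.trans ht.2⟩ x hσS.le
    rw [hF] at h1
    have h4 : -1 * rad (u τ) x - Φ τ (sg x) - ε * (1 + τ)
      ≤ -1 * rad (u t) x - Φ t (sg x) - ε * (1 + t) := h1
    have h6 := hMj.teq
    show -1 * rad (u τ) x - ζ τ - ε * (1 + τ) ≤ -1 * rad (u t) x - ζ t - ε * (1 + t)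
    rw [h6]
    linarith)
  linarith

end Pool.Agent.X96.AT
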