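import Pool.Agent.X96.AT.Prs

/-!
Axisymmetric flows (helper96): regularity from a one-sided bound of the radial derivative of the
pressure.
-/

set_option autoImplicit false

open MeasureTheory Set Metric Filter Topology
open scoped ContDiff ENNReal

namespace Pool.Agent.X96.AT

open H459R3.NS W221.NS Pool.Agent.X96.AX
open Pool.Agent.TH305.AX hiding rad
open Pool.Agent.X96.AR hiding sm_sg
open Pool.Agent.TH305.DR hiding gg
open Pool.Agent.W583.MD (sm_pd)

variable {ν T : ℝ} {u : ℝ → V → V} {p : ℝ → V → ℝ}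

lemma add_rpow4 {q x y : ℝ} (hq : 1 ≤ q) (hq2 : q < 2) (hx : 0 ≤ x) (hy : 0 ≤ y) :
    (x + y) ^ q ≤ 4 * (x ^ q + y ^ q) := by
  have h2q : (2 : ℝ) ^ q ≤ 4 := by
    calc (2 : ℝ) ^ q ≤ (2 : ℝ) ^ (2 : ℝ) := Real.rpow_le_rpow_of_exponent_le (by norm_num) hq2.le
      _ = 4 := by norm_num
  have hxq : 0 ≤ x ^ q := Real.rpow_nonneg hx _
  have hyq : 0 ≤ y ^ q := Real.rpow_nonneg hy _
  have hq0 : 0 ≤ q := by linarith
  rcases le_total x y with hxy | hxy
  · calc (x + y) ^ q ≤ (2 * y) ^ q := Real.rpow_le_rpow (by positivity) (by linarith) hq0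
      _ = 2 ^ q * y ^ q := Real.mul_rpow (by norm_num) hy
      _ ≤ 4 * y ^ q := by gcongr
      _ ≤ _ := by linarith
  · calc (x + y) ^ q ≤ (2 * x) ^ q := Real.rpow_le_rpow (by positivity) (by linarith) hq0
      _ = 2 ^ q * x ^ q := Real.mul_rpow (by norm_num) hx
      _ ≤ 4 * x ^ q := by gcongr
      _ ≤ _ := by linarith

/-- `ρ ∂_ρ f` -/
noncomputable def rd (f : V → ℝ) (x : V) : ℝ := x 0 * pd 0 f x + x 1 * pd 1 f x

/-- the algebra at a touching point -/
lemma alg_touch {C c' s r G P : ℝ} (hs : 0 < s)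
    (hP : P ≤ (G ^ 2 + r * (r + C * s) + C * s) / s ^ 2 + c' * s) :
    4 * 1 * s ^ 2 * (-C / (4 * s ^ 3)) - 2 * r * (C / (2 * s)) - (r ^ 2 + G ^ 2) / s ^ 2 + P
      ≤ c' * s := by
  have e : 4 * 1 * s ^ 2 * (-C / (4 * s ^ 3)) - 2 * r * (C / (2 * s)) - (r ^ 2 + G ^ 2) / s ^ 2
      + ((G ^ 2 + r * (r + C * s) + C * s) / s ^ 2 + c' * s) = c' * s := by
    field_simp
    ring
  linarith

/-- **Regularity from the pressure.** -/
theorem regQ {q κ : ℝ} (hq : 1 ≤ q) (hq2 : q < 2) (hκ0 : 0 ≤ κ) (hκ : κ < q ∨ q = 1 ∧ κ ≤ 1) :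
    ∃ c₀ : ℝ, 0 < c₀ ∧ ∀ (T : ℝ) (u : ℝ → V → V) (p : ℝ → V → ℝ), RP T u p →
      ∀ (T₁ A R : ℝ) (c c' : ℝ → ℝ), 0 ≤ T₁ → T₁ < T → 0 ≤ A → 0 < R →
      ContinuousOn c (Ico T₁ T) → (∀ t ∈ Ico T₁ T, 0 ≤ c t) →
      (∀ t ∈ Ioo T₁ T, HasDerivAt c (c' t) t) →
      (∀ s t, T₁ ≤ s → s < t → t < T → ∫ r in s..t, c r ^ q
        ≤ (A + c₀ * Real.log (2 + |Real.log (t - s)|) ^ (1 - q / 2)) * (t - s) ^ (1 - q / 2)) →
      (∀ t ∈ Ioo T₁ T, ∀ x, 0 < sg x → sg x < R ^ 2 → pd 2 (rad (u t)) x = 0 →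
        c t * √(sg x) < -rd (rad (u t)) x → rad (u t) x < rd (rad (u t)) x - κ →
        (∀ y, sg y ≤ sg x → rad (u t) x ≤ rad (u t) y) →
        rd (p t) x ≤ (circ (u t) x ^ 2 + rad (u t) x * (rad (u t) x - rd (rad (u t)) x)
          - rd (rad (u t)) x) / sg x + c' t * √(sg x)) →
      ∃ U : ℝ, ∀ t ∈ Ico 0 T, ∀ x, ‖u t x‖ ≤ U := by
  obtain ⟨c₀, hc₀, H⟩ := regE hq hq2 hκ
  refine ⟨c₀ / 4, by positivity, ?_⟩
  intro T u p h T₁ A R c c' hT₁ hT₁T hA hR hcc hc0 hcd hcM hp
  obtain ⟨a, ha⟩ : ∃ a : ℝ, a = (T₁ + T) / 2 := ⟨_, rfl⟩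
  have ha0 : 0 < a := by linarith
  have haT : a < T := by linarith
  have haT1 : T₁ < a := by linarith
  obtain ⟨E, hE, hrs, en, dis, hfin⟩ := frame h ha0 haT
  apply hfin
  obtain ⟨U, hU0, hU⟩ := out_bdd hrs hE (by linarith) en dis hR
  obtain ⟨U', hU'0, hU'⟩ := h.rs.sol.u_bdd haT
  obtain ⟨K, hK⟩ : ∃ K : ℝ, K = 2 * U + 2 * U' + 1 := ⟨_, rfl⟩
  have hK0 : 0 < K := by rw [hK]; positivity
  have hI : ∀ t ∈ Ico 0 (T - a), a + t ∈ Ico T₁ T := fun t ht =>
    ⟨by linarith [ht.1], by linarith [ht.2]⟩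
  have hI' : ∀ t ∈ Ioo 0 (T - a), a + t ∈ Ioo T₁ T := fun t ht =>
    ⟨by linarith [ht.1], by linarith [ht.2]⟩
  obtain ⟨C, hC⟩ : ∃ C : ℝ → ℝ, C = fun t => c (a + t) + K := ⟨_, rfl⟩
  have hC0 : ∀ t ∈ Ico 0 (T - a), 0 ≤ C t := fun t ht => by
    have := hc0 _ (hI t ht)
    rw [hC]
    show 0 ≤ c (a + t) + K
    linarith
  have hCc : ContinuousOn C (Ico 0 (T - a)) := by
    rw [hC]
    exact (hcc.comp (f := fun t => a + t) (by fun_prop) fun t ht => hI t ht).add
      continuousOn_const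
  have hCd : ∀ t ∈ Ioo 0 (T - a), HasDerivAt C (c' (a + t)) t := by
    intro t ht
    rw [hC]
    have h1 := (hcd _ (hI' t ht)).comp_const_add a t
    exact h1.add_const K
  have hsq : ∀ x, √(sg x) ^ 2 = sg x := fun x => Real.sq_sqrt (sg_nonneg x)
  have key := cmpRT one_pos (h.tr ha0) (S := R ^ 2)
    (Φ := fun t r => κ * 1 + C t * √r + 0 * Real.exp (0 * t) * (1 + r))
    (fun t ht σ hσ => by
      have h1 := hC0 t ht
      have h2 := hσ.1
      positivity)
    (by
      have h1 : ContinuousOn (fun z : ℝ × ℝ => C z.1) (Ico 0 (T - a) ×ˢ Icc 0 (R ^ 2)) :=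
        hCc.comp continuous_fst.continuousOn fun z hz => hz.1
      have h2 : Continuous fun z : ℝ × ℝ => √z.2 := by fun_prop
      have h3 : Continuous fun z : ℝ × ℝ => 0 * Real.exp (0 * z.1) * (1 + z.2) := by fun_prop
      exact (continuousOn_const.add (h1.mul h2.continuousOn)).add h3.continuousOn)
    (fun t ht => by
      intro σ hσ σ' hσ' hle
      have h1 := hC0 t ⟨ht.1.le, ht.2⟩
      have h2 := mul_le_mul_of_nonneg_left (Real.sqrt_le_sqrt hle) h1
      beta_reduce
      linarith)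
    (fun t ht x hx => by
      have h1 := norm_le_nsq hU0 (hU t ht x hx.ge)
      have h2 := (rad_le (u (a + t)) x)
      have h3 := neg_abs_le (rad (u (a + t)) x)
      rw [hx, Real.sqrt_sq hR.le] at h2
      rw [Real.sqrt_sq hR.le]
      have h4 : 2 * R * ‖u (a + t) x‖ ≤ 2 * R * U := by gcongr
      have h5 := hc0 _ (hI t ht)
      have h6 : 2 * R * U ≤ C t * R := by
        rw [hC]
        show 2 * R * U ≤ (c (a + t) + K) * R
        have : 2 * U ≤ c (a + t) + K := by linarith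
        nlinarith
      linarith)
    (fun x hx => by
      have h1 := hU' (a + 0) ⟨by linarith, by linarith⟩ x
      have h2 := (rad_le (u (a + 0)) x)
      have h3 := neg_abs_le (rad (u (a + 0)) x)
      have hs := Real.sqrt_nonneg (sg x)
      have h4 : 2 * √(sg x) * ‖u (a + 0) x‖ ≤ 2 * √(sg x) * U' := by gcongr
      have h5 := hc0 _ (hI 0 ⟨le_rfl, by linarith⟩)
      have h6 : 2 * √(sg x) * U' ≤ C 0 * √(sg x) := by
        rw [hC]
        show 2 * √(sg x) * U' ≤ (c (a + 0) + K) * √(sg x)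
        have : 2 * U' ≤ c (a + 0) + K := by linarith
        nlinarith
      linarith)
    (fun t ht x hx hxR hrad => by
      refine ⟨_, _, _, _, _, maj_rad (κ := κ) (ν := 1) (η := 0) (L := 0) (c' := fun t => c' (a + t))
        hx (hCd t ht), fun hz hr hrec => ?_⟩
      have hs : 0 < √(sg x) := Real.sqrt_pos.2 hx
      have hs2 := hsq x
      beta_reduce at hr hrad ⊢
      have hr' : rd (rad (u (a + t))) x = -(C t * √(sg x)) := by
        unfold rd
        rw [hr]
        have e : sg x = √(sg x) ^ 2 := hs2.symm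
        generalize √(sg x) = s at hs e ⊢
        rw [e]
        field_simp
        ring
      have h1 := hp (a + t) (hI' t ht) x hx hxR hz (by
        rw [hr', hC, neg_neg]
        show c (a + t) * √(sg x) < (c (a + t) + K) * √(sg x)
        apply mul_lt_mul_of_pos_right _ hs
        linarith) (by
        rw [hr']
        linarith) hrec
      rw [hr', ← hs2] at h1
      have h2 := alg_touch (C := C t) (c' := c' (a + t)) (s := √(sg x)) (r := rad (u (a + t)) x)
        (G := circ (u (a + t)) x) (P := rd (p (a + t)) x) hs (by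
          refine h1.trans (le_of_eq ?_)
          have e2 : √(√(sg x) ^ 2) = √(sg x) := Real.sqrt_sq hs.le
          rw [e2]
          ring)
      rw [hs2] at h2
      unfold rd at h2
      simpa using h2)
  -- the Morrey bound
  have hT0 : 0 < T := by linarith
  refine H (T - a) (fun t => u (a + t)) (fun t => p (a + t)) hrs E hE en dis 0
    (4 * A + 4 * K ^ q * T ^ (q / 2)) 0 3 (R + 1) R C le_rfl (by linarith) (by positivity) le_rfl
    (by norm_num) hR (by linarith) hCc hC0 ?_ ?_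
  · intro s t hs hst ht
    obtain ⟨ℓ, hℓ⟩ : ∃ ℓ : ℝ, ℓ = Real.log (2 + |Real.log (t - s)|) ^ (1 - q / 2) := ⟨_, rfl⟩
    have h1 := hcM (a + s) (a + t) (by linarith) (by linarith) (by linarith)
    have e : a + t - (a + s) = t - s := by ring
    rw [e, ← hℓ] at h1
    rw [← hℓ]
    have hts : 0 < t - s := by linarith
    have hcont : ContinuousOn (fun r => c (a + r)) (uIcc s t) :=
      hcc.comp (f := fun t => a + t) (by fun_prop) fun r hr => by
        rw [uIcc_of_le hst.le] at hr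
        exact hI r ⟨by linarith [hr.1], by linarith [hr.2]⟩
    have hq0 : 0 ≤ q := by linarith
    have i1 : IntervalIntegrable (fun r => c (a + r) ^ q) volume s t :=
      (hcont.rpow_const fun _ _ => Or.inr hq0).intervalIntegrable
    have i2 : IntervalIntegrable (fun r => C r ^ q) volume s t := by
      rw [hC]
      exact ((hcont.add continuousOn_const).rpow_const fun _ _ => Or.inr hq0).intervalIntegrable
    have h2 : ∫ r in s..t, C r ^ q ≤ ∫ r in s..t, 4 * (c (a + r) ^ q + K ^ q) := by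
      refine intervalIntegral.integral_mono_on hst.le i2
        ((i1.add intervalIntegrable_const).const_mul 4) fun r hr => ?_
      have := hc0 _ (hI r ⟨by linarith [hr.1], by linarith [hr.2]⟩)
      rw [hC]
      exact add_rpow4 hq hq2 this hK0.le
    have h3 : ∫ r in s..t, 4 * (c (a + r) ^ q + K ^ q)
        = 4 * ((∫ r in (a + s)..(a + t), c r ^ q) + (t - s) * K ^ q) := by
      rw [intervalIntegral.integral_const_mul, intervalIntegral.integral_add i1
        intervalIntegrable_const, intervalIntegral.integral_comp_add_left (fun r => c r ^ q) a,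
        intervalIntegral.integral_const, smul_eq_mul]
    have h4 : t - s ≤ T ^ (q / 2) * (t - s) ^ (1 - q / 2) := by
      calc t - s = (t - s) ^ (q / 2) * (t - s) ^ (1 - q / 2) := by
            rw [← Real.rpow_add hts]
            have : q / 2 + (1 - q / 2) = 1 := by ring
            rw [this, Real.rpow_one]
        _ ≤ _ := by
          apply mul_le_mul_of_nonneg_right _ (Real.rpow_nonneg hts.le _)
          exact Real.rpow_le_rpow hts.le (by linarith) (by linarith)
    have hKq : 0 ≤ K ^ q := Real.rpow_nonneg hK0.le _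
    have h5 := mul_le_mul_of_nonneg_right h4 hKq
    calc ∫ r in s..t, C r ^ q
        ≤ 4 * ((∫ r in (a + s)..(a + t), c r ^ q) + (t - s) * K ^ q) := by rw [← h3]; exact h2
      _ ≤ 4 * ((A + c₀ / 4 * ℓ) * (t - s) ^ (1 - q / 2)
          + T ^ (q / 2) * (t - s) ^ (1 - q / 2) * K ^ q) := by linarith
      _ = _ := by ring
  · intro t ht x hx hxR _ _
    have h1 := key t ⟨ht.1.le, ht.2⟩ x hxR.le
    beta_reduce at h1
    have h2 : rad (u (a + t)) x = x 0 * u (a + t) x 0 + x 1 * u (a + t) x 1 := rfl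
    rw [← h2]
    linarith

end Pool.Agent.X96.AT
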