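import Pool.Agent.X96.AT.Out2

/-!
Axisymmetric flows (helper96): regularity from logarithmic decay of the circulation, and from
one-sided bounds of the radial velocity at the touching points.
-/

set_option autoImplicit false

open MeasureTheory Set Metric Filter Topology
open scoped ContDiff ENNReal

namespace Pool.Agent.X96.AT

open H459R3.NS W221.NS Pool.Agent.TH305.AX Pool.Agent.X96.AX
open Pool.Agent.X96.AR hiding sm_sg
open Pool.Agent.TH305.DR hiding gg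

variable {ν T : ℝ} {u : ℝ → V → V} {p : ℝ → V → ℝ}

/-- the maximum principle -/
lemma circ_maxB (hν : 0 < ν) (h : BSol ν T u p) {M : ℝ} (hM : ∀ x, |circ (u 0) x| ≤ M) :
    ∀ t ∈ Ico 0 T, ∀ x, |circ (u t) x| ≤ M := by
  intro t ht x
  have hM0 : 0 ≤ M := (abs_nonneg _).trans (hM 0)
  apply le_of_forall_pos_le_add
  intro ε hε
  have h1 := cmpB hν h (A := 0) (δ := M + ε) le_rfl (by linarith) (Φ := fun _ _ => 0)
    (fun _ _ _ _ => le_rfl) continuousOn_const (fun x => by linarith [hM x])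
    (fun t ht x hx _ => ⟨fun _ => 0, fun _ => 0, 0, 0, fun _ => 0,
      ⟨contDiffAt_const, Eventually.of_forall fun r => hasDerivAt_const _ _, hasDerivAt_const _ _,
        Eventually.of_forall fun r => le_rfl, rfl, Eventually.of_forall fun r => le_rfl, rfl,
        hasDerivAt_const _ _⟩, by simp⟩) t ht x
  simpa using h1

/-- `u_θ² ≤ |u|²` -/
lemma gg_le_nsq {v : V → V} (hv : ContDiff ℝ ∞ v) (ha : Axi v) (x : V) :
    sg x * AR.gg v x ^ 2 ≤ nsq v x := by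
  unfold nsq
  rw [Fin.sum_univ_three, cmp0 hv ha, cmp1 hv ha]
  have e : (x 0 * ff v x - x 1 * AR.gg v x) ^ 2 + (x 1 * ff v x + x 0 * AR.gg v x) ^ 2
      = sg x * AR.gg v x ^ 2 + sg x * ff v x ^ 2 := by
    unfold sg
    ring
  rw [e]
  have := sq_nonneg (v x 2)
  have := mul_nonneg (sg_nonneg x) (sq_nonneg (ff v x))
  linarith

/-- **Regularity from logarithmic smallness.** -/
theorem reg_of_log (h : RS T u p) {E M N α L R t₀ : ℝ} (hE : 0 ≤ E) (ht₀ : 0 < t₀) (ht₀T : t₀ < T)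
    (hM : 0 ≤ M) (hN : 0 ≤ N) (hα : 2 < α) (hR : 0 < R) (hRL : R < L)
    (en : ∀ t ∈ Ioo 0 T, ∫ x, nsq (u t) x ≤ E ^ 2)
    (dis : ∀ s t, 0 < s → s ≤ t → t < T → ∫ τ in s..t, ∫ x, gsq (u τ) x ≤ E ^ 2)
    (hMb : ∀ t ∈ Ico t₀ T, ∀ x, sg x ≤ R ^ 2 → |circ (u t) x| ≤ M)
    (hlog : ∀ t ∈ Ico t₀ T, ∀ x, 0 < sg x → sg x ≤ R ^ 2 →
      |circ (u t) x| ≤ N * Real.log (L / √(sg x)) ^ (-α)) :
    ∃ U : ℝ, ∀ t ∈ Ico 0 T, ∀ x, ‖u t x‖ ≤ U := by
  have hL : 0 < L := by linarith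
  obtain ⟨U, hU0, hU⟩ := out_bdd h hE (by linarith) en dis hR
  have hI : ∀ t ∈ Ico t₀ T, t ∈ Ico 0 T := fun t ht => ⟨ht₀.le.trans ht.1, ht.2⟩
  have hce : ∀ t ∈ Ico t₀ T, ∀ x, circ (u t) x = sg x * AR.gg (u t) x := fun t ht x =>
    circ_eq (h.sol.slice0 (hI t ht)) (h.sol.axi t (hI t ht)) x
  have hout : ∀ t ∈ Ico t₀ T, ∀ x, R ^ 2 ≤ sg x → sg x * AR.gg (u t) x ^ 2 ≤ U ^ 2 :=
    fun t ht x hx => (gg_le_nsq (h.sol.slice0 (hI t ht)) (h.sol.axi t (hI t ht)) x).trans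
      (hU t (hI t ht) x hx)
  refine Cr.bdd (t₀ := t₀) (E := E) (M := M + U) ⟨h, ht₀, ht₀T, by positivity, en, dis, ?_, ?_,
    ?_⟩ hE
  · intro t ht x
    rcases le_total (sg x) (R ^ 2) with hx | hx
    · left
      rw [← hce t ht x]
      linarith [hMb t ht x hx]
    · right
      refine (hout t ht x hx).trans ?_
      exact pow_le_pow_left₀ hU0 (by linarith) 2
  · -- smallness near the axis
    have hlim : Tendsto (fun y : ℝ => N * y ^ (-α)) atTop (𝓝 (N * 0)) :=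
      (tendsto_rpow_neg_atTop (by linarith)).const_mul N
    rw [mul_zero] at hlim
    obtain ⟨y₀, hy₀⟩ := eventually_atTop.1 (hlim.eventually (gt_mem_nhds
      (show (0 : ℝ) < 1 / 4 by norm_num)))
    obtain ⟨r, hr⟩ : ∃ r : ℝ, r = min R (L * Real.exp (-y₀)) := ⟨_, rfl⟩
    have hr0 : 0 < r := by rw [hr]; exact lt_min hR (by positivity)
    have hrR : r ≤ R := by rw [hr]; exact min_le_left _ _
    have hrL : r ≤ L * Real.exp (-y₀) := by rw [hr]; exact min_le_right _ _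
    refine ⟨r, hr0, fun t ht x hx => ?_⟩
    rw [← hce t ht x]
    rcases eq_or_lt_of_le (sg_nonneg x) with h0 | h0
    · rw [circ_axis (u t) h0.symm, abs_zero]
      norm_num
    · refine (hlog t ht x h0 (hx.trans (by gcongr))).trans (hy₀ _ ?_).le
      have h1 : √(sg x) ≤ r := Real.sqrt_le_iff.2 ⟨hr0.le, hx⟩
      have h2 : 0 < √(sg x) := Real.sqrt_pos.2 h0
      rw [Real.le_log_iff_exp_le (by positivity), le_div_iff₀ h2]
      calc Real.exp y₀ * √(sg x) ≤ Real.exp y₀ * (L * Real.exp (-y₀)) := by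
            gcongr
            exact h1.trans hrL
        _ = L := by rw [Real.exp_neg]; field_simp
  · obtain ⟨A, B, hA, hB, H⟩ := log_pd hα hR hRL hN hM
    refine FSm_of (s := α - 1) (A := A) (B := B + U / R) (fun t ht => ?_) (by linarith) hA
      (by positivity) (fun t ht x hx => ?_)
    · exact (sm_gg (h.sol.slice0 (hI t ht))).continuous
    · have hσ : 0 < sg x := lt_of_le_of_ne (sg_nonneg x) hx.symm
      rcases le_total (sg x) (R ^ 2) with hxR | hxR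
      · have h1 := H x (circ (u t) x) hx (hMb t ht x hxR) (fun _ => hlog t ht x hσ hxR)
        rw [hce t ht x, abs_mul, abs_of_pos hσ, mul_div_cancel_left₀ _ hσ.ne'] at h1
        have : 0 ≤ U / R := by positivity
        linarith
      · have h1 := hout t ht x hxR
        have h2 : |AR.gg (u t) x| ≤ U / R := by
          rw [le_div_iff₀ hR]
          have h3 : (|AR.gg (u t) x| * R) ^ 2 ≤ U ^ 2 := by
            rw [mul_pow, sq_abs]
            calc AR.gg (u t) x ^ 2 * R ^ 2 ≤ AR.gg (u t) x ^ 2 * sg x :=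
                  mul_le_mul_of_nonneg_left hxR (sq_nonneg _)
              _ = sg x * AR.gg (u t) x ^ 2 := by ring
              _ ≤ U ^ 2 := h1
          exact le_of_sq_le_sq h3 hU0
        have h4 : 0 ≤ Pd (α - 1) (sg x) := by
          unfold Pd
          have h5 : 0 < lg (sg x) := zero_lt_one.trans_le (lg_ge hσ)
          have h6 : 0 < α - 1 := by linarith
          positivity
        have h7 : 0 ≤ A * Pd (α - 1) (sg x) := mul_nonneg hA h4
        linarith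

/-- the circulation is bounded in cylinders -/
lemma circ_cyl (h : RS T u p) {E R t₀ : ℝ} (hE : 0 ≤ E) (ht₀ : 0 < t₀) (ht₀T : t₀ < T)
    (hR : 0 < R) (en : ∀ t ∈ Ioo 0 T, ∫ x, nsq (u t) x ≤ E ^ 2)
    (dis : ∀ s t, 0 < s → s ≤ t → t < T → ∫ τ in s..t, ∫ x, gsq (u τ) x ≤ E ^ 2) :
    ∃ M : ℝ, 0 ≤ M ∧ ∀ t ∈ Ico t₀ T, ∀ x, sg x ≤ R ^ 2 → |circ (u t) x| ≤ M := by
  obtain ⟨U, hU0, hU⟩ := out_bdd h hE (by linarith) en dis hR
  obtain ⟨U', hU'0, hU'⟩ := h.sol.u_bdd ht₀T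
  have hsq : ∀ x, sg x ≤ R ^ 2 → √(sg x) ≤ R := fun x hx => Real.sqrt_le_iff.2 ⟨hR.le, hx⟩
  refine ⟨2 * R * (U + U'), by positivity, fun t ht x hx => ?_⟩
  have key := cmpL one_pos (BSol.shift h.sol ht₀.le) (S := R ^ 2) (by positivity)
    (Φ := fun _ _ => 2 * R * (U + U')) (fun _ _ _ _ => by positivity) continuousOn_const
    (fun s hs y hy => by
      have h1 : nsq (u (t₀ + s)) y ≤ U ^ 2 :=
        hU (t₀ + s) ⟨by linarith [hs.1], by linarith [hs.2]⟩ y hy.ge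
      have h2 := norm_le_nsq hU0 h1
      calc |circ (u (t₀ + s)) y| ≤ 2 * √(sg y) * ‖u (t₀ + s) y‖ := circ_le _ _
        _ ≤ 2 * R * (U + U') := by
          have := hsq y hy.le
          gcongr
          linarith)
    (fun y hy => by
      have h2 := hU' (t₀ + 0) ⟨by linarith, by linarith⟩ y
      calc |circ (u (t₀ + 0)) y| ≤ 2 * √(sg y) * ‖u (t₀ + 0) y‖ := circ_le _ _
        _ ≤ 2 * R * (U + U') := by
          have := hsq y hy
          gcongr
          linarith)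
    (fun s hs y hy hyS hbig => ⟨fun _ => 2 * R * (U + U'), fun _ => 0, 0, 0,
      fun _ => 2 * R * (U + U'),
      ⟨contDiffAt_const, Eventually.of_forall fun r => hasDerivAt_const _ _, hasDerivAt_const _ _,
        Eventually.of_forall fun r => le_rfl, rfl, Eventually.of_forall fun r => le_rfl, rfl,
        hasDerivAt_const _ _⟩, by simp⟩) (t - t₀) ⟨by linarith [ht.1], by linarith [ht.2]⟩ x hx
  have e : t₀ + (t - t₀) = t := by ring
  rw [e] at key
  exact key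

/-- **Regularity from a one-sided bound of the radial velocity.** -/
theorem regE {q κ : ℝ} (hq : 1 ≤ q) (hq2 : q < 2) (hκ : κ < q ∨ q = 1 ∧ κ ≤ 1) :
    ∃ c₀ : ℝ, 0 < c₀ ∧ ∀ (T : ℝ) (u : ℝ → V → V) (p : ℝ → V → ℝ), RS T u p →
      ∀ E : ℝ, 0 ≤ E → (∀ t ∈ Ioo 0 T, ∫ x, nsq (u t) x ≤ E ^ 2) →
      (∀ s t, 0 < s → s ≤ t → t < T → ∫ τ in s..t, ∫ x, gsq (u τ) x ≤ E ^ 2) →
      ∀ (T₁ A N α L R : ℝ) (β : ℝ → ℝ), 0 ≤ T₁ → T₁ < T → 0 ≤ A → 0 ≤ N → 2 < α → 0 < R → R < L →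
      ContinuousOn β (Ico T₁ T) → (∀ t ∈ Ico T₁ T, 0 ≤ β t) →
      (∀ s t, T₁ ≤ s → s < t → t < T → ∫ r in s..t, β r ^ q
        ≤ (A + c₀ * Real.log (2 + |Real.log (t - s)|) ^ (1 - q / 2)) * (t - s) ^ (1 - q / 2)) →
      (∀ t ∈ Ioo T₁ T, ∀ x, 0 < sg x → sg x < R ^ 2 →
        N * Real.log (L / √(sg x)) ^ (-α) < |circ (u t) x| → Tch (u t) x →
        -κ - β t * √(sg x) ≤ x 0 * u t x 0 + x 1 * u t x 1) →
      ∃ U : ℝ, ∀ t ∈ Ico 0 T, ∀ x, ‖u t x‖ ≤ U := by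
  obtain ⟨k₁, hk₁, hy⟩ := young_q hq hκ
  obtain ⟨a, ha⟩ : ∃ a : ℝ, a = 1 - q / 2 := ⟨_, rfl⟩
  have ha0 : 0 < a := by linarith
  have ha2 : a ≤ 1 / 2 := by linarith
  -- the constant
  have hcc := cc_pos ha0
  refine ⟨cc a / (2 * a * (k₁ + 1)), by positivity, ?_⟩
  intro T u p h E hE en dis T₁ A N α L R β hT₁ hT₁T hA hN hα hR hRL hβ hβ0 hβC hcond
  obtain ⟨t₀, ht₀⟩ : ∃ t₀ : ℝ, t₀ = (T₁ + T) / 2 := ⟨_, rfl⟩
  have ht₀1 : T₁ < t₀ := by linarith
  have ht₀T : t₀ < T := by linarith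
  have ht₀0 : 0 < t₀ := by linarith
  obtain ⟨M, hM0, hMb⟩ := circ_cyl h hE ht₀0 ht₀T hR en dis
  obtain ⟨τ, hτ⟩ : ∃ τ : ℝ, τ = (T - t₀) / 2 := ⟨_, rfl⟩
  have hτ0 : 0 < τ := by linarith
  have hts := RS.ts h ht₀0
  obtain ⟨Λ, hΛ0, hΛ⟩ := logT (a := a) ha0 ha2 hts (A := 2 * a * k₁ * A) (N := N) (M := M) (α := α)
    (α' := (2 + α) / 2) (L := L) (R := R) (τ := τ) (by positivity) hN hM0 (by linarith)
    (by linarith) hR hRL hτ0 (b := fun r => 2 * a * k₁ * β (t₀ + r) ^ q)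
    (continuousOn_const.mul ((hβ.comp (f := fun r => t₀ + r) (by fun_prop)
      fun r hr => ⟨by linarith [hr.1], by linarith [hr.2]⟩).rpow_const
      fun z hz => Or.inr (by linarith)))
    (fun r hr => by
      have := hβ0 (t₀ + r) ⟨by linarith [hr.1], by linarith [hr.2]⟩
      positivity)
    (fun s t hs hst ht => by
      rw [intervalIntegral.integral_const_mul,
        intervalIntegral.integral_comp_add_left (fun r => β r ^ q) t₀]
      have h1 := hβC (t₀ + s) (t₀ + t) (by linarith) (by linarith) (by linarith)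
      have e1 : t₀ + t - (t₀ + s) = t - s := by ring
      rw [e1, ← ha] at h1
      have h2 := mul_le_mul_of_nonneg_left h1 (show 0 ≤ 2 * a * k₁ by positivity)
      refine h2.trans ?_
      have hℓ : 0 ≤ Real.log (2 + |Real.log (t - s)|) ^ a := Real.rpow_nonneg
        (Real.log_nonneg (by linarith [abs_nonneg (Real.log (t - s))])) _
      have hts : 0 ≤ (t - s) ^ a := Real.rpow_nonneg (by linarith) _
      rw [← mul_assoc]
      apply mul_le_mul_of_nonneg_right _ hts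
      have h3 : 2 * a * k₁ * (cc a / (2 * a * (k₁ + 1))) ≤ cc a := by
        have e : 2 * a * k₁ * (cc a / (2 * a * (k₁ + 1))) = cc a * (k₁ / (k₁ + 1)) := by
          field_simp
        rw [e]
        apply mul_le_of_le_one_right hcc.le
        rw [div_le_one (by linarith)]
        linarith
      have h4 := mul_le_mul_of_nonneg_right h3 hℓ
      linarith)
    (fun t ht x hx => hMb (t₀ + t) ⟨by linarith [ht.1], by linarith [ht.2]⟩ x hx)
    (fun t ht x hx hx2 hx3 hx4 => by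
      have h1 := hcond (t₀ + t) ⟨by linarith [ht.1], by linarith [ht.2]⟩ x hx hx2 hx3 hx4
      have h2 := cond_conv (ν := 1) hq one_pos hy hq2
        (hβ0 (t₀ + t) ⟨by linarith [ht.1], by linarith [ht.2]⟩) hx.le
        (w := x 0 * u (t₀ + t) x 0 + x 1 * u (t₀ + t) x 1) (by rw [mul_one]; exact h1)
      rw [← ha, mul_one, Real.one_rpow, mul_one] at h2
      have e : 2 * a * k₁ * β (t₀ + t) ^ q = 2 * a * (k₁ * β (t₀ + t) ^ q) := by ring
      rw [e]
      exact h2)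
  refine reg_of_log h (t₀ := t₀ + τ) hE (by linarith) (by linarith) hM0 hΛ0
    (α := (2 + α) / 2) (by linarith) hR hRL en dis
    (fun t ht x hx => hMb t ⟨by linarith [ht.1], ht.2⟩ x hx) (fun t ht x hx hxR => ?_)
  have h1 := hΛ (t - t₀) ⟨by linarith [ht.1], by linarith [ht.2]⟩ x hx hxR
  have e : t₀ + (t - t₀) = t := by ring
  rw [e] at h1
  exact h1

/-- **The same for the class of solutions with a pressure in `H¹`.** -/
theorem regP {q κ : ℝ} (hq : 1 ≤ q) (hq2 : q < 2) (hκ : κ < q ∨ q = 1 ∧ κ ≤ 1) :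
    ∃ c₀ : ℝ, 0 < c₀ ∧ ∀ (T : ℝ) (u : ℝ → V → V) (p : ℝ → V → ℝ), RP T u p →
      ∀ (T₁ A N α L R : ℝ) (β : ℝ → ℝ), 0 ≤ T₁ → T₁ < T → 0 ≤ A → 0 ≤ N → 2 < α → 0 < R → R < L →
      ContinuousOn β (Ico T₁ T) → (∀ t ∈ Ico T₁ T, 0 ≤ β t) →
      (∀ s t, T₁ ≤ s → s < t → t < T → ∫ r in s..t, β r ^ q
        ≤ (A + c₀ * Real.log (2 + |Real.log (t - s)|) ^ (1 - q / 2)) * (t - s) ^ (1 - q / 2)) →
      (∀ t ∈ Ioo T₁ T, ∀ x, 0 < sg x → sg x < R ^ 2 →
        N * Real.log (L / √(sg x)) ^ (-α) < |circ (u t) x| → Tch (u t) x →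
        -κ - β t * √(sg x) ≤ x 0 * u t x 0 + x 1 * u t x 1) →
      ∃ U : ℝ, ∀ t ∈ Ico 0 T, ∀ x, ‖u t x‖ ≤ U := by
  obtain ⟨c₀, hc₀, H⟩ := regE hq hq2 hκ
  refine ⟨c₀, hc₀, ?_⟩
  intro T u p h T₁ A N α L R β hT₁ hT₁T hA hN hα hR hRL hβ hβ0 hβC hcond
  obtain ⟨a, ha⟩ : ∃ a : ℝ, a = (T₁ + T) / 4 := ⟨_, rfl⟩
  have ha0 : 0 < a := by linarith
  have haT : a < T := by linarith
  obtain ⟨E, hE⟩ : ∃ E : ℝ, E = √(∫ x, nsq (u a) x) := ⟨_, rfl⟩
  have hE0 : 0 ≤ E := by rw [hE]; exact Real.sqrt_nonneg _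
  have hn0 : ∀ t, 0 ≤ ∫ x, nsq (u t) x := fun t =>
    integral_nonneg fun x => by show (0 : ℝ) ≤ nsq (u t) x; unfold nsq; positivity
  have hE2 : E ^ 2 = ∫ x, nsq (u a) x := by rw [hE, Real.sq_sqrt (hn0 a)]
  have hg0 : ∀ τ, 0 ≤ ∫ x, gsq (u τ) x := fun τ =>
    integral_nonneg fun x => by show (0 : ℝ) ≤ gsq (u τ) x; unfold gsq; positivity
  have h1 : ∀ s t, a ≤ s → s ≤ t → t < T → ∫ x, nsq (u t) x = (∫ x, nsq (u s) x)
      - 2 * ∫ τ in s..t, ∫ x, gsq (u τ) x := fun s t hs hst ht =>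
    h.energy (ha0.trans_le hs) hst ht
  have hen : ∀ t, a ≤ t → t < T → ∫ x, nsq (u t) x ≤ E ^ 2 := by
    intro t hat htT
    have := h1 a t le_rfl hat htT
    have h3 : 0 ≤ ∫ τ in a..t, ∫ x, gsq (u τ) x :=
      intervalIntegral.integral_nonneg hat fun τ _ => hg0 τ
    rw [hE2]
    linarith
  obtain ⟨U, hU⟩ := H (T - a) (fun t => u (a + t)) (fun t => p (a + t)) (RS.shift h.rs ha0.le) E hE0
    (fun t ht => hen (a + t) (by linarith [ht.1]) (by linarith [ht.2]))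
    (fun s t hs hst ht => by
      rw [intervalIntegral.integral_comp_add_left (fun τ => ∫ x, gsq (u τ) x) a]
      have h2 := h1 (a + s) (a + t) (by linarith) (by linarith) (by linarith)
      have h3 := hen (a + s) (by linarith) (by linarith)
      have h4 := hn0 (a + t)
      have h5 : 0 ≤ ∫ τ in (a + s)..(a + t), ∫ x, gsq (u τ) x :=
        intervalIntegral.integral_nonneg (by linarith) fun τ _ => hg0 τ
      linarith)
    a A N α L R (fun t => β (a + t)) ha0.le (by linarith) hA hN hα hR hRL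
    (hβ.comp (f := fun t => a + t) (by fun_prop) fun t ht =>
      ⟨by linarith [ht.1], by linarith [ht.2]⟩)
    (fun t ht => hβ0 (a + t) ⟨by linarith [ht.1], by linarith [ht.2]⟩)
    (fun s t hs hst ht => by
      rw [intervalIntegral.integral_comp_add_left (fun τ => β τ ^ q) a]
      have h2 := hβC (a + s) (a + t) (by linarith) (by linarith) (by linarith)
      have e : a + t - (a + s) = t - s := by ring
      rw [e] at h2
      exact h2)
    (fun t ht x hx hx2 hx3 hx4 => hcond (a + t) ⟨by linarith [ht.1], by linarith [ht.2]⟩ x hx hx2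
      hx3 hx4)
  obtain ⟨U', hU'⟩ := h.rs.sol.bdd a haT
  refine ⟨max U U', fun t ht x => ?_⟩
  rcases le_total t a with hta | hta
  · exact (hU' t ⟨ht.1, hta⟩ x).trans (le_max_right _ _)
  · have h2 := hU (t - a) ⟨by linarith, by linarith [ht.2]⟩ x
    have e : a + (t - a) = t := by ring
    rw [e] at h2
    exact h2.trans (le_max_left _ _)

end Pool.Agent.X96.AT
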