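import Pool.Agent.X96.AT.Reg

/-!
Axisymmetric flows (helper96): change of the viscosity by scaling.
-/

set_option autoImplicit false

open MeasureTheory Set Metric Filter Topology
open scoped ContDiff ENNReal

namespace Pool.Agent.X96.AT

open H459R3.NS W221.NS Pool.Agent.TH305.AX Pool.Agent.X96.AX
open Pool.Agent.X96.AR hiding sm_sg
open Pool.Agent.TH305.DR hiding gg

variable {ν T c : ℝ} {u : ℝ → V → V} {p : ℝ → V → ℝ}

lemma circ_smul (c : ℝ) (v : V → V) : circ (fun x => c • v x) = fun x => c * circ v x := by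
  funext x
  unfold circ
  simp only [Pi.smul_apply, smul_eq_mul]
  ring

/-- Change of the viscosity. -/
theorem bsol_scale (h : BSol ν T u p) (hc : 0 < c) (hcν : c * ν = 1) :
    BSol 1 (T / c) (fun s x => c • u (c * s) x) (fun s x => c ^ 2 * p (c * s) x) where
  smooth_u := by
    have h1 := h.smooth_u.comp (f := fun z : ℝ × V => (c * z.1, z.2))
      (s := Ico 0 (T / c) ×ˢ univ) (by fun_prop)
      (fun z hz => ⟨⟨mul_nonneg hc.le hz.1.1, by
        have := (lt_div_iff₀ hc).1 hz.1.2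
        linarith⟩, trivial⟩)
    exact h1.const_smul c
  smooth_p := by
    have h1 := h.smooth_p.comp (f := fun z : ℝ × V => (c * z.1, z.2))
      (s := Ioo 0 (T / c) ×ˢ univ) (by fun_prop)
      (fun z hz => ⟨⟨mul_pos hc hz.1.1, by
        have := (lt_div_iff₀ hc).1 hz.1.2
        linarith⟩, trivial⟩)
    exact contDiffOn_const.mul h1
  divfree := by
    intro t ht x
    have h1 := h.divfree (c * t) ⟨mul_nonneg hc.le ht.1, by
      have := (lt_div_iff₀ hc).1 ht.2
      linarith⟩ x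
    have e : ∀ i : Fin 3, pd i (fun y => (c • u (c * t) y) i) x
        = c * pd i (fun y => u (c * t) y i) x := by
      intro i
      have e1 : (fun y => (c • u (c * t) y) i) = fun y => c * u (c * t) y i := rfl
      rw [e1, pd_cmul]
    simp only [e]
    rw [← Finset.mul_sum, h1, mul_zero]
  momentum := by
    intro t ht x i
    have h1 := h.momentum (c * t) ⟨mul_pos hc ht.1, by
      have := (lt_div_iff₀ hc).1 ht.2
      linarith⟩ x i
    have e0 : (fun s => (c • u (c * s) x) i) = fun s => c * (fun s => u s x i) (c * s) := rfl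
    have e1 : deriv (fun s => (c • u (c * s) x) i) t
        = c ^ 2 * deriv (fun s => u s x i) (c * t) := by
      have e1 := deriv_comp_mul_left c (fun s => u s x i) t
      rw [e0, deriv_const_mul_field, e1, smul_eq_mul]
      ring
    have e2 : ∀ j : Fin 3, pd j (fun y => (c • u (c * t) y) i)
        = fun y => c * pd j (fun y => u (c * t) y i) y := by
      intro j
      have e1 : (fun y => (c • u (c * t) y) i) = fun y => c * u (c * t) y i := rfl
      rw [e1, pd_cmul]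
    have e3 : pd i (fun y => c ^ 2 * p (c * t) y) x = c ^ 2 * pd i (p (c * t)) x := by
      rw [pd_cmul]
    rw [e1, e3]
    simp only [e2, pd_cmul]
    have e4 : ∑ j, (c • u (c * t) x) j * (c * pd j (fun y => u (c * t) y i) x)
        = c ^ 2 * ∑ j, u (c * t) x j * pd j (fun y => u (c * t) y i) x := by
      rw [Finset.mul_sum]
      refine Finset.sum_congr rfl fun j _ => ?_
      simp only [Pi.smul_apply, smul_eq_mul]
      ring
    rw [e4, ← Finset.mul_sum]
    have e5 : c ^ 2 * ν = c := by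
      calc c ^ 2 * ν = c * (c * ν) := by ring
        _ = c := by rw [hcν, mul_one]
    linear_combination (c ^ 2) * h1
      + (∑ j, pd j (pd j fun y => u (c * t) y i) x) * e5
  axi := by
    intro t ht θ x
    have h1 := h.axi (c * t) ⟨mul_nonneg hc.le ht.1, by
      have := (lt_div_iff₀ hc).1 ht.2
      linarith⟩ θ x
    show c • u (c * t) (rot θ x) = rot θ (c • u (c * t) x)
    rw [h1]
    unfold rot
    ext i
    fin_cases i <;> simp <;> ring
  bdd := by
    intro T' hT'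
    have h1 : c * T' < T := by
      have := (lt_div_iff₀ hc).1 hT'
      linarith
    obtain ⟨U, hU⟩ := h.bdd (c * T') h1
    refine ⟨c * U, fun t ht x => ?_⟩
    rw [norm_smul, Real.norm_eq_abs, abs_of_pos hc]
    exact mul_le_mul_of_nonneg_left (hU (c * t) ⟨mul_nonneg hc.le ht.1,
      mul_le_mul_of_nonneg_left ht.2 hc.le⟩ x) hc.le

lemma bd_resc {S : Set ℝ} {f : ℝ → V → ℝ} (h : Bd S f) (a c : ℝ) {S' : Set ℝ}
    (hS : ∀ s ∈ S', c * s ∈ S) : Bd S' (fun s x => a * f (c * s) x) := by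
  obtain ⟨C, hC0, hC⟩ := h
  refine ⟨|a| * C, by positivity, fun t ht => ⟨continuous_const.mul (hC _ (hS t ht)).1,
    fun x => ?_⟩⟩
  rw [abs_mul]
  exact mul_le_mul_of_nonneg_left ((hC _ (hS t ht)).2 x) (abs_nonneg _)

lemma b2_resc {S : Set ℝ} {f : ℝ → V → ℝ} (h : B2 S f) (a c : ℝ) {S' : Set ℝ}
    (hS : ∀ s ∈ S', c * s ∈ S) : B2 S' (fun s x => a * f (c * s) x) := by
  obtain ⟨C, hC0, hC⟩ := h
  refine ⟨a ^ 2 * C, by positivity, fun t ht => ⟨⟨continuous_const.mul (hC _ (hS t ht)).1.1, ?_⟩,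
    ?_⟩⟩
  · have e : (fun x => (a * f (c * t) x) ^ 2) = fun x => a ^ 2 * f (c * t) x ^ 2 := by
      funext x; ring
    rw [e]
    exact (hC _ (hS t ht)).1.2.const_mul _
  · have e : (fun x => (a * f (c * t) x) ^ 2) = fun x => a ^ 2 * f (c * t) x ^ 2 := by
      funext x; ring
    rw [e, integral_const_mul]
    exact mul_le_mul_of_nonneg_left (hC _ (hS t ht)).2 (sq_nonneg _)

lemma hb_resc {S : Set ℝ} (a c : ℝ) {S' : Set ℝ} (hS : ∀ s ∈ S', c * s ∈ S) :
    ∀ {n : ℕ} {f : ℝ → V → ℝ}, HB n S f → HB n S' (fun s x => a * f (c * s) x)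
  | 0, _, h => ⟨bd_resc h.1 a c hS, b2_resc h.2 a c hS⟩
  | n + 1, f, h => ⟨⟨bd_resc h.1.1 a c hS, b2_resc h.1.2 a c hS⟩, fun j => by
      have h1 := hb_resc a c hS (h.2 j)
      have e : (fun t => pd j ((fun s x => a * f (c * s) x) t))
          = fun s x => a * (fun t => pd j (f t)) (c * s) x := by
        funext t x
        show pd j (fun x => a * f (c * t) x) x = a * pd j (f (c * t)) x
        rw [pd_cmul]
      rw [e]
      exact h1⟩

/-- the class with a pressure in `H¹`, all viscosities -/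
theorem rp_scale (h : BSol ν T u p)
    (hu : ∀ a b, 0 < a → b < T → ∀ i n, HB n (Icc a b) fun t x => u t x i)
    (hp : ∀ a b, 0 < a → b < T → HB 1 (Icc a b) p) (hc : 0 < c) (hcν : c * ν = 1) :
    RP (T / c) (fun s x => c • u (c * s) x) (fun s x => c ^ 2 * p (c * s) x) := by
  have hS : ∀ {a b : ℝ}, ∀ s ∈ Icc a b, c * s ∈ Icc (c * a) (c * b) := fun s hs =>
    ⟨mul_le_mul_of_nonneg_left hs.1 hc.le, mul_le_mul_of_nonneg_left hs.2 hc.le⟩
  have hb : ∀ {b : ℝ}, b < T / c → c * b < T := fun h => by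
    have := (lt_div_iff₀ hc).1 h
    linarith
  exact ⟨⟨bsol_scale h hc hcν, fun a b ha hbT i n =>
    hb_resc c c hS (hu (c * a) (c * b) (mul_pos hc ha) (hb hbT) i n)⟩,
    fun a b ha hbT => hb_resc (c ^ 2) c hS (hp (c * a) (c * b) (mul_pos hc ha) (hb hbT))⟩

lemma ell_sub {h c : ℝ} (hh : 0 < h) (hc : 0 < c) {θ : ℝ} (hθ : 0 ≤ θ) (hθ1 : θ ≤ 1) :
    Real.log (2 + |Real.log (c * h)|) ^ θ
      ≤ Real.log (2 + |Real.log h|) ^ θ + Real.log (1 + |Real.log c|) ^ θ := by
  have h1 : 2 + |Real.log (c * h)| ≤ (2 + |Real.log h|) * (1 + |Real.log c|) := by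
    rw [Real.log_mul hc.ne' hh.ne']
    have h2 := abs_add_le (Real.log c) (Real.log h)
    nlinarith [abs_nonneg (Real.log h), abs_nonneg (Real.log c)]
  have h0 := abs_nonneg (Real.log (c * h))
  have h0' := abs_nonneg (Real.log h)
  have h0'' := abs_nonneg (Real.log c)
  have h2 : Real.log (2 + |Real.log (c * h)|)
      ≤ Real.log (2 + |Real.log h|) + Real.log (1 + |Real.log c|) := by
    rw [← Real.log_mul (by linarith) (by linarith)]
    exact Real.log_le_log (by linarith) h1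
  exact (Real.rpow_le_rpow (Real.log_nonneg (by linarith)) h2 hθ).trans
    (Real.rpow_add_le_add_rpow (Real.log_nonneg (by linarith)) (Real.log_nonneg (by linarith))
      hθ hθ1)

/-- **Regularity from a one-sided bound of the radial velocity, all viscosities.** -/
theorem regN {q κ : ℝ} (hq : 1 ≤ q) (hq2 : q < 2) (hκ : κ < q ∨ q = 1 ∧ κ ≤ 1) :
    ∃ c₀ : ℝ, 0 < c₀ ∧ ∀ (ν T : ℝ) (u : ℝ → V → V) (p : ℝ → V → ℝ), 0 < ν → BSol ν T u p →
      (∀ a b, 0 < a → b < T → ∀ i n, HB n (Icc a b) fun t x => u t x i) →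
      (∀ a b, 0 < a → b < T → HB 1 (Icc a b) p) →
      ∀ (T₁ A N α L R : ℝ) (β : ℝ → ℝ), 0 ≤ T₁ → T₁ < T → 0 ≤ A → 0 ≤ N → 2 < α → 0 < R → R < L →
      ContinuousOn β (Ico T₁ T) → (∀ t ∈ Ico T₁ T, 0 ≤ β t) →
      (∀ s t, T₁ ≤ s → s < t → t < T → ∫ r in s..t, β r ^ q
        ≤ (A + c₀ * ν ^ (q / 2) * Real.log (2 + |Real.log (t - s)|) ^ (1 - q / 2))
          * (t - s) ^ (1 - q / 2)) →
      (∀ t ∈ Ioo T₁ T, ∀ x, 0 < sg x → sg x < R ^ 2 →
        N * Real.log (L / √(sg x)) ^ (-α) < |circ (u t) x| → Tch (u t) x →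
        -(κ * ν) - β t * √(sg x) ≤ x 0 * u t x 0 + x 1 * u t x 1) →
      ∃ U : ℝ, ∀ t ∈ Ico 0 T, ∀ x, ‖u t x‖ ≤ U := by
  obtain ⟨c₀, hc₀, H⟩ := regP hq hq2 hκ
  refine ⟨c₀, hc₀, ?_⟩
  intro ν T u p hν h hu hp T₁ A N α L R β hT₁ hT₁T hA hN hα hR hRL hβ hβ0 hβC hcond
  obtain ⟨c, hc⟩ : ∃ c : ℝ, c = ν⁻¹ := ⟨_, rfl⟩
  have hc0 : 0 < c := by rw [hc]; positivity
  have hcν : c * ν = 1 := by rw [hc]; field_simp
  have hrp := rp_scale h hu hp hc0 hcν
  have hdiv : ∀ {x y : ℝ}, x < y / c → c * x < y := fun h => by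
    have := (lt_div_iff₀ hc0).1 h
    linarith
  have hdiv2 : ∀ {x y : ℝ}, y / c ≤ x → y ≤ c * x := fun h => by
    have := (div_le_iff₀ hc0).1 h
    linarith
  have hdiv3 : ∀ {x y : ℝ}, y / c < x → y < c * x := fun h => by
    have := (div_lt_iff₀ hc0).1 h
    linarith
  obtain ⟨θ, hθ⟩ : ∃ θ : ℝ, θ = 1 - q / 2 := ⟨_, rfl⟩
  have hθ0 : 0 < θ := by linarith
  have hθ1 : θ ≤ 1 := by linarith
  have hlc : 0 ≤ Real.log (1 + |Real.log c|) :=
    Real.log_nonneg (by linarith [abs_nonneg (Real.log c)])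
  obtain ⟨U, hU⟩ := H (T / c) _ _ hrp (T₁ / c)
    (A * c ^ (q / 2) + c₀ * Real.log (1 + |Real.log c|) ^ θ) (c * N) α L R
    (fun t => c * β (c * t)) (by positivity) (by gcongr) (by positivity) (by positivity) hα hR hRL
    (continuousOn_const.mul (hβ.comp (f := fun t => c * t) (by fun_prop)
      fun t ht => ⟨hdiv2 ht.1, hdiv ht.2⟩))
    (fun t ht => mul_nonneg hc0.le (hβ0 (c * t) ⟨hdiv2 ht.1, hdiv ht.2⟩))
    (fun s t hs hst ht => by
      rw [← hθ]
      have hcs : T₁ ≤ c * s := hdiv2 hs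
      have hct : c * t < T := hdiv ht
      have hcst : c * s < c * t := mul_lt_mul_of_pos_left hst hc0
      have h1 := hβC (c * s) (c * t) hcs hcst hct
      rw [← hθ] at h1
      have hd : 0 < t - s := by linarith
      have e0 : c * t - c * s = c * (t - s) := by ring
      rw [e0] at h1
      have e1 : ∫ r in s..t, (c * β (c * r)) ^ q
          = c ^ (q - 1) * ∫ r in (c * s)..(c * t), β r ^ q := by
        have e2 : ∫ r in s..t, (c * β (c * r)) ^ q
            = ∫ r in s..t, c ^ q * β (c * r) ^ q := by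
          refine intervalIntegral.integral_congr fun r hr => ?_
          rw [uIcc_of_le hst.le] at hr
          have h3 : 0 ≤ β (c * r) := hβ0 (c * r) ⟨hcs.trans
            (mul_le_mul_of_nonneg_left hr.1 hc0.le),
            (mul_le_mul_of_nonneg_left hr.2 hc0.le).trans_lt hct⟩
          exact Real.mul_rpow hc0.le h3
        rw [e2, intervalIntegral.integral_const_mul,
          intervalIntegral.integral_comp_mul_left (fun r => β r ^ q) hc0.ne', smul_eq_mul,
          Real.rpow_sub_one hc0.ne']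
        field_simp
      rw [e1]
      have h4 := ell_sub (θ := θ) hd hc0 hθ0.le hθ1
      obtain ⟨ℓ₁, hℓ₁⟩ : ∃ ℓ₁ : ℝ, ℓ₁ = Real.log (2 + |Real.log (c * (t - s))|) ^ θ := ⟨_, rfl⟩
      obtain ⟨ℓ₂, hℓ₂⟩ : ∃ ℓ₂ : ℝ, ℓ₂ = Real.log (2 + |Real.log (t - s)|) ^ θ := ⟨_, rfl⟩
      obtain ⟨ℓ₃, hℓ₃⟩ : ∃ ℓ₃ : ℝ, ℓ₃ = Real.log (1 + |Real.log c|) ^ θ := ⟨_, rfl⟩
      rw [← hℓ₁, ← hℓ₂, ← hℓ₃] at h4
      rw [← hℓ₁] at h1
      rw [← hℓ₂, ← hℓ₃]
      have h5 : c ^ (q - 1) * (c * (t - s)) ^ θ = c ^ (q / 2) * (t - s) ^ θ := by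
        rw [Real.mul_rpow hc0.le hd.le, ← mul_assoc, ← Real.rpow_add hc0]
        congr 2
        rw [hθ]
        ring
      have h6 : c ^ (q / 2) * ν ^ (q / 2) = 1 := by
        rw [← Real.mul_rpow hc0.le hν.le, hcν, Real.one_rpow]
      have hcq : 0 ≤ c ^ (q - 1) := Real.rpow_nonneg hc0.le _
      have h7 := mul_le_mul_of_nonneg_left h1 hcq
      have h8 : c ^ (q - 1) * ((A + c₀ * ν ^ (q / 2) * ℓ₁) * (c * (t - s)) ^ θ)
          = (A * c ^ (q / 2) + c₀ * ℓ₁) * (t - s) ^ θ := by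
        calc c ^ (q - 1) * ((A + c₀ * ν ^ (q / 2) * ℓ₁) * (c * (t - s)) ^ θ)
            = (A + c₀ * ν ^ (q / 2) * ℓ₁) * (c ^ (q - 1) * (c * (t - s)) ^ θ) := by ring
          _ = (A * c ^ (q / 2) + c₀ * (c ^ (q / 2) * ν ^ (q / 2)) * ℓ₁) * (t - s) ^ θ := by
            rw [h5]; ring
          _ = _ := by rw [h6, mul_one]
      rw [h8] at h7
      refine h7.trans ?_
      apply mul_le_mul_of_nonneg_right _ (Real.rpow_nonneg hd.le _)
      have h9 := mul_le_mul_of_nonneg_left h4 hc₀.le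
      linarith)
    (fun t ht x hx hx2 hx3 hx4 => by
      have e : circ (fun x => c • u (c * t) x) = fun x => c * circ (u (c * t)) x :=
        circ_smul c _
      have hx3' : c * N * Real.log (L / √(sg x)) ^ (-α)
          < |circ (fun x => c • u (c * t) x) x| := hx3
      have hx4' : Tch (fun x => c • u (c * t) x) x := hx4
      rw [e] at hx3'
      rw [abs_mul, abs_of_pos hc0, mul_assoc] at hx3'
      have h1 : N * Real.log (L / √(sg x)) ^ (-α) < |circ (u (c * t)) x| :=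
        lt_of_mul_lt_mul_left hx3' hc0.le
      have h2 : Tch (u (c * t)) x := by
        obtain ⟨a1, a2, a3⟩ := hx4'
        rw [e] at a1 a2 a3
        rw [pd_cmul] at a1
        rw [pd_cmul, pd_cmul] at a2
        refine ⟨?_, ?_, fun y hy => ?_⟩
        · rcases mul_eq_zero.1 a1 with h | h
          · exact absurd h hc0.ne'
          · exact h
        · have e2 : c * circ (u (c * t)) x * (x 0 * (c * pd 0 (circ (u (c * t))) x)
              + x 1 * (c * pd 1 (circ (u (c * t))) x))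
              = c ^ 2 * (circ (u (c * t)) x * (x 0 * pd 0 (circ (u (c * t))) x
                + x 1 * pd 1 (circ (u (c * t))) x)) := by ring
          have a2' : 0 < c ^ 2 * (circ (u (c * t)) x * (x 0 * pd 0 (circ (u (c * t))) x
                + x 1 * pd 1 (circ (u (c * t))) x)) := by rw [← e2]; exact a2
          exact (mul_pos_iff_of_pos_left (by positivity)).1 a2'
        · have a3' := a3 y hy
          beta_reduce at a3'
          rw [abs_mul, abs_mul] at a3'
          exact le_of_mul_le_mul_left a3' (abs_pos.2 hc0.ne')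
      have h3 := hcond (c * t) ⟨hdiv3 ht.1, hdiv ht.2⟩ x hx hx2 h1 h2
      have h4 := mul_le_mul_of_nonneg_left h3 hc0.le
      show -κ - c * β (c * t) * √(sg x)
        ≤ x 0 * (c • u (c * t) x) 0 + x 1 * (c • u (c * t) x) 1
      simp only [Pi.smul_apply, smul_eq_mul]
      have e5 : c * (-(κ * ν) - β (c * t) * √(sg x)) = -κ - c * β (c * t) * √(sg x) := by
        linear_combination (-κ) * hcν
      rw [e5] at h4
      linarith)
  refine ⟨U / c, fun t ht x => ?_⟩
  have h1 := hU (t / c) ⟨div_nonneg ht.1 hc0.le, by gcongr; exact ht.2⟩ x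
  have e : c * (t / c) = t := by field_simp
  beta_reduce at h1
  rw [e, norm_smul, Real.norm_eq_abs, abs_of_pos hc0] at h1
  rw [le_div_iff₀ hc0]
  linarith

end Pool.Agent.X96.AT
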