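import Pool.Agent.X96.AT.Iter

/-!
Axisymmetric flows (helper96): the sequences of the iteration.
-/

set_option autoImplicit false

open MeasureTheory Set Metric Filter Topology
open scoped ContDiff ENNReal

namespace Pool.Agent.X96.AT

open H459R3.NS W221.NS Pool.Agent.TH305.AX Pool.Agent.X96.AX
open Pool.Agent.X96.AR hiding sm_sg
open Pool.Agent.TH305.DR hiding gg

lemma lo_up {a h σ Y : ℝ} (ha : 0 < a) (ha1 : a ≤ 1) (hh : 0 < h) (hσ : 0 ≤ σ) (hσ2 : σ ≤ Y * h) :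
    lo a (2 * a * h) σ ≤ 1 - a * Real.exp (-(Y / (2 * a))) := by
  unfold lo
  have h1 : σ / (2 * a * h) ≤ Y / (2 * a) := by
    rw [div_le_div_iff₀ (by positivity) (by positivity)]
    nlinarith
  have h2 : Real.exp (-(Y / (2 * a))) ≤ Real.exp (-(σ / (2 * a * h))) :=
    Real.exp_le_exp.2 (by linarith)
  have h3 : 0 ≤ 1 - Real.exp (-(σ / (2 * a * h))) := lo_nonneg (by positivity) hσ
  have h4 : (1 - Real.exp (-(σ / (2 * a * h)))) ^ a ≤ (1 - Real.exp (-(Y / (2 * a)))) ^ a :=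
    Real.rpow_le_rpow h3 (by linarith) ha.le
  refine h4.trans ?_
  have h5 := rpow_one_add_le_one_add_mul_self (s := -Real.exp (-(Y / (2 * a))))
    (by linarith) ha.le ha1
  rw [← sub_eq_add_neg] at h5
  linarith

lemma lo_low {a h n : ℝ} (ha : 0 < a) (ha1 : a ≤ 1) (hh : 0 < h) (hn : 0 ≤ n) :
    1 - Real.exp (-(n / (8 * a))) ≤ lo a (8 * a * h) (n * h) := by
  unfold lo
  have h1 : n * h / (8 * a * h) = n / (8 * a) := by field_simp
  rw [h1]
  have h2 : 0 < Real.exp (-(n / (8 * a))) := Real.exp_pos _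
  have h3 : Real.exp (-(n / (8 * a))) ≤ 1 := by
    rw [Real.exp_le_one_iff]
    have : 0 ≤ n / (8 * a) := by positivity
    linarith
  exact Real.self_le_rpow_of_le_one (by linarith) (by linarith) ha1

lemma pow_sum {x y r : ℝ} (hx : 0 ≤ x) (hy : 0 ≤ y) (hr : 0 ≤ r) :
    (x + y) ^ r ≤ 2 ^ r * (x ^ r + y ^ r) := by
  have h1 : (x + y) ^ r ≤ (2 * max x y) ^ r := by
    apply Real.rpow_le_rpow (by positivity) _ hr
    linarith [le_max_left x y, le_max_right x y]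
  have hm : 0 ≤ max x y := hx.trans (le_max_left _ _)
  refine h1.trans ?_
  rw [Real.mul_rpow zero_le_two hm]
  apply mul_le_mul_of_nonneg_left _ (by positivity)
  rcases max_cases x y with ⟨h, -⟩ | ⟨h, -⟩
  · rw [h]; have := Real.rpow_nonneg hy r; linarith
  · rw [h]; have := Real.rpow_nonneg hx r; linarith

/-- the constant in front of the iterated logarithm -/
noncomputable def cc (a : ℝ) : ℝ := (a / 2) ^ a / 2

lemma cc_pos {a : ℝ} (ha : 0 < a) : 0 < cc a := by unfold cc; positivity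

/-- the exponent -/
lemma X_le {a A ℓ n : ℝ} (ha : 0 < a) (hA : 0 ≤ A) (hℓ : 0 ≤ ℓ) (hn : ℓ ≤ 2 * Real.log n) :
    (1 + (A + cc a * ℓ ^ a)) ^ (1 / a) / (2 * a)
      ≤ 2 ^ (1 / a) * (1 + A) ^ (1 / a) / (2 * a) + Real.log n / 2 := by
  have h1 := pow_sum (x := 1 + A) (y := cc a * ℓ ^ a) (r := 1 / a) (by linarith)
    (by have := cc_pos ha; positivity) (by positivity)
  have h2 : (cc a * ℓ ^ a) ^ (1 / a) = cc a ^ (1 / a) * ℓ := by
    rw [Real.mul_rpow (cc_pos ha).le (by positivity), ← Real.rpow_mul hℓ,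
      mul_one_div_cancel ha.ne', Real.rpow_one]
  have h3 : 2 ^ (1 / a) * cc a ^ (1 / a) = a / 2 := by
    rw [← Real.mul_rpow zero_le_two (cc_pos ha).le]
    have : 2 * cc a = (a / 2) ^ a := by unfold cc; ring
    rw [this, ← Real.rpow_mul (by positivity), mul_one_div_cancel ha.ne', Real.rpow_one]
  rw [h2] at h1
  have h4 : (1 + (A + cc a * ℓ ^ a)) ^ (1 / a)
      ≤ 2 ^ (1 / a) * (1 + A) ^ (1 / a) + a / 2 * (2 * Real.log n) := by
    rw [← add_assoc]
    refine h1.trans ?_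
    rw [mul_add, ← mul_assoc, h3]
    have := mul_le_mul_of_nonneg_left hn (show 0 ≤ a / 2 by positivity)
    linarith
  calc (1 + (A + cc a * ℓ ^ a)) ^ (1 / a) / (2 * a)
      ≤ (2 ^ (1 / a) * (1 + A) ^ (1 / a) + a / 2 * (2 * Real.log n)) / (2 * a) := by gcongr
    _ = _ := by field_simp

/-- the squares of the radii -/
noncomputable def PP0 (P₀ k₀ : ℝ) : ℕ → ℝ
  | 0 => P₀
  | k + 1 => PP0 P₀ k₀ k / (k + k₀)

section
variable {P₀ k₀ : ℝ}

lemma PP0_pos (hP : 0 < P₀) (hk : 3 ≤ k₀) (k : ℕ) : 0 < PP0 P₀ k₀ k := by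
  induction k with
  | zero => exact hP
  | succ k ih =>
    have : 0 < (k : ℝ) + k₀ := by positivity
    exact div_pos ih this

lemma PP0_half (hP : 0 < P₀) (hk : 3 ≤ k₀) (k : ℕ) : PP0 P₀ k₀ (k + 1) ≤ PP0 P₀ k₀ k / 2 := by
  have h0 := PP0_pos hP hk k
  show PP0 P₀ k₀ k / (k + k₀) ≤ _
  apply div_le_div_of_nonneg_left h0.le (by norm_num)
  have : (0 : ℝ) ≤ k := Nat.cast_nonneg k
  linarith

/-- upper bound for the logarithm -/
lemma log_PP0_le (hP : 0 < P₀) (hk : 3 ≤ k₀) (k : ℕ) :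
    Real.log P₀ - Real.log (PP0 P₀ k₀ (k + 1)) ≤ (k + k₀) * Real.log (k + k₀) := by
  induction k with
  | zero =>
    have h1 : PP0 P₀ k₀ (0 + 1) = P₀ / k₀ := by
      show PP0 P₀ k₀ 0 / ((0 : ℕ) + k₀) = _
      simp only [Nat.cast_zero, zero_add]
      rfl
    rw [h1, Real.log_div hP.ne' (by positivity)]
    have h2 : 1 ≤ k₀ := by linarith
    have h3 : 0 ≤ Real.log k₀ := Real.log_nonneg h2
    simp only [Nat.cast_zero, zero_add]
    nlinarith
  | succ k ih =>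
    have h0 := PP0_pos hP hk (k + 1)
    have hk0 : (0 : ℝ) ≤ k := Nat.cast_nonneg k
    have h1 : PP0 P₀ k₀ (k + 1 + 1) = PP0 P₀ k₀ (k + 1) / ((k + 1 : ℕ) + k₀) := rfl
    have hp : 0 < ((k + 1 : ℕ) : ℝ) + k₀ := by positivity
    rw [h1, Real.log_div h0.ne' hp.ne']
    have h3 : Real.log (k + k₀) ≤ Real.log ((k + 1 : ℕ) + k₀) := by
      apply Real.log_le_log (by linarith)
      push_cast
      linarith
    have h4 : ((k : ℝ) + k₀) * Real.log (k + k₀) ≤ (k + k₀) * Real.log ((k + 1 : ℕ) + k₀) := by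
      apply mul_le_mul_of_nonneg_left h3
      linarith
    have h5 : (((k + 1 : ℕ) : ℝ) + k₀) * Real.log ((k + 1 : ℕ) + k₀)
        = (k + k₀) * Real.log ((k + 1 : ℕ) + k₀) + Real.log ((k + 1 : ℕ) + k₀) := by
      push_cast
      ring
    rw [h5]
    linarith

/-- lower bound for the logarithm -/
lemma log_PP0_ge (hP : 0 < P₀) (hk : 3 ≤ k₀) (k : ℕ) :
    (k : ℝ) ≤ Real.log P₀ - Real.log (PP0 P₀ k₀ k) := by
  induction k with
  | zero => simp [PP0]
  | succ k ih =>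
    have h0 := PP0_pos hP hk k
    have hk0 : (0 : ℝ) ≤ k := Nat.cast_nonneg k
    have h1 : PP0 P₀ k₀ (k + 1) = PP0 P₀ k₀ k / (k + k₀) := rfl
    have hp : 0 < (k : ℝ) + k₀ := by positivity
    rw [h1, Real.log_div h0.ne' hp.ne']
    have h3 : 1 ≤ Real.log (k + k₀) := by
      rw [Real.le_log_iff_exp_le hp]
      have := Real.exp_one_lt_d9
      norm_num at this ⊢
      linarith
    push_cast
    linarith

/-- the radii tend to zero -/
lemma PP0_small (hP : 0 < P₀) (hk : 3 ≤ k₀) {y : ℝ} (hy : 0 < y) (hy2 : y ≤ P₀) :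
    ∃ k : ℕ, PP0 P₀ k₀ (k + 1) < y ∧ y ≤ PP0 P₀ k₀ k := by
  have hex : ∃ k : ℕ, PP0 P₀ k₀ k < y := by
    obtain ⟨k, hk2⟩ := exists_nat_gt (Real.log P₀ - Real.log y)
    refine ⟨k, ?_⟩
    have h1 := log_PP0_ge hP hk k
    have h2 : Real.log (PP0 P₀ k₀ k) < Real.log y := by linarith
    exact (Real.log_lt_log_iff (PP0_pos hP hk k) hy).1 h2
  classical
  obtain ⟨m, hm⟩ : ∃ m, m = Nat.find hex := ⟨_, rfl⟩
  have h1 : PP0 P₀ k₀ m < y := by rw [hm]; exact Nat.find_spec hex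
  cases m with
  | zero => exact absurd h1 (not_lt.2 hy2)
  | succ k =>
    refine ⟨k, h1, ?_⟩
    have := Nat.find_min hex (m := k) (by omega)
    exact not_lt.1 this

end

end Pool.Agent.X96.AT
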