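import Pool.Agent.X96.AT.Mb

/-!
Axisymmetric flows (helper96): the moving barrier, the one step estimate.
-/

set_option autoImplicit false

open MeasureTheory Set Metric Filter Topology
open scoped ContDiff ENNReal

namespace Pool.Agent.X96.AT

open H459R3.NS W221.NS Pool.Agent.TH305.AX Pool.Agent.X96.AX
open Pool.Agent.X96.AR hiding sm_sg
open Pool.Agent.TH305.DR hiding gg

variable {ν T : ℝ} {u : ℝ → V → V} {p : ℝ → V → ℝ}

/-- **One step.** -/
theorem stepT (hν : 0 < ν) (hT : 0 < T) (h : TS ν T u p) {S m δ ε a : ℝ} (hS : 0 < S)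
    (hδ : 0 ≤ δ) (hm : δ ≤ m) (hε : 0 < ε) (ha : 0 < a) (ha2 : a ≤ 1 / 2) {b : ℝ → ℝ}
    (hb : ContinuousOn b (Ico 0 T)) (hb0 : ∀ t ∈ Ico 0 T, 0 ≤ b t)
    (hlat : 1 ≤ lo a (8 * a * (ν * T)) S + ε)
    (hM : ∀ t ∈ Ico 0 T, ∀ x, sg x ≤ S → |circ (u t) x| ≤ m)
    (hcond : ∀ t ∈ Ioo 0 T, ∀ x, 0 < sg x → sg x < S → δ < |circ (u t) x| →
      Tch (u t) x →
      -(2 * (1 - a) * ν) - b t / (2 * a) * sg x ^ (1 - a) ≤ x 0 * u t x 0 + x 1 * u t x 1) :
    ∀ t ∈ Ioo 0 T, ∀ x, sg x ≤ S → |circ (u t) x|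
      ≤ δ + (m - δ) * (lo a (4 * a * ν * t) ((sg x ^ a + ∫ r in (0 : ℝ)..t, b r) ^ (1 / a)) + ε)
    := by
  intro t₁ ht₁ x₁ hx₁
  rcases eq_or_lt_of_le hm with hm' | hm'
  · rw [← hm', sub_self, zero_mul, add_zero, hm']
    exact hM t₁ ⟨ht₁.1.le, ht₁.2⟩ x₁ hx₁
  have hmδ : 0 < m - δ := by linarith
  obtain ⟨U, hU0, hU⟩ := h.b.u_bdd hT
  obtain ⟨L, hL, hL'⟩ := lo_large ha hε
  obtain ⟨β, hβe⟩ : ∃ β : ℝ → ℝ, β = fun τ => ∫ r in (0 : ℝ)..τ, b r := ⟨_, rfl⟩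
  have hβd : ∀ τ ∈ Ioo 0 T, HasDerivAt β (b τ) τ := fun τ hτ => by rw [hβe]; exact prim_hd hb hτ
  have hβ0 : ∀ τ ∈ Ico 0 T, 0 ≤ β τ := fun τ hτ => by rw [hβe]; exact prim_nonneg hb0 hτ
  have hβc : ContinuousOn β (Ico 0 T) := by
    intro τ hτ
    obtain ⟨τ', hτ'1, hτ'2⟩ := exists_between hτ.2
    have h1 := prim_cont hb (t := τ') ⟨hτ.1.trans hτ'1.le, hτ'2⟩
    rw [hβe]
    refine (h1 τ ⟨hτ.1, hτ'1.le⟩).mono_of_mem_nhdsWithin ?_
    rw [mem_nhdsWithin]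
    exact ⟨Iio τ', isOpen_Iio, hτ'1, fun y hy => ⟨hy.2.1, hy.1.le⟩⟩
  have hβ00 : β 0 = 0 := by rw [hβe]; simp
  obtain ⟨η, hη, hηT, hηU⟩ : ∃ η : ℝ, 0 < η ∧ η ≤ T ∧
      2 * √(L * (4 * a * ν * η)) * U ≤ (m - δ) * ε := by
    obtain ⟨g, hg⟩ : ∃ g : ℝ, g = (m - δ) * ε / (2 * (U + 1)) := ⟨_, rfl⟩
    have hg0 : 0 < g := by rw [hg]; positivity
    refine ⟨min T (g ^ 2 / (4 * a * ν * L)), lt_min hT (by positivity), min_le_left _ _, ?_⟩
    have h1 : min T (g ^ 2 / (4 * a * ν * L)) ≤ g ^ 2 / (4 * a * ν * L) := min_le_right _ _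
    have h2 : L * (4 * a * ν * min T (g ^ 2 / (4 * a * ν * L))) ≤ g ^ 2 := by
      rw [le_div_iff₀ (by positivity)] at h1
      linarith
    have h3 : √(L * (4 * a * ν * min T (g ^ 2 / (4 * a * ν * L)))) ≤ g :=
      Real.sqrt_le_iff.2 ⟨hg0.le, h2⟩
    calc 2 * √(L * (4 * a * ν * min T (g ^ 2 / (4 * a * ν * L)))) * U ≤ 2 * g * (U + 1) := by
          gcongr
          linarith
      _ = (m - δ) * ε := by rw [hg]; field_simp
  have hφpos : ∀ τ ∈ Ico 0 T, 0 < 4 * a * ν * (τ + η) := fun τ hτ => by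
    have := hτ.1
    positivity
  have hs0 : ∀ τ ∈ Ico 0 T, ∀ σ : ℝ, 0 ≤ σ → 0 ≤ σ ^ a + β τ := fun τ hτ σ hσ => by
    have := hβ0 τ hτ
    positivity
  have key := cmpT hν h (S := S)
    (Φ := mb ν η a β (δ + (m - δ) * ε) (m - δ))
    (fun t ht σ hσ => by
      unfold mb
      have h1 : 0 ≤ lo a (4 * a * ν * (t + η)) ((σ ^ a + β t) ^ (1 / a)) :=
        lo_nn (hφpos t ht) (Real.rpow_nonneg (hs0 t ht σ hσ.1) _)
      positivity)
    (by
      unfold mb lo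
      refine continuousOn_const.add (continuousOn_const.mul ?_)
      refine ContinuousOn.rpow_const ?_ fun z hz => Or.inr ha.le
      have c1 : ContinuousOn (fun z : ℝ × ℝ => β z.1) (Ico 0 T ×ˢ Icc 0 S) :=
        hβc.comp continuous_fst.continuousOn fun z hz => hz.1
      have c2 : ContinuousOn (fun z : ℝ × ℝ => z.2 ^ a) (Ico 0 T ×ˢ Icc 0 S) :=
        continuous_snd.continuousOn.rpow_const fun z hz => Or.inr ha.le
      have c3 : ContinuousOn (fun z : ℝ × ℝ => (z.2 ^ a + β z.1) ^ (1 / a)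
          / (4 * a * ν * (z.1 + η))) (Ico 0 T ×ˢ Icc 0 S) :=
        ((c2.add c1).rpow_const fun z hz => Or.inr (by positivity)).div (by fun_prop)
          fun z hz => (hφpos z.1 hz.1).ne'
      exact continuousOn_const.sub (c3.neg.rexp))
    (fun t ht => by
      intro σ hσ σ' hσ' hle
      have htI : t ∈ Ico 0 T := ⟨ht.1.le, ht.2⟩
      have h0 := hs0 t htI σ hσ.1
      have h1 : σ ^ a ≤ σ' ^ a := Real.rpow_le_rpow hσ.1 hle ha.le
      have h2 : (σ ^ a + β t) ^ (1 / a) ≤ (σ' ^ a + β t) ^ (1 / a) :=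
        Real.rpow_le_rpow h0 (by linarith) (by positivity)
      have h3 := lo_mono ha.le (hφpos t htI) le_rfl (Real.rpow_nonneg h0 (1 / a)) h2
      have h4 := mul_le_mul_of_nonneg_left h3 hmδ.le
      unfold mb
      linarith)
    (fun t ht x hx => by
      have h1 := hM t ht x hx.le
      have h2 : lo a (8 * a * (ν * T)) S
          ≤ lo a (4 * a * ν * (t + η)) ((S ^ a + β t) ^ (1 / a)) := by
        refine lo_mono ha.le (hφpos t ht) ?_ hS.le ?_
        · have h5 : t + η ≤ 2 * T := by linarith [ht.2]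
          have h6 := mul_le_mul_of_nonneg_left h5 (show 0 ≤ 4 * a * ν by positivity)
          linarith
        · have h7 : S = (S ^ a) ^ (1 / a) := by
            rw [← Real.rpow_mul hS.le, mul_one_div_cancel ha.ne', Real.rpow_one]
          calc S = (S ^ a) ^ (1 / a) := h7
            _ ≤ _ := by
              apply Real.rpow_le_rpow (by positivity) _ (by positivity)
              have := hβ0 t ht
              linarith
      unfold mb
      have h3 := mul_le_mul_of_nonneg_left (hlat.trans (add_le_add_left h2 ε)) hmδ.le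
      linarith)
    (fun x hx => by
      unfold mb
      rw [hβ00, add_zero, zero_add, ← Real.rpow_mul (sg_nonneg x), mul_one_div_cancel ha.ne',
        Real.rpow_one]
      have hφ0 : 0 < 4 * a * ν * η := by positivity
      rcases le_total (L * (4 * a * ν * η)) (sg x) with h1 | h1
      · have h2 := hL' (4 * a * ν * η) (sg x) hφ0 h1
        have h3 := mul_le_mul_of_nonneg_left h2 hmδ.le
        have h4 := hM 0 ⟨le_rfl, hT⟩ x hx
        linarith
      · have h2 : |circ (u 0) x| ≤ (m - δ) * ε := by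
          calc |circ (u 0) x| ≤ 2 * √(sg x) * ‖u 0 x‖ := circ_le _ _
            _ ≤ 2 * √(L * (4 * a * ν * η)) * U := by
              have h5 := hU 0 ⟨le_rfl, le_rfl⟩ x
              have h6 : √(sg x) ≤ √(L * (4 * a * ν * η)) := Real.sqrt_le_sqrt h1
              gcongr
            _ ≤ _ := hηU
        have h3 : 0 ≤ lo a (4 * a * ν * η) (sg x) := lo_nn hφ0 (sg_nonneg x)
        have h4 := mul_nonneg hmδ.le h3
        linarith)
    (fun t ht x hx hxS hbig => by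
      have htI : t ∈ Ico 0 T := ⟨ht.1.le, ht.2⟩
      have hφt := hφpos t htI
      have h1 : δ < |circ (u t) x| := by
        refine lt_of_le_of_lt ?_ hbig
        unfold mb
        have h3 : 0 ≤ lo a (4 * a * ν * (t + η)) ((sg x ^ a + β t) ^ (1 / a)) :=
          lo_nn hφt (Real.rpow_nonneg (hs0 t htI _ hx.le) _)
        have h4 := mul_nonneg hmδ.le h3
        have h5 := mul_pos hmδ hε
        linarith
      obtain ⟨χ, χ₁, c₂, d, ζ, m1, m2, m3⟩ := mb_majT (c₀ := δ + (m - δ) * ε) hν hη ha ha2 hmδ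
        ht.1 hx (hβ0 t htI) (hβd t ht)
      exact ⟨χ, χ₁, c₂, d, ζ, m1, m2, fun hT => m3 _ (hcond t ht x hx hxS h1 hT)⟩)
    t₁ ⟨ht₁.1.le, ht₁.2⟩ x₁ hx₁
  refine key.trans ?_
  unfold mb
  have hβ1 : β t₁ = ∫ r in (0 : ℝ)..t₁, b r := by rw [hβe]
  rw [← hβ1]
  have h2 : lo a (4 * a * ν * (t₁ + η)) ((sg x₁ ^ a + β t₁) ^ (1 / a))
      ≤ lo a (4 * a * ν * t₁) ((sg x₁ ^ a + β t₁) ^ (1 / a)) := by
    refine lo_mono ha.le (by have := ht₁.1; positivity) ?_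
      (Real.rpow_nonneg (hs0 t₁ ⟨ht₁.1.le, ht₁.2⟩ _ (sg_nonneg x₁)) _) le_rfl
    have h5 : t₁ ≤ t₁ + η := by linarith
    gcongr
  have h3 := mul_le_mul_of_nonneg_left h2 hmδ.le
  linarith

end Pool.Agent.X96.AT
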